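import Pool.Agent.H417B.Stmts3
import Pool.Agent.H712R5.BO.C12

/-! C12H: hyperinvariant subspace from a nonscalar strong limit (adapted from the file C12). -/

set_option autoImplicit false
open scoped ComplexConjugate InnerProductSpace Topology
open Filter MeasureTheory NormedSpace

namespace Pool.Agent.H417B
open Pool.Agent.H712R5.BO

theorem t_C12H (h1 : P_B4v) (h2 : P_C10) (h3 : P_C11) : P_C12H := by
  intro H _ _ _ T k hk hk1 X hlim hns
  set Y : ℕ → (H →L[ℂ] H) := fun i => (1/(k i : ℝ)) • Lg (ex ((k i : ℕ) : ℂ) T) with hY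
  have hYs : ∀ i, IsSelfAdjoint (Y i) := fun i => (C12_exp h1 T (k i) (hk1 i)).1
  have hYn : ∀ i, ‖Y i‖ ≤ 2 * ‖T‖ := fun i => (C12_exp h1 T (k i) (hk1 i)).2.1
  obtain ⟨hX, hcfc⟩ := h2 H Y X (2 * ‖T‖) hYn hYs hlim
  obtain ⟨s1, hs1, s2, hs2, hlt⟩ := C12_spec X hX hns
  set a : ℝ := (2 * s1 + s2) / 3 with ha
  set b : ℝ := (s1 + 2 * s2) / 3 with hb
  have hab : a < b := by rw [ha, hb]; linarith
  set φ : ℝ → ℝ := fun x => max (a - x) 0 with hφ
  set χ : ℝ → ℝ := fun x => min (max (x - b) 0) 1 with hχ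
  have hφc : Continuous φ := by rw [hφ]; fun_prop
  have hχc : Continuous χ := by rw [hχ]; fun_prop
  have hχ01 : ∀ x, 0 ≤ χ x ∧ χ x ≤ 1 := fun x =>
    ⟨le_min (le_max_right _ _) zero_le_one, min_le_right _ _⟩
  have hφX : cfc φ X ≠ 0 := by
    refine C12_ne X hX φ hφc hs1 ?_
    have : 0 < φ s1 := lt_max_of_lt_left (by rw [ha]; linarith)
    exact this.ne'
  have hχX : cfc χ X ≠ 0 := by
    refine C12_ne X hX χ hχc hs2 ?_
    have : 0 < χ s2 := lt_min (lt_max_of_lt_left (by rw [hb]; linarith)) zero_lt_one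
    exact this.ne'
  have hχn : ∀ i, ‖cfc χ (Y i)‖ ≤ 1 := by
    intro i
    refine norm_cfc_le zero_le_one fun x _ => ?_
    rw [Real.norm_eq_abs, abs_of_nonneg (hχ01 x).1]
    exact (hχ01 x).2
  -- the key vanishing
  have key : ∀ (Q : H →L[ℂ] H), Q * T = T * Q → ∀ (v : H), cfc χ X (Q (cfc φ X v)) = 0 := by
    intro Q hQ v
    have e1 : Tendsto (fun i => cfc φ (Y i) v) atTop (𝓝 (cfc φ X v)) := hcfc φ hφc v
    have e2 : Tendsto (fun i => Q (cfc φ (Y i) v)) atTop (𝓝 (Q (cfc φ X v))) :=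
      (Q.continuous.tendsto _).comp e1
    have e3 : Tendsto (fun i => cfc χ (Y i) (Q (cfc φ (Y i) v))) atTop
        (𝓝 (cfc χ X (Q (cfc φ X v)))) := by
      have e4 : Tendsto (fun i => cfc χ (Y i) (Q (cfc φ X v))) atTop
        (𝓝 (cfc χ X (Q (cfc φ X v)))) := hcfc χ hχc _
      have e5 : Tendsto (fun i => cfc χ (Y i) (Q (cfc φ (Y i) v) - Q (cfc φ X v)))
          atTop (𝓝 0) := by
        have e6 : Tendsto (fun i => ‖Q (cfc φ (Y i) v) - Q (cfc φ X v)‖) atTop
            (𝓝 0) := by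
          have := (e2.sub_const (Q (cfc φ X v))).norm
          simpa using this
        refine squeeze_zero_norm (fun i => ?_) e6
        calc ‖cfc χ (Y i) (Q (cfc φ (Y i) v) - Q (cfc φ X v))‖
            ≤ ‖cfc χ (Y i)‖ * ‖Q (cfc φ (Y i) v) - Q (cfc φ X v)‖ :=
              ContinuousLinearMap.le_opNorm _ _
          _ ≤ 1 * ‖Q (cfc φ (Y i) v) - Q (cfc φ X v)‖ := by
              gcongr
              exact hχn i
          _ = _ := one_mul _
      have e7 := e5.add e4
      rw [zero_add] at e7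
      refine e7.congr fun i => ?_
      rw [← map_add, sub_add_cancel]
    have e8 : Tendsto (fun i => cfc χ (Y i) (Q (cfc φ (Y i) v))) atTop (𝓝 0) := by
      have e9 : Tendsto (fun i => Real.exp (-((k i : ℝ) * (b - a) / 2)) * ‖Q‖ *
          ‖cfc φ (Y i) v‖) atTop (𝓝 (0 * ‖Q‖ * ‖cfc φ X v‖)) := by
        refine Tendsto.mul (Tendsto.mul ?_ tendsto_const_nhds) e1.norm
        have e10 : Tendsto (fun i => (k i : ℝ)) atTop atTop :=
          tendsto_natCast_atTop_atTop.comp hk.tendsto_atTop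
        have e11 : Tendsto (fun i => (k i : ℝ) * ((b - a) / 2)) atTop atTop :=
          e10.atTop_mul_const (by linarith)
        have e12 := Real.tendsto_exp_neg_atTop_nhds_zero.comp e11
        refine e12.congr fun i => ?_
        simp only [Function.comp_apply]
        congr 2
        ring
      rw [zero_mul, zero_mul] at e9
      refine squeeze_zero_norm (fun i => ?_) e9
      have hcomm : ex ((k i : ℕ) : ℂ) T * Q = Q * ex ((k i : ℕ) : ℂ) T := by
        unfold ex
        have c0 : Commute T Q := hQ.symm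
        have c1 : Commute (((k i : ℕ) : ℂ) • T) Q := c0.smul_left _
        exact c1.exp_left.eq
      exact h3 H (ex ((k i : ℕ) : ℂ) T) Q (Y i) (k i) φ χ a b (hYs i) hcomm
        (C12_exp h1 T (k i) (hk1 i)).2.2 hφc hχc hχ01
        (fun x hx => max_eq_right (by linarith))
        (fun x hx => by
          show min (max (x - b) 0) 1 = 0
          rw [max_eq_right (by linarith)]
          exact min_eq_left zero_le_one) v
    exact tendsto_nhds_unique e3 e8
  -- the hyperinvariant subspace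
  let I : Type := {Q : H →L[ℂ] H // Q * T = T * Q}
  refine ⟨⨅ Q : I, LinearMap.ker ((cfc χ X * Q.1 : H →L[ℂ] H) : H →ₗ[ℂ] H), ?_, ?_, ?_, ?_⟩
  · rw [Submodule.coe_iInf]
    refine isClosed_iInter fun Q => ?_
    exact ContinuousLinearMap.isClosed_ker (cfc χ X * Q.1 : H →L[ℂ] H)
  · intro hbot
    apply hφX
    ext v
    have hmem : cfc φ X v ∈ (⨅ Q : I, LinearMap.ker ((cfc χ X * Q.1 : H →L[ℂ] H) : H →ₗ[ℂ] H)) := by
      rw [Submodule.mem_iInf]
      intro Q
      rw [LinearMap.mem_ker]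
      exact key Q.1 Q.2 v
    rw [hbot, Submodule.mem_bot] at hmem
    rw [hmem]
    rfl
  · intro htop
    apply hχX
    ext v
    have hmem : v ∈ (⨅ Q : I, LinearMap.ker ((cfc χ X * Q.1 : H →L[ℂ] H) : H →ₗ[ℂ] H)) := by
      rw [htop]
      trivial
    rw [Submodule.mem_iInf] at hmem
    have h0 := hmem ⟨1, by rw [one_mul, mul_one]⟩
    rw [LinearMap.mem_ker, mul_one] at h0
    exact h0
  · intro R hR v hv
    rw [Submodule.mem_iInf] at hv ⊢
    intro Q
    have h0 := hv ⟨Q.1 * R, by rw [mul_assoc, hR, ← mul_assoc, Q.2, mul_assoc]⟩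
    rw [LinearMap.mem_ker] at h0 ⊢
    exact h0

end Pool.Agent.H417B
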