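import Pool.Agent.H417B.Stmts2
import Pool.Agent.H712R5.BO.D8

set_option autoImplicit false

namespace Pool.Agent.H417B

open Pool.Agent.H712R5.BO

theorem t_D8R : P_D8R := by
  intro R hR a h
  obtain ⟨M, hM⟩ := exists_nat_ge (8 * Real.pi * R + 1)
  have hpi := Real.pi_pos
  have hM1' : (1 : ℝ) ≤ M := by
    have : 0 ≤ 8 * Real.pi * R := by positivity
    linarith
  have hM1 : 1 ≤ M := by exact_mod_cast hM1'
  have hM0 : (0 : ℝ) < M := by linarith
  refine ⟨1 / (2 * M), by positivity, 6 + M, fun k hk => ?_⟩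
  have hk1 : 1 ≤ k := by omega
  have hk0 : (0 : ℝ) < k := by exact_mod_cast hk1
  have hk6 : (6 : ℝ) + M ≤ k := by exact_mod_cast hk
  have h1 := h k M hk1 hM1
  have hf : (0 : ℝ) < (k.factorial : ℝ) := by exact_mod_cast k.factorial_pos
  have h2 : Real.log (ck k) = Real.log (k.factorial : ℝ) - k * Real.log k := by
    rw [ck, Real.log_div hf.ne' (by positivity), Real.log_pow]
  have h3 := D8_fact k hk1
  have h4 : Real.log (ck k) ≤ Real.log k - k + 1 := by
    rw [h2]
    linarith
  have h5 : Real.log k ≤ k / 8 + 3 * Real.log 2 - 1 := by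
    have h6 := Real.log_le_sub_one_of_pos (show (0 : ℝ) < k / 8 by positivity)
    have h7 : Real.log ((k : ℝ) / 8) = Real.log k - 3 * Real.log 2 := by
      rw [Real.log_div hk0.ne' (by norm_num), show (8 : ℝ) = 2 ^ 3 by norm_num, Real.log_pow]
      norm_num
    linarith
  have hl := Real.log_two_lt_d9
  have hl0 := Real.log_two_gt_d9
  have h8 : 4 * Real.pi * k * R / M ≤ k / 2 := by
    rw [div_le_iff₀ hM0]
    have : 8 * Real.pi * R ≤ M := by linarith
    nlinarith
  have h9 : (6 + (M : ℝ)) * Real.log 2 ≤ 0.7 * k := by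
    have h10 : (6 + (M : ℝ)) * Real.log 2 ≤ k * Real.log 2 :=
      mul_le_mul_of_nonneg_right hk6 (by linarith)
    nlinarith
  have h11 : (k : ℝ) / 2 ≤ M * a k := by nlinarith
  rw [div_mul_eq_mul_div, div_le_iff₀ (by positivity)]
  nlinarith

end Pool.Agent.H417B
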