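import Pool.Agent.H712R5.BO.Stmts

/-!
Bishop operators `A f(x) = x f(Sx)` for an arbitrary measure-preserving `S` (helper417; the method is the
one of helper712).  Definitions.
-/

set_option autoImplicit false
open scoped ComplexConjugate InnerProductSpace Topology
open Filter MeasureTheory NormedSpace

namespace Pool.Agent.H417B
open Pool.Agent.H712R5.BO

section Gen

variable {H : Type} [NormedAddCommGroup H] [InnerProductSpace ℂ H] [CompleteSpace H]

/-- The data: a Hilbert basis `b r = E^r (b 0)` and a unitary `u` fixing `b 0` which normalises the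
commutant of `E`. -/
structure Dat (b : HilbertBasis ℤ ℂ H) (E u : unitary (H →L[ℂ] H)) : Prop where
  hE : ∀ r : ℤ, (E : H →L[ℂ] H) (b r) = b (r + 1)
  hu : (u : H →L[ℂ] H) (b 0) = b 0
  hc : (u : H →L[ℂ] H) * (E : H →L[ℂ] H) * star (u : H →L[ℂ] H) * (E : H →L[ℂ] H)
    = (E : H →L[ℂ] H) * ((u : H →L[ℂ] H) * (E : H →L[ℂ] H) * star (u : H →L[ℂ] H))

/-- the words `θ ↦ e^{2πinθ} f u^n`, `f` commuting with `E` -/
def Wd (E u : unitary (H →L[ℂ] H)) : Set C(UnitAddCircle, H →L[ℂ] H) :=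
  {A | ∃ (n : ℤ) (f : H →L[ℂ] H), f * (E : H →L[ℂ] H) = (E : H →L[ℂ] H) * f ∧
    ∀ θ, A θ = (fourier n θ : ℂ) • (f * ((u ^ n : unitary (H →L[ℂ] H)) : H →L[ℂ] H))}

/-- the C*-algebra generated by the words -/
noncomputable def Alg (E u : unitary (H →L[ℂ] H)) :
    StarSubalgebra ℂ C(UnitAddCircle, H →L[ℂ] H) :=
  (StarAlgebra.adjoin ℂ (Wd E u)).topologicalClosure

theorem Wd_subset_Alg (E u : unitary (H →L[ℂ] H)) {A : C(UnitAddCircle, H →L[ℂ] H)}
    (hA : A ∈ Wd E u) : A ∈ Alg E u :=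
  StarSubalgebra.le_topologicalClosure _ (StarAlgebra.subset_adjoin ℂ _ hA)

instance isClosed_Alg (E u : unitary (H →L[ℂ] H)) :
    IsClosed ((Alg E u : StarSubalgebra ℂ C(UnitAddCircle, H →L[ℂ] H)) :
      Set C(UnitAddCircle, H →L[ℂ] H)) :=
  StarSubalgebra.isClosed_topologicalClosure _

noncomputable instance CSG (E u : unitary (H →L[ℂ] H)) :
    CStarAlgebra (Alg E u) := StarSubalgebra.cstarAlgebra (Alg E u)

/-- evaluation at `θ` -/
noncomputable def evG (E u : unitary (H →L[ℂ] H)) (θ : UnitAddCircle) :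
    Alg E u →⋆ₐ[ℂ] (H →L[ℂ] H) where
  toFun := fun A => (A : C(UnitAddCircle, H →L[ℂ] H)) θ
  map_one' := rfl
  map_mul' := fun _ _ => rfl
  map_zero' := rfl
  map_add' := fun _ _ => rfl
  commutes' := fun r => by
    simp [Algebra.algebraMap_eq_smul_one]
  map_star' := fun _ => rfl

theorem evG_apply (E u : unitary (H →L[ℂ] H)) (θ : UnitAddCircle)
    (A : Alg E u) : evG E u θ A = (A : C(UnitAddCircle, H →L[ℂ] H)) θ := rfl

theorem continuous_evG (E u : unitary (H →L[ℂ] H)) (A : Alg E u) :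
    Continuous (fun θ => evG E u θ A) := (A : C(UnitAddCircle, H →L[ℂ] H)).continuous

theorem integrable_evG (E u : unitary (H →L[ℂ] H)) (v w : H) (A : Alg E u) :
    Integrable (fun θ => ⟪v, evG E u θ A w⟫_ℂ) AddCircle.haarAddCircle := by
  have hc : Continuous (fun θ => ⟪v, evG E u θ A w⟫_ℂ) :=
    continuous_const.inner ((continuous_evG E u A).clm_apply continuous_const)
  exact hc.integrable_of_hasCompactSupport (HasCompactSupport.of_compactSpace _)

/-- `τ(A) = ∫ ⟨v, A(θ) v⟩ dθ` -/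
noncomputable def tauG (E u : unitary (H →L[ℂ] H)) (v : H) :
    Alg E u →L[ℂ] ℂ :=
  LinearMap.mkContinuous
    { toFun := fun A => ∫ θ, ⟪v, evG E u θ A v⟫_ℂ ∂AddCircle.haarAddCircle
      map_add' := by
        intro A B
        rw [← integral_add (integrable_evG E u v v A) (integrable_evG E u v v B)]
        refine integral_congr_ae (Eventually.of_forall (fun θ => ?_))
        simp only [map_add, _root_.add_apply, inner_add_right]
      map_smul' := by
        intro c A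
        rw [RingHom.id_apply, smul_eq_mul, ← integral_const_mul]
        refine integral_congr_ae (Eventually.of_forall (fun θ => ?_))
        have h : evG E u θ (c • A) = c • evG E u θ A := rfl
        show ⟪v, (evG E u θ (c • A)) v⟫_ℂ = c * ⟪v, (evG E u θ A) v⟫_ℂ
        rw [h, _root_.smul_apply, inner_smul_right] }
    (‖v‖ ^ 2) (by
      intro A
      have h1 : ∀ θ : UnitAddCircle, ‖⟪v, evG E u θ A v⟫_ℂ‖ ≤ ‖v‖ ^ 2 * ‖A‖ := by
        intro θ
        have h2 : ‖evG E u θ A‖ ≤ ‖A‖ := (A : C(UnitAddCircle, H →L[ℂ] H)).norm_coe_le_norm θ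
        calc ‖⟪v, evG E u θ A v⟫_ℂ‖ ≤ ‖v‖ * ‖evG E u θ A v‖ := norm_inner_le_norm _ _
          _ ≤ ‖v‖ * (‖evG E u θ A‖ * ‖v‖) := by
              gcongr
              exact (evG E u θ A).le_opNorm v
          _ ≤ ‖v‖ * (‖A‖ * ‖v‖) := by gcongr
          _ = ‖v‖ ^ 2 * ‖A‖ := by ring
      have h3 := norm_integral_le_of_norm_le_const (μ := AddCircle.haarAddCircle)
        (Eventually.of_forall h1)
      simpa using h3)

theorem tauG_apply (E u : unitary (H →L[ℂ] H)) (v : H) (A : Alg E u) :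
    tauG E u v A = ∫ θ, ⟪v, evG E u θ A v⟫_ℂ ∂AddCircle.haarAddCircle := rfl

/-- the element `θ ↦ e^{2 π i θ} T` of `Alg E u`, for `T u*` commuting with `E` -/
noncomputable def TtG (E u : unitary (H →L[ℂ] H)) (T : H →L[ℂ] H)
    (hT : T * star (u : H →L[ℂ] H) * (E : H →L[ℂ] H)
      = (E : H →L[ℂ] H) * (T * star (u : H →L[ℂ] H))) : Alg E u :=
  ⟨⟨fun θ => (fourier 1 θ : ℂ) • T, (fourier 1).continuous.smul continuous_const⟩, by
    apply Wd_subset_Alg
    refine ⟨1, T * star (u : H →L[ℂ] H), hT, fun θ => ?_⟩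
    have e2 : star (u : H →L[ℂ] H) * (u : H →L[ℂ] H) = 1 := (Unitary.mem_iff.mp u.2).1
    show (fourier 1 θ : ℂ) • T = (fourier 1 θ : ℂ) • (T * star (u : H →L[ℂ] H)
      * ((u ^ (1:ℤ) : unitary (H →L[ℂ] H)) : H →L[ℂ] H))
    rw [zpow_one, mul_assoc, e2, mul_one]⟩

theorem evG_TtG (E u : unitary (H →L[ℂ] H)) (T : H →L[ℂ] H)
    (hT : T * star (u : H →L[ℂ] H) * (E : H →L[ℂ] H)
      = (E : H →L[ℂ] H) * (T * star (u : H →L[ℂ] H))) (θ : UnitAddCircle) :
    evG E u θ (TtG E u T hT) = (fourier 1 θ : ℂ) • T := rfl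

end Gen

end Pool.Agent.H417B
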