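import Pool.Agent.H417B.Stmts

/-! G1: `tauG` is a tracial state. -/

set_option autoImplicit false
open scoped ComplexConjugate InnerProductSpace Topology
open Filter MeasureTheory NormedSpace

namespace Pool.Agent.H417B
open Pool.Agent.H712R5.BO

section G1

variable {H : Type} [NormedAddCommGroup H] [InnerProductSpace ℂ H] [CompleteSpace H]

private theorem G1_adj (E u : unitary (H →L[ℂ] H)) (A : Alg E u) (θ : UnitAddCircle) (x y : H) :
    ⟪x, evG E u θ A y⟫_ℂ = ⟪evG E u θ (star A) x, y⟫_ℂ := by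
  rw [map_star, ContinuousLinearMap.star_eq_adjoint, ContinuousLinearMap.adjoint_inner_left]

/-- the bilinear form -/
private noncomputable def G1_F (v : H) (A B : C(UnitAddCircle, H →L[ℂ] H)) : ℂ :=
  ∫ θ, ⟪v, (A θ * B θ) v⟫_ℂ ∂AddCircle.haarAddCircle

private theorem G1_int (v : H) (A B : C(UnitAddCircle, H →L[ℂ] H)) :
    Integrable (fun θ => ⟪v, (A θ * B θ) v⟫_ℂ) AddCircle.haarAddCircle := by
  have hc : Continuous (fun θ => ⟪v, (A θ * B θ) v⟫_ℂ) :=
    continuous_const.inner (((A.continuous.mul B.continuous)).clm_apply continuous_const)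
  exact hc.integrable_of_hasCompactSupport (HasCompactSupport.of_compactSpace _)

private theorem G1_add_left (v : H) (A A' B : C(UnitAddCircle, H →L[ℂ] H)) :
    G1_F v (A + A') B = G1_F v A B + G1_F v A' B := by
  unfold G1_F
  rw [← integral_add (G1_int v A B) (G1_int v A' B)]
  refine integral_congr_ae (Eventually.of_forall fun θ => ?_)
  show ⟪v, ((A θ + A' θ) * B θ) v⟫_ℂ = _
  rw [add_mul, _root_.add_apply, inner_add_right]

private theorem G1_add_right (v : H) (A A' B : C(UnitAddCircle, H →L[ℂ] H)) :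
    G1_F v B (A + A') = G1_F v B A + G1_F v B A' := by
  unfold G1_F
  rw [← integral_add (G1_int v B A) (G1_int v B A')]
  refine integral_congr_ae (Eventually.of_forall fun θ => ?_)
  show ⟪v, (B θ * (A θ + A' θ)) v⟫_ℂ = _
  rw [mul_add, _root_.add_apply, inner_add_right]

private theorem G1_smul_left (v : H) (c : ℂ) (A B : C(UnitAddCircle, H →L[ℂ] H)) :
    G1_F v (c • A) B = c * G1_F v A B := by
  unfold G1_F
  rw [← integral_const_mul]
  refine integral_congr_ae (Eventually.of_forall fun θ => ?_)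
  show ⟪v, ((c • A θ) * B θ) v⟫_ℂ = _
  rw [smul_mul_assoc, _root_.smul_apply, inner_smul_right]

private theorem G1_smul_right (v : H) (c : ℂ) (A B : C(UnitAddCircle, H →L[ℂ] H)) :
    G1_F v B (c • A) = c * G1_F v B A := by
  unfold G1_F
  rw [← integral_const_mul]
  refine integral_congr_ae (Eventually.of_forall fun θ => ?_)
  show ⟪v, (B θ * (c • A θ)) v⟫_ℂ = _
  rw [mul_smul_comm, _root_.smul_apply, inner_smul_right]

private theorem G1_bd (v : H) (A B : C(UnitAddCircle, H →L[ℂ] H)) :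
    ‖G1_F v A B‖ ≤ ‖v‖ ^ 2 * (‖A‖ * ‖B‖) := by
  have h1 : ∀ θ : UnitAddCircle, ‖⟪v, (A θ * B θ) v⟫_ℂ‖ ≤ ‖v‖ ^ 2 * (‖A‖ * ‖B‖) := by
    intro θ
    have h2 : ‖A θ‖ ≤ ‖A‖ := A.norm_coe_le_norm θ
    have h3 : ‖B θ‖ ≤ ‖B‖ := B.norm_coe_le_norm θ
    calc ‖⟪v, (A θ * B θ) v⟫_ℂ‖ ≤ ‖v‖ * ‖(A θ * B θ) v‖ := norm_inner_le_norm _ _
      _ ≤ ‖v‖ * (‖A θ * B θ‖ * ‖v‖) := by
          gcongr
          exact (A θ * B θ).le_opNorm v
      _ ≤ ‖v‖ * ((‖A θ‖ * ‖B θ‖) * ‖v‖) := by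
          gcongr
          exact norm_mul_le _ _
      _ ≤ ‖v‖ * ((‖A‖ * ‖B‖) * ‖v‖) := by gcongr
      _ = ‖v‖ ^ 2 * (‖A‖ * ‖B‖) := by ring
  have h3 := norm_integral_le_of_norm_le_const (μ := AddCircle.haarAddCircle)
    (Eventually.of_forall h1)
  simpa [G1_F] using h3

/-- the commutator functional -/
private noncomputable def G1_D (v : H) (B : C(UnitAddCircle, H →L[ℂ] H)) :
    C(UnitAddCircle, H →L[ℂ] H) →L[ℂ] ℂ :=
  LinearMap.mkContinuous
    { toFun := fun A => G1_F v A B - G1_F v B A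
      map_add' := by
        intro A A'
        rw [G1_add_left, G1_add_right]
        ring
      map_smul' := by
        intro c A
        rw [G1_smul_left, G1_smul_right, RingHom.id_apply, smul_eq_mul]
        ring }
    (2 * (‖v‖ ^ 2 * ‖B‖)) (by
      intro A
      have h1 := G1_bd v A B
      have h2 := G1_bd v B A
      calc ‖G1_F v A B - G1_F v B A‖ ≤ ‖G1_F v A B‖ + ‖G1_F v B A‖ := norm_sub_le _ _
        _ ≤ ‖v‖ ^ 2 * (‖A‖ * ‖B‖) + ‖v‖ ^ 2 * (‖B‖ * ‖A‖) := add_le_add h1 h2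
        _ = 2 * (‖v‖ ^ 2 * ‖B‖) * ‖A‖ := by ring)

private theorem G1_D_apply (v : H) (A B : C(UnitAddCircle, H →L[ℂ] H)) :
    G1_D v B A = G1_F v A B - G1_F v B A := rfl

private theorem G1_ext (E u : unitary (H →L[ℂ] H)) (D : C(UnitAddCircle, H →L[ℂ] H) →L[ℂ] ℂ)
    (hc : ∀ A ∈ Alg E u, A ∈ closure ((Submodule.span ℂ (Wd E u) :
      Submodule ℂ C(UnitAddCircle, H →L[ℂ] H)) : Set C(UnitAddCircle, H →L[ℂ] H)))
    (hD : ∀ A ∈ Wd E u, D A = 0) : ∀ A ∈ Alg E u, D A = 0 := by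
  intro A hA
  have h1 : Submodule.span ℂ (Wd E u) ≤ LinearMap.ker (D : C(UnitAddCircle, H →L[ℂ] H) →ₗ[ℂ] ℂ) :=
    Submodule.span_le.2 fun B hB => hD B hB
  have h2 : IsClosed {B : C(UnitAddCircle, H →L[ℂ] H) | D B = 0} :=
    isClosed_eq D.continuous continuous_const
  have h3 := closure_minimal (t := {B : C(UnitAddCircle, H →L[ℂ] H) | D B = 0})
    (fun B hB => h1 hB) h2
  exact h3 (hc A hA)

theorem t_G1 (h1 : P_G1c) (h2 : P_G1d) : P_G1 := by
  intro H _ _ _ b E u hd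
  have hv : ‖b 0‖ = 1 := b.orthonormal.1 0
  have hc := h1 H b E u hd
  have hw := h2 H b E u hd
  refine ⟨?_, ?_, ?_, ?_⟩
  · rw [tauG_apply]
    have h1 : ∀ θ : UnitAddCircle, ⟪b 0, evG E u θ 1 (b 0)⟫_ℂ = 1 := by
      intro θ
      rw [map_one, show (1 : H →L[ℂ] H) (b 0) = b 0 from rfl, inner_self_eq_norm_sq_to_K, hv]
      simp
    simp only [h1]
    simp
  · intro a
    rw [tauG_apply]
    have h1 : (∫ θ, ⟪b 0, evG E u θ (star a * a) (b 0)⟫_ℂ ∂AddCircle.haarAddCircle).re =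
        ∫ θ, (⟪b 0, evG E u θ (star a * a) (b 0)⟫_ℂ).re ∂AddCircle.haarAddCircle :=
      (integral_re (integrable_evG E u (b 0) (b 0) (star a * a))).symm
    rw [h1]
    apply integral_nonneg
    intro θ
    show 0 ≤ (⟪b 0, evG E u θ (star a * a) (b 0)⟫_ℂ).re
    rw [map_mul, show (evG E u θ (star a) * evG E u θ a) (b 0) =
      evG E u θ (star a) (evG E u θ a (b 0)) from rfl, G1_adj, star_star]
    exact inner_self_nonneg (𝕜 := ℂ)
  · intro a
    rw [tauG_apply, tauG_apply, ← integral_conj]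
    refine integral_congr_ae (Eventually.of_forall fun θ => ?_)
    show ⟪b 0, evG E u θ (star a) (b 0)⟫_ℂ = conj ⟪b 0, evG E u θ a (b 0)⟫_ℂ
    rw [G1_adj, star_star, inner_conj_symm]
  · intro A B
    have s1 : ∀ B ∈ Wd E u, ∀ A ∈ Alg E u, G1_D (b 0) B A = 0 := by
      intro B hB
      refine G1_ext E u _ hc fun A hA => ?_
      rw [G1_D_apply, sub_eq_zero]
      exact hw A hA B hB
    have s2 : ∀ A ∈ Alg E u, ∀ B ∈ Alg E u, G1_D (b 0) A B = 0 := by
      intro A hA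
      refine G1_ext E u _ hc fun B hB => ?_
      have := s1 B hB A hA
      rw [G1_D_apply, sub_eq_zero] at this ⊢
      exact this.symm
    have s3 := s2 B.1 B.2 A.1 A.2
    rw [G1_D_apply, sub_eq_zero] at s3
    exact s3

end G1

end Pool.Agent.H417B
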