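import Pool.Agent.H417B.Stmts

set_option autoImplicit false
open scoped ComplexConjugate InnerProductSpace Topology
open Filter MeasureTheory NormedSpace

namespace Pool.Agent.H417B
open Pool.Agent.H712R5.BO

section

variable {H : Type} [NormedAddCommGroup H] [InnerProductSpace ℂ H] [CompleteSpace H]

theorem G1a_inner (E : unitary (H →L[ℂ] H)) (x y : H) :
    ⟪(E : H →L[ℂ] H) x, (E : H →L[ℂ] H) y⟫_ℂ = ⟪x, y⟫_ℂ := by
  have e2 : star (E : H →L[ℂ] H) * (E : H →L[ℂ] H) = 1 := (Unitary.mem_iff.mp E.2).1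
  rw [← ContinuousLinearMap.adjoint_inner_right, ← ContinuousLinearMap.star_eq_adjoint,
    ← mul_apply_eq_comp, e2]
  rfl

theorem G1a_step (b : HilbertBasis ℤ ℂ H) (E : unitary (H →L[ℂ] H))
    (hE : ∀ r : ℤ, (E : H →L[ℂ] H) (b r) = b (r + 1)) (T : H →L[ℂ] H)
    (hT : T * (E : H →L[ℂ] H) = (E : H →L[ℂ] H) * T) (m r : ℤ) :
    ⟪b (m + 1), T (b (r + 1))⟫_ℂ = ⟪b m, T (b r)⟫_ℂ := by
  have h : T (b (r + 1)) = (E : H →L[ℂ] H) (T (b r)) := by
    rw [← hE r]
    exact DFunLike.congr_fun hT (b r)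
  rw [h, ← hE m, G1a_inner]

theorem G1a_shift (b : HilbertBasis ℤ ℂ H) (E : unitary (H →L[ℂ] H))
    (hE : ∀ r : ℤ, (E : H →L[ℂ] H) (b r) = b (r + 1)) (T : H →L[ℂ] H)
    (hT : T * (E : H →L[ℂ] H) = (E : H →L[ℂ] H) * T) (m r : ℤ) :
    ⟪b m, T (b r)⟫_ℂ = ⟪b (m - r), T (b 0)⟫_ℂ := by
  induction r using Int.induction_on generalizing m with
  | zero => rw [sub_zero]
  | succ i ih =>
    have h := G1a_step b E hE T hT (m - 1) i
    rw [sub_add_cancel] at h
    rw [h, ih]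
    congr 2
    ring
  | pred i ih =>
    have h := G1a_step b E hE T hT m (-(i : ℤ) - 1)
    rw [sub_add_cancel] at h
    rw [← h, ih]
    congr 2
    ring

theorem G1a_hasSum (b : HilbertBasis ℤ ℂ H) (f g : H →L[ℂ] H) (m r : ℤ) :
    HasSum (fun k : ℤ => ⟪b k, g (b r)⟫_ℂ * ⟪b m, f (b k)⟫_ℂ) ⟪b m, f (g (b r))⟫_ℂ := by
  have h1 := b.hasSum_repr (g (b r))
  have h2 := (h1.mapL f).mapL (innerSL ℂ (b m))
  simpa [HilbertBasis.repr_apply_apply, inner_smul_right] using h2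

end

theorem t_G1a : P_G1a := by
  intro H _ _ _ b E hE f g hf hg
  have key : ∀ m r : ℤ, ⟪b m, f (g (b r))⟫_ℂ = ⟪b m, g (f (b r))⟫_ℂ := by
    intro m r
    have h1 := G1a_hasSum b f g m r
    have h2 := G1a_hasSum b g f m r
    have h3 := (Equiv.subLeft (m + r)).hasSum_iff.2 h2
    refine h1.unique ?_
    convert h3 using 1
    funext k
    simp only [Function.comp, Equiv.subLeft_apply]
    rw [G1a_shift b E hE g hg k r, G1a_shift b E hE f hf m k, G1a_shift b E hE f hf (m + r - k) r,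
      G1a_shift b E hE g hg m (m + r - k)]
    have e1 : m + r - k - r = m - k := by ring
    have e2 : m - (m + r - k) = k - r := by ring
    rw [e1, e2, mul_comm]
  have h4 : ∀ r : ℤ, (f * g) (b r) = (g * f) (b r) := by
    intro r
    apply b.repr.injective
    ext m
    rw [HilbertBasis.repr_apply_apply, HilbertBasis.repr_apply_apply]
    exact key m r
  refine ContinuousLinearMap.ext_on (s := Set.range b)
    (Submodule.dense_iff_topologicalClosure_eq_top.2 b.dense_span) ?_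
  rintro _ ⟨r, rfl⟩
  exact h4 r

end Pool.Agent.H417B
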