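import Pool.Agent.H417B.Stmts

set_option autoImplicit false
open scoped ComplexConjugate InnerProductSpace Topology
open Filter MeasureTheory NormedSpace

namespace Pool.Agent.H417B
open Pool.Agent.H712R5.BO

theorem G1b_star {R : Type*} [Ring R] [StarRing R] (E : unitary R) {f : R}
    (hf : f * (E : R) = (E : R) * f) : star f * (E : R) = (E : R) * star f := by
  have e1 : star (E : R) * (E : R) = 1 := (Unitary.mem_iff.mp E.2).1
  have e2 : (E : R) * star (E : R) = 1 := (Unitary.mem_iff.mp E.2).2
  have h1 : star (E : R) * f = f * star (E : R) := by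
    calc star (E : R) * f = star (E : R) * f * ((E : R) * star (E : R)) := by rw [e2, mul_one]
      _ = star (E : R) * (f * (E : R)) * star (E : R) := by noncomm_ring
      _ = star (E : R) * ((E : R) * f) * star (E : R) := by rw [hf]
      _ = (star (E : R) * (E : R)) * f * star (E : R) := by noncomm_ring
      _ = f * star (E : R) := by rw [e1, one_mul]
  have h2 := congrArg star h1
  rw [star_mul, star_mul, star_star] at h2
  exact h2

theorem G1b_up {R : Type*} [Ring R] [StarRing R] (E u : unitary R)
    (hc : (u : R) * (E : R) * star (u : R) * (E : R) = (E : R) * ((u : R) * (E : R) * star (u : R)))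
    (hcom : ∀ f g : R, f * (E : R) = (E : R) * f → g * (E : R) = (E : R) * g → f * g = g * f)
    {f : R} (hf : f * (E : R) = (E : R) * f) :
    (u : R) * f * star (u : R) * (E : R) = (E : R) * ((u : R) * f * star (u : R)) := by
  have e1 : star (u : R) * (u : R) = 1 := (Unitary.mem_iff.mp u.2).1
  have e2 : (u : R) * star (u : R) = 1 := (Unitary.mem_iff.mp u.2).2
  have hg : (star (u : R) * (E : R) * (u : R)) * (E : R)
      = (E : R) * (star (u : R) * (E : R) * (u : R)) := by
    have h := congrArg (fun x => star (u : R) * x * (u : R)) hc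
    have l1 : star (u : R) * ((u : R) * (E : R) * star (u : R) * (E : R)) * (u : R)
        = (star (u : R) * (u : R)) * ((E : R) * (star (u : R) * (E : R) * (u : R))) := by
      noncomm_ring
    have l2 : star (u : R) * ((E : R) * ((u : R) * (E : R) * star (u : R))) * (u : R)
        = (star (u : R) * (E : R) * (u : R)) * (E : R) * (star (u : R) * (u : R)) := by
      noncomm_ring
    rw [l1, l2, e1, one_mul, mul_one] at h
    exact h.symm
  have hfg := hcom f _ hf hg
  calc (u : R) * f * star (u : R) * (E : R)
      = (u : R) * f * star (u : R) * (E : R) * ((u : R) * star (u : R)) := by rw [e2, mul_one]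
    _ = (u : R) * (f * (star (u : R) * (E : R) * (u : R))) * star (u : R) := by noncomm_ring
    _ = (u : R) * ((star (u : R) * (E : R) * (u : R)) * f) * star (u : R) := by rw [hfg]
    _ = ((u : R) * star (u : R)) * ((E : R) * ((u : R) * f * star (u : R))) := by noncomm_ring
    _ = _ := by rw [e2, one_mul]

theorem G1b_down {R : Type*} [Ring R] [StarRing R] (E u : unitary R)
    (hc : (u : R) * (E : R) * star (u : R) * (E : R) = (E : R) * ((u : R) * (E : R) * star (u : R)))
    (hcom : ∀ f g : R, f * (E : R) = (E : R) * f → g * (E : R) = (E : R) * g → f * g = g * f)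
    {f : R} (hf : f * (E : R) = (E : R) * f) :
    star (u : R) * f * (u : R) * (E : R) = (E : R) * (star (u : R) * f * (u : R)) := by
  have e1 : star (u : R) * (u : R) = 1 := (Unitary.mem_iff.mp u.2).1
  have e2 : (u : R) * star (u : R) = 1 := (Unitary.mem_iff.mp u.2).2
  have hfg := hcom f _ hf hc
  calc star (u : R) * f * (u : R) * (E : R)
      = star (u : R) * f * (u : R) * (E : R) * (star (u : R) * (u : R)) := by rw [e1, mul_one]
    _ = star (u : R) * (f * ((u : R) * (E : R) * star (u : R))) * (u : R) := by noncomm_ring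
    _ = star (u : R) * (((u : R) * (E : R) * star (u : R)) * f) * (u : R) := by rw [hfg]
    _ = (star (u : R) * (u : R)) * ((E : R) * (star (u : R) * f * (u : R))) := by noncomm_ring
    _ = _ := by rw [e1, one_mul]

theorem t_G1b (h1 : P_G1a) : P_G1b := by
  intro H _ _ _ b E u hD f hf
  have hcom := h1 H b E hD.hE
  refine ⟨G1b_star E hf, ?_⟩
  intro n
  induction n using Int.induction_on generalizing f with
  | zero => simpa using hf
  | succ n ih =>
    have h := ih _ (G1b_up E u hD.hc hcom hf)
    have hu : (((u ^ ((n : ℤ) + 1) : unitary (H →L[ℂ] H))) : H →L[ℂ] H)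
        = ((u ^ (n : ℤ) : unitary (H →L[ℂ] H)) : H →L[ℂ] H) * (u : H →L[ℂ] H) := by
      rw [zpow_add_one]; rfl
    rw [hu, star_mul]
    simp only [mul_assoc] at h ⊢
    exact h
  | pred n ih =>
    have h := ih _ (G1b_down E u hD.hc hcom hf)
    have hu : (((u ^ (-(n : ℤ) - 1) : unitary (H →L[ℂ] H))) : H →L[ℂ] H)
        = ((u ^ (-(n : ℤ)) : unitary (H →L[ℂ] H)) : H →L[ℂ] H) * star (u : H →L[ℂ] H) := by
      rw [zpow_sub_one]; rfl
    rw [hu, star_mul, star_star]
    simp only [mul_assoc] at h ⊢
    exact h

end Pool.Agent.H417B
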