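import Pool.Agent.H417B.Stmts

set_option autoImplicit false
open scoped ComplexConjugate InnerProductSpace Topology
open Filter MeasureTheory NormedSpace

namespace Pool.Agent.H417B
open Pool.Agent.H712R5.BO

section G1cAux

variable {H : Type} [NormedAddCommGroup H] [InnerProductSpace ℂ H] [CompleteSpace H]

theorem G1c_one (E u : unitary (H →L[ℂ] H)) : (1 : C(UnitAddCircle, H →L[ℂ] H)) ∈ Wd E u := by
  refine ⟨0, 1, by rw [one_mul, mul_one], fun θ => ?_⟩
  simp

theorem G1c_mul (h1 : P_G1b) (b : HilbertBasis ℤ ℂ H) (E u : unitary (H →L[ℂ] H))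
    (hD : Dat b E u) {A B : C(UnitAddCircle, H →L[ℂ] H)} (hA : A ∈ Wd E u) (hB : B ∈ Wd E u) :
    A * B ∈ Wd E u := by
  obtain ⟨n, f, hf, hA⟩ := hA
  obtain ⟨m, g, hg, hB⟩ := hB
  obtain ⟨-, h2⟩ := h1 H b E u hD g hg
  refine ⟨n + m, f * (((u ^ n : unitary (H →L[ℂ] H)) : H →L[ℂ] H) * g *
    star ((u ^ n : unitary (H →L[ℂ] H)) : H →L[ℂ] H)), ?_, fun θ => ?_⟩
  · rw [mul_assoc, h2 n, ← mul_assoc, hf, mul_assoc]
  · have e : star ((u ^ n : unitary (H →L[ℂ] H)) : H →L[ℂ] H) *
        ((u ^ n : unitary (H →L[ℂ] H)) : H →L[ℂ] H) = 1 := (Unitary.mem_iff.mp (u ^ n).2).1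
    have e2 : ((u ^ (n + m) : unitary (H →L[ℂ] H)) : H →L[ℂ] H) =
        ((u ^ n : unitary (H →L[ℂ] H)) : H →L[ℂ] H) *
          ((u ^ m : unitary (H →L[ℂ] H)) : H →L[ℂ] H) := by
      rw [zpow_add]; rfl
    rw [ContinuousMap.mul_apply, hA, hB, fourier_add, smul_mul_smul_comm, e2]
    congr 1
    generalize ((u ^ n : unitary (H →L[ℂ] H)) : H →L[ℂ] H) = U at *
    generalize ((u ^ m : unitary (H →L[ℂ] H)) : H →L[ℂ] H) = V at *
    calc f * U * (g * V) = f * (U * g) * V := by simp only [mul_assoc]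
      _ = f * (U * g) * (star U * U) * V := by rw [e, mul_one]
      _ = f * (U * g * star U) * (U * V) := by simp only [mul_assoc]

theorem G1c_star (h1 : P_G1b) (b : HilbertBasis ℤ ℂ H) (E u : unitary (H →L[ℂ] H))
    (hD : Dat b E u) {A : C(UnitAddCircle, H →L[ℂ] H)} (hA : A ∈ Wd E u) :
    star A ∈ Wd E u := by
  obtain ⟨n, f, hf, hA⟩ := hA
  obtain ⟨h2, -⟩ := h1 H b E u hD f hf
  obtain ⟨-, h3⟩ := h1 H b E u hD (star f) h2
  have e2 : ((u ^ (-n) : unitary (H →L[ℂ] H)) : H →L[ℂ] H) =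
      star ((u ^ n : unitary (H →L[ℂ] H)) : H →L[ℂ] H) := by
    rw [zpow_neg]; rfl
  refine ⟨-n, ((u ^ (-n) : unitary (H →L[ℂ] H)) : H →L[ℂ] H) * star f *
    star ((u ^ (-n) : unitary (H →L[ℂ] H)) : H →L[ℂ] H), h3 (-n), fun θ => ?_⟩
  have e : ((u ^ n : unitary (H →L[ℂ] H)) : H →L[ℂ] H) *
        star ((u ^ n : unitary (H →L[ℂ] H)) : H →L[ℂ] H) = 1 := (Unitary.mem_iff.mp (u ^ n).2).2
  rw [ContinuousMap.star_apply, hA, star_smul, star_mul, e2, star_star]
  have e3 : star (fourier n θ : ℂ) = fourier (-n) θ := by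
    rw [fourier_neg]; rfl
  rw [e3]
  congr 1
  rw [mul_assoc, e, mul_one]

end G1cAux

theorem t_G1c (h1 : P_G1b) : P_G1c := by
  intro H _ _ _ b E u hD A hA
  have hmul : ∀ x ∈ (Submodule.span ℂ (Wd E u) : Submodule ℂ C(UnitAddCircle, H →L[ℂ] H)),
      ∀ y ∈ (Submodule.span ℂ (Wd E u) : Submodule ℂ C(UnitAddCircle, H →L[ℂ] H)),
      x * y ∈ (Submodule.span ℂ (Wd E u) : Submodule ℂ C(UnitAddCircle, H →L[ℂ] H)) := by
    intro x hx y hy
    induction hx using Submodule.span_induction with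
    | mem x hx =>
      induction hy using Submodule.span_induction with
      | mem y hy => exact Submodule.subset_span (G1c_mul h1 b E u hD hx hy)
      | zero => rw [mul_zero]; exact Submodule.zero_mem _
      | add y z _ _ hy hz => rw [mul_add]; exact Submodule.add_mem _ hy hz
      | smul c y _ hy => rw [mul_smul_comm]; exact Submodule.smul_mem _ _ hy
    | zero => rw [zero_mul]; exact Submodule.zero_mem _
    | add x z _ _ hx hz => rw [add_mul]; exact Submodule.add_mem _ hx hz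
    | smul c x _ hx => rw [smul_mul_assoc]; exact Submodule.smul_mem _ _ hx
  have hstar : ∀ x ∈ (Submodule.span ℂ (Wd E u) : Submodule ℂ C(UnitAddCircle, H →L[ℂ] H)),
      star x ∈ (Submodule.span ℂ (Wd E u) : Submodule ℂ C(UnitAddCircle, H →L[ℂ] H)) := by
    intro x hx
    induction hx using Submodule.span_induction with
    | mem x hx => exact Submodule.subset_span (G1c_star h1 b E u hD hx)
    | zero => rw [star_zero]; exact Submodule.zero_mem _
    | add x z _ _ hx hz => rw [star_add]; exact Submodule.add_mem _ hx hz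
    | smul c x _ hx => rw [star_smul]; exact Submodule.smul_mem _ _ hx
  have key : ∀ B ∈ StarAlgebra.adjoin ℂ (Wd E u),
      B ∈ (Submodule.span ℂ (Wd E u) : Submodule ℂ C(UnitAddCircle, H →L[ℂ] H)) := by
    intro B hB
    induction hB using StarAlgebra.adjoin_induction with
    | mem x hx => exact Submodule.subset_span hx
    | algebraMap r =>
      rw [Algebra.algebraMap_eq_smul_one]
      exact Submodule.smul_mem _ _ (Submodule.subset_span (G1c_one E u))
    | add x y _ _ hx hy => exact Submodule.add_mem _ hx hy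
    | mul x y _ _ hx hy => exact hmul x hx y hy
    | star x _ hx => exact hstar x hx
  have hA' : A ∈ closure ((StarAlgebra.adjoin ℂ (Wd E u) :
      StarSubalgebra ℂ C(UnitAddCircle, H →L[ℂ] H)) : Set C(UnitAddCircle, H →L[ℂ] H)) := by
    rw [← StarSubalgebra.topologicalClosure_coe]
    exact hA
  exact closure_mono (fun B hB => key B hB) hA'

end Pool.Agent.H417B
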