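import Pool.Agent.H417B.Stmts

set_option autoImplicit false
open scoped ComplexConjugate InnerProductSpace Topology
open Filter MeasureTheory NormedSpace

namespace Pool.Agent.H417B
open Pool.Agent.H712R5.BO

theorem g1d_fix {H : Type} [NormedAddCommGroup H] [InnerProductSpace ℂ H] [CompleteSpace H]
    (u : unitary (H →L[ℂ] H)) (v : H) (h : (u : H →L[ℂ] H) v = v) (n : ℤ) :
    ((u ^ n : unitary (H →L[ℂ] H)) : H →L[ℂ] H) v = v := by
  let S : Subgroup (unitary (H →L[ℂ] H)) :=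
    { carrier := {w | (w : H →L[ℂ] H) v = v}
      mul_mem' := by
        intro a b ha hb
        show (a : H →L[ℂ] H) ((b : H →L[ℂ] H) v) = v
        rw [show (b : H →L[ℂ] H) v = v from hb]
        exact ha
      one_mem' := rfl
      inv_mem' := by
        intro a ha
        have e : ((a⁻¹ : unitary (H →L[ℂ] H)) : H →L[ℂ] H) * (a : H →L[ℂ] H) = 1 :=
          congrArg Subtype.val (inv_mul_cancel a)
        have e2 : ((a⁻¹ : unitary (H →L[ℂ] H)) : H →L[ℂ] H) ((a : H →L[ℂ] H) v) = v :=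
          congrArg (fun T : H →L[ℂ] H => T v) e
        rw [show (a : H →L[ℂ] H) v = v from ha] at e2
        exact e2 }
  exact S.zpow_mem (show u ∈ S from h) n

theorem g1d_key (h1 : P_G1a) (h2 : P_G1b) {H : Type} [NormedAddCommGroup H]
    [InnerProductSpace ℂ H] [CompleteSpace H]
    (b : HilbertBasis ℤ ℂ H) (E u : unitary (H →L[ℂ] H)) (hD : Dat b E u) (n m : ℤ)
    (hnm : n + m = 0) (f g : H →L[ℂ] H)
    (hf : f * (E : H →L[ℂ] H) = (E : H →L[ℂ] H) * f)
    (hg : g * (E : H →L[ℂ] H) = (E : H →L[ℂ] H) * g) :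
    ⟪b 0, ((f * ((u ^ n : unitary (H →L[ℂ] H)) : H →L[ℂ] H)) *
      (g * ((u ^ m : unitary (H →L[ℂ] H)) : H →L[ℂ] H))) (b 0)⟫_ℂ =
    ⟪b 0, ((g * ((u ^ m : unitary (H →L[ℂ] H)) : H →L[ℂ] H)) *
      (f * ((u ^ n : unitary (H →L[ℂ] H)) : H →L[ℂ] H))) (b 0)⟫_ℂ := by
  have hm : m = -n := by omega
  subst hm
  set p : H →L[ℂ] H := ((u ^ n : unitary (H →L[ℂ] H)) : H →L[ℂ] H) with hp
  have hq : ((u ^ (-n) : unitary (H →L[ℂ] H)) : H →L[ℂ] H) = star p := by
    rw [zpow_neg]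
    rfl
  rw [hq]
  have hqp : star p * p = 1 := (Unitary.mem_iff.mp (u ^ n).2).1
  have hpq : p * star p = 1 := (Unitary.mem_iff.mp (u ^ n).2).2
  have hpb : p (b 0) = b 0 := g1d_fix u (b 0) hD.hu n
  have hg' := (h2 H b E u hD g hg).2 n
  rw [← hp] at hg'
  have hcomm := h1 H b E hD.hE f (p * g * star p) hf hg'
  have e1 : (f * p) * (g * star p) = (p * g * star p) * f := by
    rw [← hcomm]
    simp only [mul_assoc]
  have e2 : (g * star p) * (f * p) = star p * ((p * g * star p) * f * p) := by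
    have : star p * ((p * g * star p) * f * p) = (star p * p) * ((g * star p) * (f * p)) := by
      simp only [mul_assoc]
    rw [this, hqp, one_mul]
  rw [e1, e2]
  show ⟪b 0, ((p * g * star p) * f) (b 0)⟫_ℂ =
    ⟪b 0, (star p) (((p * g * star p) * f) (p (b 0)))⟫_ℂ
  rw [ContinuousLinearMap.star_eq_adjoint, ContinuousLinearMap.adjoint_inner_right, hpb]

theorem t_G1d (h1 : P_G1a) (h2 : P_G1b) : P_G1d := by
  intro H _ _ _ b E u hD A hA B hB
  obtain ⟨n, f, hf, hAf⟩ := hA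
  obtain ⟨m, g, hg, hBg⟩ := hB
  have e1 : ∀ θ, ⟪b 0, (A θ * B θ) (b 0)⟫_ℂ = (fourier (n + m) θ : ℂ) *
      ⟪b 0, ((f * ((u ^ n : unitary (H →L[ℂ] H)) : H →L[ℂ] H)) *
        (g * ((u ^ m : unitary (H →L[ℂ] H)) : H →L[ℂ] H))) (b 0)⟫_ℂ := by
    intro θ
    rw [hAf, hBg, smul_mul_smul_comm, ← fourier_add, ← inner_smul_right]
    rfl
  have e2 : ∀ θ, ⟪b 0, (B θ * A θ) (b 0)⟫_ℂ = (fourier (n + m) θ : ℂ) *
      ⟪b 0, ((g * ((u ^ m : unitary (H →L[ℂ] H)) : H →L[ℂ] H)) *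
        (f * ((u ^ n : unitary (H →L[ℂ] H)) : H →L[ℂ] H))) (b 0)⟫_ℂ := by
    intro θ
    rw [hAf, hBg, smul_mul_smul_comm, ← fourier_add, add_comm m n, ← inner_smul_right]
    rfl
  rw [integral_congr_ae (Eventually.of_forall e1), integral_congr_ae (Eventually.of_forall e2),
    integral_mul_const, integral_mul_const]
  by_cases hnm : n + m = 0
  · rw [g1d_key h1 h2 b E u hD n m hnm f g hf hg]
  · have h0 : ∫ θ : UnitAddCircle, (fourier (n + m) θ : ℂ) ∂AddCircle.haarAddCircle = 0 :=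
      integral_eq_zero_of_add_right_eq_neg (μ := AddCircle.haarAddCircle)
        (fourier_add_half_inv_index hnm one_pos)
    rw [h0, zero_mul, zero_mul]

end Pool.Agent.H417B
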