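import Pool.Agent.H417B.Stmts

/-! Task G3 (helper196): rotation invariance. Adapted from `Pool.Agent.H712R5.BO.C3`. -/

set_option autoImplicit false
open scoped ComplexConjugate InnerProductSpace Topology
open Filter MeasureTheory NormedSpace

namespace Pool.Agent.H417B
open Pool.Agent.H712R5.BO

section G3

variable {H : Type} [NormedAddCommGroup H] [InnerProductSpace ℂ H] [CompleteSpace H]

/-- rotation of the circle -/
noncomputable def G3_R (s : UnitAddCircle) :
    C(UnitAddCircle, H →L[ℂ] H) →⋆ₐ[ℂ] C(UnitAddCircle, H →L[ℂ] H) where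
  toFun := fun A => ⟨fun θ => A (θ + s), A.continuous.comp (continuous_add_const s)⟩
  map_one' := rfl
  map_mul' := fun _ _ => rfl
  map_zero' := rfl
  map_add' := fun _ _ => rfl
  commutes' := fun _ => rfl
  map_star' := fun _ => rfl

theorem G3_R_apply (s θ : UnitAddCircle) (A : C(UnitAddCircle, H →L[ℂ] H)) :
    G3_R s A θ = A (θ + s) := rfl

theorem G3_R_norm (s : UnitAddCircle) (A : C(UnitAddCircle, H →L[ℂ] H)) :
    ‖G3_R s A‖ ≤ ‖A‖ := by
  rw [ContinuousMap.norm_le _ (norm_nonneg _)]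
  intro θ
  exact A.norm_coe_le_norm (θ + s)

theorem G3_R_cont (s : UnitAddCircle) :
    Continuous (G3_R s : C(UnitAddCircle, H →L[ℂ] H) →⋆ₐ[ℂ] C(UnitAddCircle, H →L[ℂ] H)) :=
  AddMonoidHomClass.continuous_of_bound (G3_R s) 1 fun A => by
    rw [one_mul]
    exact G3_R_norm s A

theorem G3_fourier (n : ℤ) (θ s : UnitAddCircle) :
    (fourier n (θ + s) : ℂ) = fourier n s * fourier n θ := by
  simp only [fourier_apply, smul_add, AddCircle.toCircle_add, Circle.coe_mul]
  ring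

theorem G3_word (E u : unitary (H →L[ℂ] H)) (s : UnitAddCircle)
    {A : C(UnitAddCircle, H →L[ℂ] H)} (hA : A ∈ Wd E u) : G3_R s A ∈ Wd E u := by
  obtain ⟨n, f, hf, h⟩ := hA
  refine ⟨n, (fourier n s : ℂ) • f, ?_, ?_⟩
  · rw [smul_mul_assoc, hf, mul_smul_comm]
  · intro θ
    rw [G3_R_apply, h, G3_fourier, smul_mul_assoc, smul_smul, mul_comm]

theorem G3_mem (E u : unitary (H →L[ℂ] H)) (s : UnitAddCircle)
    {A : C(UnitAddCircle, H →L[ℂ] H)} (hA : A ∈ Alg E u) : G3_R s A ∈ Alg E u := by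
  have h1 : StarAlgebra.adjoin ℂ (Wd E u) ≤ (Alg E u).comap (G3_R s) := by
    rw [StarAlgebra.adjoin_le_iff]
    intro B hB
    exact Wd_subset_Alg E u (G3_word E u s hB)
  have h2 : IsClosed (((Alg E u).comap (G3_R s) :
      StarSubalgebra ℂ C(UnitAddCircle, H →L[ℂ] H)) : Set C(UnitAddCircle, H →L[ℂ] H)) :=
    (isClosed_Alg E u).preimage (G3_R_cont s)
  exact StarSubalgebra.topologicalClosure_minimal h1 h2 hA

/-- rotation of the circle on `Alg` -/
noncomputable def G3_rho (E u : unitary (H →L[ℂ] H)) (s : UnitAddCircle) :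
    Alg E u →⋆ₐ[ℂ] Alg E u where
  toFun := fun A => ⟨G3_R s A, G3_mem E u s A.2⟩
  map_one' := rfl
  map_mul' := fun _ _ => rfl
  map_zero' := rfl
  map_add' := fun _ _ => rfl
  commutes' := fun _ => rfl
  map_star' := fun _ => rfl

theorem G3_ev (E u : unitary (H →L[ℂ] H)) (s θ : UnitAddCircle) (A : Alg E u) :
    evG E u θ (G3_rho E u s A) = evG E u (θ + s) A := rfl

theorem G3_cont (E u : unitary (H →L[ℂ] H)) (s : UnitAddCircle) :
    Continuous (G3_rho E u s) := by
  refine AddMonoidHomClass.continuous_of_bound (G3_rho E u s) 1 fun A => ?_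
  rw [one_mul]
  exact G3_R_norm s (A : C(UnitAddCircle, H →L[ℂ] H))

theorem G3_tau (E u : unitary (H →L[ℂ] H)) (s : UnitAddCircle) (v : H) (A : Alg E u) :
    tauG E u v (G3_rho E u s A) = tauG E u v A := by
  rw [tauG_apply, tauG_apply]
  simp only [G3_ev]
  exact integral_add_right_eq_self (μ := AddCircle.haarAddCircle)
    (fun θ => ⟪v, evG E u θ A v⟫_ℂ) s

theorem G3_n2 (E u : unitary (H →L[ℂ] H)) (s : UnitAddCircle) (v : H) (A : Alg E u) :
    n2 (tauG E u v) (G3_rho E u s A) = n2 (tauG E u v) A := by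
  unfold n2
  rw [← map_star, ← map_mul, G3_tau]

theorem G3_Tt (E u : unitary (H →L[ℂ] H)) (s : UnitAddCircle) (T : H →L[ℂ] H)
    (hT : T * star (u : H →L[ℂ] H) * (E : H →L[ℂ] H)
      = (E : H →L[ℂ] H) * (T * star (u : H →L[ℂ] H))) :
    G3_rho E u s (TtG E u T hT) = (fourier 1 s : ℂ) • TtG E u T hT := by
  apply Subtype.ext
  apply ContinuousMap.ext
  intro θ
  show (fourier 1 (θ + s) : ℂ) • T = (fourier 1 s : ℂ) • ((fourier 1 θ : ℂ) • T)
  rw [smul_smul, G3_fourier]

theorem G3_rt (M j : ℕ) :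
    (fourier 1 (((j : ℝ) / (M : ℝ) : ℝ) : UnitAddCircle) : ℂ) = rt M j := by
  rw [fourier_coe_apply]
  unfold rt
  congr 1
  push_cast
  ring

theorem G3_log (E u : unitary (H →L[ℂ] H)) (s : UnitAddCircle) (S : Alg E u) (hS : IsUnit S) :
    G3_rho E u s (Lg S) = Lg (G3_rho E u s S) := by
  unfold Lg CFC.log
  rw [← map_star, ← map_mul]
  have hu : IsUnit (star S * S) := hS.star.mul hS
  have hsa : IsSelfAdjoint (star S * S) := IsSelfAdjoint.star_mul_self S
  refine StarAlgHomClass.map_cfc (S := ℂ) (G3_rho E u s) Real.log (star S * S) ?_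
    (G3_cont E u s) hsa (hsa.map _)
  refine Real.continuousOn_log.mono ?_
  intro x hx h0
  rw [Set.mem_singleton_iff] at h0
  subst h0
  exact spectrum.zero_notMem ℝ hu hx

/-- G3: rotation invariance of `NN (exp(k z T))` -/
theorem t_G3 (_h1 : P_G2) (_h2 : P_G4) (_h3 : P_B4v) : P_G3 := by
  intro H _ _ _ E u v T hT k M j
  letI : NormedAlgebra ℚ (Alg E u) := NormedAlgebra.restrictScalars ℚ ℂ (Alg E u)
  have h1 : ex (k * rt M j) (TtG E u T hT) =
      G3_rho E u (((j : ℝ) / (M : ℝ) : ℝ) : UnitAddCircle) (ex (k : ℂ) (TtG E u T hT)) := by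
    unfold ex
    rw [map_exp (G3_rho E u (((j : ℝ) / (M : ℝ) : ℝ) : UnitAddCircle)) (G3_cont E u _), map_smul,
      G3_Tt, G3_rt, smul_smul]
  unfold NN
  rw [h1, ← G3_log E u _ _ (by unfold ex; exact isUnit_exp _), G3_n2]

end G3

end Pool.Agent.H417B
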