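import Pool.Agent.H417B.Stmts

set_option autoImplicit false
open scoped ComplexConjugate InnerProductSpace Topology
open Filter MeasureTheory NormedSpace

namespace Pool.Agent.H417B
open Pool.Agent.H712R5.BO

theorem G6_aux : ∫ θ : UnitAddCircle, (fourier 1 θ : ℂ) ∂AddCircle.haarAddCircle = 0 := by
  have h := orthonormal_fourier (T := (1:ℝ))
  have h1 := (orthonormal_iff_ite.mp h) 0 1
  simp only [zero_ne_one, if_false] at h1
  rw [ContinuousMap.inner_toLp] at h1
  simp only [fourier_zero, map_one, one_mul, mul_one] at h1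
  exact h1

theorem t_G6 : P_G6 := by
  intro H _ _ _ E u v T hT
  rw [tauG_apply]
  simp only [evG_TtG]
  have : ∀ θ : UnitAddCircle, ⟪v, ((fourier 1 θ : ℂ) • T) v⟫_ℂ = (fourier 1 θ : ℂ) * ⟪v, T v⟫_ℂ := by
    intro θ
    rw [_root_.smul_apply, inner_smul_right]
  simp only [this]
  rw [integral_mul_const, G6_aux, zero_mul]

end Pool.Agent.H417B
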