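import Pool.Agent.H417B.Stmts

set_option autoImplicit false
open scoped ComplexConjugate InnerProductSpace Topology
open Filter MeasureTheory NormedSpace

namespace Pool.Agent.H417B
open Pool.Agent.H712R5.BO

/-- the norm in `L²` -/
theorem G7_norm {H : Type} [NormedAddCommGroup H] [InnerProductSpace ℂ H]
    (F : Lp H 2 (AddCircle.haarAddCircle : Measure UnitAddCircle)) :
    ‖F‖ ^ 2 = ∫ θ, ‖F θ‖ ^ 2 ∂AddCircle.haarAddCircle := by
  have h1 : ⟪F, F⟫_ℂ = ∫ θ, ⟪F θ, F θ⟫_ℂ ∂AddCircle.haarAddCircle := L2.inner_def F F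
  have h2 : ∀ θ, ⟪F θ, F θ⟫_ℂ = ((‖F θ‖ ^ 2 : ℝ) : ℂ) := fun θ => by
    rw [inner_self_eq_norm_sq_to_K]
    push_cast
    rfl
  rw [inner_self_eq_norm_sq_to_K] at h1
  simp_rw [h2] at h1
  have h3 : ∫ θ : UnitAddCircle, ((‖F θ‖ ^ 2 : ℝ) : ℂ) ∂AddCircle.haarAddCircle =
      ((∫ θ : UnitAddCircle, ‖F θ‖ ^ 2 ∂AddCircle.haarAddCircle : ℝ) : ℂ) := integral_ofReal
  rw [h3] at h1
  apply Complex.ofReal_injective
  rw [← h1]
  push_cast
  rfl

theorem G7_diff {H : Type} [NormedAddCommGroup H] [InnerProductSpace ℂ H]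
    (F G : Lp H 2 (AddCircle.haarAddCircle : Measure UnitAddCircle)) (f g : UnitAddCircle → H)
    (hf : F =ᵐ[AddCircle.haarAddCircle] f) (hg : G =ᵐ[AddCircle.haarAddCircle] g) :
    ‖F - G‖ ^ 2 = ∫ θ, ‖f θ - g θ‖ ^ 2 ∂AddCircle.haarAddCircle := by
  rw [G7_norm]
  refine integral_congr_ae ?_
  filter_upwards [Lp.coeFn_sub F G, hf, hg] with θ h1 h2 h3
  rw [h1, Pi.sub_apply, h2, h3]

/-- summable square norms force almost everywhere convergence -/
theorem G7_ae {H : Type} [NormedAddCommGroup H] [InnerProductSpace ℂ H]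
    (z : ℕ → UnitAddCircle → H) (hz : ∀ i, MemLp (z i) 2 (AddCircle.haarAddCircle :
      Measure UnitAddCircle))
    (h : ∀ i, ∫ θ, ‖z i θ‖ ^ 2 ∂(AddCircle.haarAddCircle : Measure UnitAddCircle) ≤ (1 / 4 : ℝ) ^ i) :
    ∀ᵐ θ ∂(AddCircle.haarAddCircle : Measure UnitAddCircle),
      Tendsto (fun i => z i θ) atTop (𝓝 0) := by
  have hint : ∀ i, Integrable (fun θ => ‖z i θ‖ ^ 2)
      (AddCircle.haarAddCircle : Measure UnitAddCircle) := fun i => (hz i).integrable_norm_pow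
        (by norm_num)
  have hl : ∀ i, ∫⁻ θ, ENNReal.ofReal (‖z i θ‖ ^ 2)
      ∂(AddCircle.haarAddCircle : Measure UnitAddCircle) ≤ ENNReal.ofReal ((1 / 4 : ℝ) ^ i) := by
    intro i
    rw [← ofReal_integral_eq_lintegral_ofReal (hint i)
      (Eventually.of_forall fun θ => by positivity)]
    exact ENNReal.ofReal_le_ofReal (h i)
  have hsum : ∫⁻ θ, ∑' i, ENNReal.ofReal (‖z i θ‖ ^ 2)
      ∂(AddCircle.haarAddCircle : Measure UnitAddCircle) ≠ ⊤ := by
    rw [lintegral_tsum fun i => (hint i).aestronglyMeasurable.aemeasurable.ennreal_ofReal]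
    refine ne_top_of_le_ne_top ?_ (ENNReal.tsum_le_tsum hl)
    rw [← ENNReal.ofReal_tsum_of_nonneg (fun i => by positivity)
      (summable_geometric_of_lt_one (by norm_num) (by norm_num))]
    exact ENNReal.ofReal_ne_top
  have hae := ae_lt_top' (AEMeasurable.tsum
    fun i => (hint i).aestronglyMeasurable.aemeasurable.ennreal_ofReal) hsum
  filter_upwards [hae] with θ hθ
  have h1 := ENNReal.tendsto_atTop_zero_of_tsum_ne_top hθ.ne
  have h2 : Tendsto (fun i => ‖z i θ‖ ^ 2) atTop (𝓝 0) := by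
    have h3 := (ENNReal.tendsto_toReal ENNReal.zero_ne_top).comp h1
    rw [ENNReal.toReal_zero] at h3
    refine h3.congr fun i => ?_
    exact ENNReal.toReal_ofReal (by positivity)
  rw [tendsto_zero_iff_norm_tendsto_zero]
  have h4 := h2.sqrt
  rw [Real.sqrt_zero] at h4
  refine h4.congr fun i => ?_
  exact Real.sqrt_sq (norm_nonneg _)

theorem t_G7 : P_G7 := by
  intro H _ _ _ y hy hC
  have hmem : ∀ k r, MemLp (y k r) 2 (AddCircle.haarAddCircle : Measure UnitAddCircle) := by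
    intro k r
    obtain ⟨C, hCb⟩ := (isCompact_univ (X := UnitAddCircle)).exists_bound_of_continuousOn
      (hy k r).continuousOn
    exact MemLp.of_bound (hy k r).aestronglyMeasurable C
      (Eventually.of_forall fun θ => hCb θ (Set.mem_univ _))
  obtain ⟨f, hf⟩ : ∃ f : ℕ → ℤ → Lp H 2 (AddCircle.haarAddCircle : Measure UnitAddCircle),
    f = fun k r => (hmem k r).toLp (y k r) := ⟨_, rfl⟩
  have hfe : ∀ k r, f k r =ᵐ[AddCircle.haarAddCircle] y k r := fun k r => by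
    rw [hf]
    exact (hmem k r).coeFn_toLp
  have hC' : ∀ ε > (0:ℝ), ∃ K : ℕ, ∀ k ≥ K, ∀ m ≥ K, ∀ r : ℤ, ‖f k r - f m r‖ ^ 2 < ε := by
    intro ε hε
    obtain ⟨K, hK⟩ := hC ε hε
    refine ⟨K, fun k hk m hm r => ?_⟩
    rw [G7_diff (f k r) (f m r) (y k r) (y m r) (hfe k r) (hfe m r)]
    exact hK k hk m hm r
  have hcau : ∀ r, CauchySeq (fun k => f k r) := by
    intro r
    rw [Metric.cauchySeq_iff]
    intro ε hε
    obtain ⟨K, hK⟩ := hC' (ε ^ 2) (by positivity)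
    refine ⟨K, fun k hk m hm => ?_⟩
    rw [dist_eq_norm]
    exact lt_of_pow_lt_pow_left₀ 2 hε.le (hK k hk m hm r)
  choose F hF using fun r => cauchySeq_tendsto_of_complete (hcau r)
  have hlim : ∀ ε > (0:ℝ), ∃ K : ℕ, ∀ k ≥ K, ∀ r : ℤ, ‖f k r - F r‖ ^ 2 ≤ ε := by
    intro ε hε
    obtain ⟨K, hK⟩ := hC' ε hε
    refine ⟨K, fun k hk r => ?_⟩
    have h1 : Tendsto (fun m => ‖f k r - f m r‖ ^ 2) atTop (𝓝 (‖f k r - F r‖ ^ 2)) :=
      ((tendsto_const_nhds.sub (hF r)).norm).pow 2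
    refine le_of_tendsto h1 ?_
    filter_upwards [eventually_ge_atTop K] with m hm
    exact (hK k hk m hm r).le
  choose K hK using fun n : ℕ => hlim ((1 / 4 : ℝ) ^ n) (by positivity)
  obtain ⟨φ, hφ⟩ : ∃ φ : ℕ → ℕ, φ = fun n => n + ∑ i ∈ Finset.range (n + 1), K i := ⟨_, rfl⟩
  have hφm : StrictMono φ := by
    refine strictMono_nat_of_lt_succ fun n => ?_
    rw [hφ]
    show n + ∑ i ∈ Finset.range (n + 1), K i < n + 1 + ∑ i ∈ Finset.range (n + 1 + 1), K i
    rw [Finset.sum_range_succ K (n + 1)]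
    omega
  have hφK : ∀ n, K n ≤ φ n := by
    intro n
    rw [hφ]
    show K n ≤ n + ∑ i ∈ Finset.range (n + 1), K i
    rw [Finset.sum_range_succ]
    omega
  have hb : ∀ n r, ‖f (φ n) r - F r‖ ^ 2 ≤ (1 / 4 : ℝ) ^ n := fun n r => hK n _ (hφK n) r
  have hb' : ∀ n r, ∫ θ, ‖y (φ n) r θ - F r θ‖ ^ 2 ∂AddCircle.haarAddCircle ≤ (1 / 4 : ℝ) ^ n := by
    intro n r
    rw [← G7_diff (f (φ n) r) (F r) (y (φ n) r) (F r) (hfe (φ n) r)
      (Eventually.of_forall fun _ => rfl)]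
    exact hb n r
  refine ⟨φ, fun r => F r, hφm, fun r => Lp.memLp (F r), ?_, ?_⟩
  · rw [ae_all_iff]
    intro r
    have h1 := G7_ae (fun i θ => y (φ i) r θ - F r θ)
      (fun i => (hmem (φ i) r).sub (Lp.memLp (F r))) (fun i => hb' i r)
    filter_upwards [h1] with θ hθ
    have h2 := hθ.add_const (F r θ)
    rw [zero_add] at h2
    refine h2.congr fun i => ?_
    exact sub_add_cancel _ _
  · intro r
    refine squeeze_zero (fun i => integral_nonneg fun θ => by positivity) (fun i => hb' i r) ?_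
    exact tendsto_pow_atTop_nhds_zero_of_lt_one (by norm_num) (by norm_num)

end Pool.Agent.H417B
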