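import Pool.Agent.H417B.Stmts

/-!
# G9: the limit is not scalar for almost every `θ`
-/

set_option autoImplicit false
open scoped ComplexConjugate InnerProductSpace Topology
open Filter MeasureTheory NormedSpace

namespace Pool.Agent.H417B
open Pool.Agent.H712R5.BO

theorem G9_zpow_fix {H : Type} [NormedAddCommGroup H] [InnerProductSpace ℂ H] [CompleteSpace H]
    (u : unitary (H →L[ℂ] H)) (x : H) (hu : (u : H →L[ℂ] H) x = x) (n : ℤ) :
    ((u ^ n : unitary (H →L[ℂ] H)) : H →L[ℂ] H) x = x := by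
  have hinv : ((u⁻¹ : unitary (H →L[ℂ] H)) : H →L[ℂ] H) x = x := by
    have h : ((u⁻¹ * u : unitary (H →L[ℂ] H)) : H →L[ℂ] H) x = x := by
      rw [inv_mul_cancel]
      rfl
    have h' : ((u⁻¹ * u : unitary (H →L[ℂ] H)) : H →L[ℂ] H) x =
        ((u⁻¹ : unitary (H →L[ℂ] H)) : H →L[ℂ] H) ((u : H →L[ℂ] H) x) := rfl
    rw [h', hu] at h
    exact h
  induction n using Int.induction_on with
  | zero =>
    rw [zpow_zero]
    rfl
  | succ n ih =>
    have h' : ((u ^ ((n : ℤ) + 1) : unitary (H →L[ℂ] H)) : H →L[ℂ] H) x =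
        ((u ^ (n : ℤ) : unitary (H →L[ℂ] H)) : H →L[ℂ] H) ((u : H →L[ℂ] H) x) := by
      rw [zpow_add_one]
      rfl
    rw [h', hu, ih]
  | pred n ih =>
    have h' : ((u ^ (-(n : ℤ) - 1) : unitary (H →L[ℂ] H)) : H →L[ℂ] H) x =
        ((u ^ (-(n : ℤ)) : unitary (H →L[ℂ] H)) : H →L[ℂ] H)
          (((u⁻¹ : unitary (H →L[ℂ] H)) : H →L[ℂ] H) x) := by
      rw [zpow_sub_one]
      rfl
    rw [h', hinv, ih]

theorem G9_zpow_shift {H : Type} [NormedAddCommGroup H] [InnerProductSpace ℂ H] [CompleteSpace H]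
    (b : ℤ → H) (E : unitary (H →L[ℂ] H)) (hE : ∀ r : ℤ, (E : H →L[ℂ] H) (b r) = b (r + 1))
    (r s : ℤ) :
    ((E ^ r : unitary (H →L[ℂ] H)) : H →L[ℂ] H) (b s) = b (s + r) := by
  have hinv : ∀ s, ((E⁻¹ : unitary (H →L[ℂ] H)) : H →L[ℂ] H) (b s) = b (s - 1) := by
    intro s
    have h : ((E⁻¹ * E : unitary (H →L[ℂ] H)) : H →L[ℂ] H) (b (s - 1)) = b (s - 1) := by
      rw [inv_mul_cancel]
      rfl
    have h' : ((E⁻¹ * E : unitary (H →L[ℂ] H)) : H →L[ℂ] H) (b (s - 1)) =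
        ((E⁻¹ : unitary (H →L[ℂ] H)) : H →L[ℂ] H) ((E : H →L[ℂ] H) (b (s - 1))) := rfl
    rw [h', hE, sub_add_cancel] at h
    exact h
  induction r using Int.induction_on generalizing s with
  | zero =>
    rw [zpow_zero, add_zero]
    rfl
  | succ n ih =>
    have h' : ((E ^ ((n : ℤ) + 1) : unitary (H →L[ℂ] H)) : H →L[ℂ] H) (b s) =
        ((E ^ (n : ℤ) : unitary (H →L[ℂ] H)) : H →L[ℂ] H) ((E : H →L[ℂ] H) (b s)) := by
      rw [zpow_add_one]
      rfl
    rw [h', hE, ih]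
    congr 1
    ring
  | pred n ih =>
    have h' : ((E ^ (-(n : ℤ) - 1) : unitary (H →L[ℂ] H)) : H →L[ℂ] H) (b s) =
        ((E ^ (-(n : ℤ)) : unitary (H →L[ℂ] H)) : H →L[ℂ] H)
          (((E⁻¹ : unitary (H →L[ℂ] H)) : H →L[ℂ] H) (b s)) := by
      rw [zpow_sub_one]
      rfl
    rw [h', hinv, ih]
    congr 1
    ring

theorem t_G9 (h1 : P_G9a) (h2 : P_G9b) (h3 : P_G9c) : P_G9 := by
  intro H _ _ _ b E u hD hun A y' hy' hlim hre hsa hlow hsc
  obtain ⟨cl, hcl, hlow⟩ := hlow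
  have hn1 : ‖b 0‖ = 1 := b.orthonormal.1 0
  have hb1 : ⟪b 0, b 0⟫_ℂ = 1 := by
    rw [inner_self_eq_norm_sq_to_K, hn1]
    norm_num
  set c : UnitAddCircle → ℂ := fun θ => ⟪b 0, y' 0 θ⟫_ℂ with hc
  have hsc' : ∀ᵐ θ ∂AddCircle.haarAddCircle, ∀ r : ℤ, y' r θ = c θ • b r := by
    filter_upwards [hsc] with θ hθ r
    obtain ⟨z, hz⟩ := hθ
    have h4 : c θ = z := by
      simp only [hc]
      rw [hz 0, inner_smul_right, hb1, mul_one]
    rw [h4]
    exact hz r
  have hc2 : MemLp c 2 AddCircle.haarAddCircle := (hy' 0).const_inner (b 0)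
  have hcont : ∀ i r, Continuous (fun θ => evG E u θ (A i) (b r)) := fun i r =>
    (continuous_evG E u (A i)).clm_apply continuous_const
  -- the Fourier coefficients of the limit
  have hF : ∀ n r : ℤ, ∫ θ, (fourier (-n) θ : ℂ) • y' r θ ∂AddCircle.haarAddCircle =
      (∫ θ, (fourier (-n) θ : ℂ) * c θ ∂AddCircle.haarAddCircle) • b r := by
    intro n r
    rw [← integral_smul_const]
    refine integral_congr_ae ?_
    filter_upwards [hsc'] with θ hθ
    rw [hθ r, smul_smul]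
  have hT : ∀ n r : ℤ, (∫ θ, (fourier (-n) θ : ℂ) * c θ ∂AddCircle.haarAddCircle) • b r =
      (∫ θ, (fourier (-n) θ : ℂ) * c θ ∂AddCircle.haarAddCircle) •
        ((u ^ n : unitary (H →L[ℂ] H)) : H →L[ℂ] H) (b r) := by
    intro n r
    have t1 := h3 H (fun i θ => evG E u θ (A i) (b r)) (y' r) (fun i => hcont i r) (hy' r)
      (hlim r) (-n)
    have t2 := h3 H (fun i θ => evG E u θ (A i) (b 0)) (y' 0) (fun i => hcont i 0) (hy' 0)
      (hlim 0) (-n)
    set W : H →L[ℂ] H := ((u ^ n * E ^ r * (u ^ n)⁻¹ : unitary (H →L[ℂ] H)) : H →L[ℂ] H) with hW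
    have t3 := (W.continuous.tendsto _).comp t2
    have t4 : Tendsto (fun i => ∫ θ, (fourier (-n) θ : ℂ) • evG E u θ (A i) (b r)
        ∂AddCircle.haarAddCircle) atTop
        (𝓝 (W (∫ θ, (fourier (-n) θ : ℂ) • y' 0 θ ∂AddCircle.haarAddCircle))) := by
      refine t3.congr fun i => ?_
      exact (h1 H b E u hD (A i) n r).symm
    have t5 := tendsto_nhds_unique t1 t4
    rw [hF, hF, map_smul] at t5
    rw [t5]
    congr 1
    have e1 : W (b 0) = ((u ^ n : unitary (H →L[ℂ] H)) : H →L[ℂ] H)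
        (((E ^ r : unitary (H →L[ℂ] H)) : H →L[ℂ] H)
          ((((u ^ n)⁻¹ : unitary (H →L[ℂ] H)) : H →L[ℂ] H) (b 0))) := rfl
    rw [e1, ← zpow_neg, G9_zpow_fix u (b 0) hD.hu, G9_zpow_shift b E hD.hE, zero_add]
  have hz : ∀ n : ℤ, n ≠ 0 → ∫ θ, (fourier (-n) θ : ℂ) * c θ ∂AddCircle.haarAddCircle = 0 := by
    intro n hn
    by_contra hne
    apply hun n hn
    apply Subtype.ext
    change ((u ^ n : unitary (H →L[ℂ] H)) : H →L[ℂ] H) = 1
    have e1 : ∀ r, ((u ^ n : unitary (H →L[ℂ] H)) : H →L[ℂ] H) (b r) = b r := fun r =>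
      (smul_right_injective H hne (hT n r)).symm
    apply ContinuousLinearMap.ext_on (s := Set.range b)
    · exact Submodule.dense_iff_topologicalClosure_eq_top.2 b.dense_span
    · rintro _ ⟨r, rfl⟩
      rw [e1 r]
      rfl
  obtain ⟨c0, hc0⟩ := h2 c hc2 hz
  -- the trace
  have hτ : ∀ i, tauG E u (b 0) (A i) = 0 := by
    intro i
    rw [tauG_apply]
    have e1 : ∀ θ, ⟪b 0, evG E u θ (A i) (b 0)⟫_ℂ =
        (((⟪b 0, evG E u θ (A i) (b 0)⟫_ℂ).re : ℝ) : ℂ) := by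
      intro θ
      have hs : IsSelfAdjoint (evG E u θ (A i)) := (hsa i).map (evG E u θ)
      have hs' := hs.isSymmetric (b 0) (b 0)
      have e2 : (starRingEnd ℂ) ⟪b 0, evG E u θ (A i) (b 0)⟫_ℂ =
          ⟪b 0, evG E u θ (A i) (b 0)⟫_ℂ := by
        rw [inner_conj_symm]
        exact hs'
      exact ((Complex.conj_eq_iff_re).1 e2).symm
    have h4 := hre i
    rw [tauG_apply] at h4
    rw [integral_congr_ae (Eventually.of_forall e1)] at h4 ⊢
    rw [integral_complex_ofReal] at h4 ⊢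
    rw [Complex.ofReal_re] at h4
    rw [h4, Complex.ofReal_zero]
  have hc00 : c0 = 0 := by
    have t2 := h3 H (fun i θ => evG E u θ (A i) (b 0)) (y' 0) (fun i => hcont i 0) (hy' 0)
      (hlim 0) 0
    have t3 := ((innerSL ℂ (b 0)).continuous.tendsto _).comp t2
    have e1 : ∀ i, (innerSL ℂ (b 0)) (∫ θ, (fourier 0 θ : ℂ) • evG E u θ (A i) (b 0)
        ∂AddCircle.haarAddCircle) = 0 := by
      intro i
      rw [← hτ i, tauG_apply, innerSL_apply_apply, ← integral_inner]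
      · refine integral_congr_ae (Eventually.of_forall fun θ => ?_)
        simp
      · exact ((fourier 0).continuous.smul (hcont i 0)).integrable_of_hasCompactSupport
          (HasCompactSupport.of_compactSpace _)
    have t4 : Tendsto (fun _ : ℕ => (0 : ℂ)) atTop (𝓝 ((innerSL ℂ (b 0))
        (∫ θ, (fourier 0 θ : ℂ) • y' 0 θ ∂AddCircle.haarAddCircle))) :=
      t3.congr fun i => e1 i
    have t5 := tendsto_nhds_unique t4 tendsto_const_nhds
    have e2 := hF 0 0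
    rw [neg_zero] at e2
    rw [e2, map_smul, innerSL_apply_apply, hb1, smul_eq_mul, mul_one] at t5
    have e3 : ∫ θ, (fourier 0 θ : ℂ) * c θ ∂AddCircle.haarAddCircle = c0 := by
      have e4 : ∀ᵐ θ ∂(AddCircle.haarAddCircle : Measure UnitAddCircle),
          (fourier 0 θ : ℂ) * c θ = c0 := by
        filter_upwards [hc0] with θ hθ
        rw [hθ]
        simp
      rw [integral_congr_ae e4]
      simp
    rw [← e3, t5]
  have hy0 : ∀ᵐ θ ∂AddCircle.haarAddCircle, y' 0 θ = 0 := by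
    filter_upwards [hsc', hc0] with θ h4 h5
    rw [h4 0, h5, hc00, zero_smul]
  have hl0 := hlim 0
  have e5 : ∀ i, ∫ θ, ‖evG E u θ (A i) (b 0) - y' 0 θ‖ ^ 2 ∂AddCircle.haarAddCircle =
      ∫ θ, ‖evG E u θ (A i) (b 0)‖ ^ 2 ∂AddCircle.haarAddCircle := by
    intro i
    refine integral_congr_ae ?_
    filter_upwards [hy0] with θ h4
    rw [h4, sub_zero]
  have h6 : cl ≤ 0 := ge_of_tendsto' hl0 fun i => by
    rw [e5 i]
    exact hlow i
  linarith

end Pool.Agent.H417B
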