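import Pool.Agent.H417B.Stmts

set_option autoImplicit false
open scoped ComplexConjugate InnerProductSpace Topology
open Filter MeasureTheory NormedSpace

namespace Pool.Agent.H417B
open Pool.Agent.H712R5.BO

section

variable {H : Type} [NormedAddCommGroup H] [InnerProductSpace ℂ H] [CompleteSpace H]

theorem G9a_inv (E : unitary (H →L[ℂ] H)) :
    ((E⁻¹ : unitary (H →L[ℂ] H)) : H →L[ℂ] H) = star (E : H →L[ℂ] H) := rfl

theorem G9a_Epow (b : HilbertBasis ℤ ℂ H) (E : unitary (H →L[ℂ] H))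
    (hE : ∀ r : ℤ, (E : H →L[ℂ] H) (b r) = b (r + 1)) (r : ℤ) :
    ∀ s : ℤ, ((E ^ r : unitary (H →L[ℂ] H)) : H →L[ℂ] H) (b s) = b (s + r) := by
  have hE' : ∀ s : ℤ, ((E⁻¹ : unitary (H →L[ℂ] H)) : H →L[ℂ] H) (b s) = b (s - 1) := by
    intro s
    have h1 := hE (s - 1)
    rw [sub_add_cancel] at h1
    rw [← h1, ← ContinuousLinearMap.mul_apply]
    have h2 : ((E⁻¹ : unitary (H →L[ℂ] H)) : H →L[ℂ] H) * (E : H →L[ℂ] H) = 1 := by
      rw [← Submonoid.coe_mul, inv_mul_cancel]; rfl
    rw [h2]; rfl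
  induction r using Int.induction_on with
  | zero => intro s; simp
  | succ i ih =>
    intro s
    rw [zpow_add_one, Submonoid.coe_mul, ContinuousLinearMap.mul_apply, hE, ih]
    congr 1; ring
  | pred i ih =>
    intro s
    rw [zpow_sub_one, Submonoid.coe_mul, ContinuousLinearMap.mul_apply, hE', ih]
    congr 1; ring

theorem G9a_upow (v : H) (u : unitary (H →L[ℂ] H))
    (hu : (u : H →L[ℂ] H) v = v) (r : ℤ) :
    ((u ^ r : unitary (H →L[ℂ] H)) : H →L[ℂ] H) v = v := by
  have hu' : ((u⁻¹ : unitary (H →L[ℂ] H)) : H →L[ℂ] H) v = v := by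
    conv_lhs => rw [← hu]
    rw [← ContinuousLinearMap.mul_apply]
    have h2 : ((u⁻¹ : unitary (H →L[ℂ] H)) : H →L[ℂ] H) * (u : H →L[ℂ] H) = 1 := by
      rw [← Submonoid.coe_mul, inv_mul_cancel]; rfl
    rw [h2]; rfl
  induction r using Int.induction_on with
  | zero => simp
  | succ i ih =>
    rw [zpow_add_one, Submonoid.coe_mul, ContinuousLinearMap.mul_apply, hu, ih]
  | pred i ih =>
    rw [zpow_sub_one, Submonoid.coe_mul, ContinuousLinearMap.mul_apply, hu', ih]

theorem G9a_integrable (n : ℤ) (v : H) (B : C(UnitAddCircle, H →L[ℂ] H)) :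
    Integrable (fun θ => (fourier (-n) θ : ℂ) • B θ v) AddCircle.haarAddCircle := by
  have hc : Continuous (fun θ : UnitAddCircle => (fourier (-n) θ : ℂ) • B θ v) :=
    (fourier (-n)).continuous.smul (B.continuous.clm_apply continuous_const)
  exact hc.integrable_of_hasCompactSupport (HasCompactSupport.of_compactSpace _)

/-- the Fourier coefficient functional -/
noncomputable def G9a_L (n : ℤ) (v : H) : C(UnitAddCircle, H →L[ℂ] H) →L[ℂ] H :=
  LinearMap.mkContinuous
    { toFun := fun B => ∫ θ, (fourier (-n) θ : ℂ) • B θ v ∂AddCircle.haarAddCircle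
      map_add' := by
        intro A B
        rw [← integral_add (G9a_integrable n v A) (G9a_integrable n v B)]
        refine integral_congr_ae (Eventually.of_forall (fun θ => ?_))
        show (fourier (-n) θ : ℂ) • (A θ + B θ) v = _
        rw [_root_.add_apply, smul_add]
      map_smul' := by
        intro c A
        rw [RingHom.id_apply, ← integral_smul]
        refine integral_congr_ae (Eventually.of_forall (fun θ => ?_))
        show (fourier (-n) θ : ℂ) • (c • A θ) v = c • ((fourier (-n) θ : ℂ) • A θ v)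
        rw [_root_.smul_apply, smul_comm] }
    ‖v‖ (by
      intro A
      have h1 : ∀ θ : UnitAddCircle, ‖(fourier (-n) θ : ℂ) • A θ v‖ ≤ ‖v‖ * ‖A‖ := by
        intro θ
        have h2 : ‖A θ‖ ≤ ‖A‖ := A.norm_coe_le_norm θ
        have h3 : ‖(fourier (-n) θ : ℂ)‖ = 1 := Circle.norm_coe _
        rw [norm_smul, h3, one_mul]
        calc ‖A θ v‖ ≤ ‖A θ‖ * ‖v‖ := (A θ).le_opNorm v
          _ ≤ ‖A‖ * ‖v‖ := by gcongr
          _ = ‖v‖ * ‖A‖ := by ring
      have h3 := norm_integral_le_of_norm_le_const (μ := AddCircle.haarAddCircle)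
        (Eventually.of_forall h1)
      simpa using h3)

theorem G9a_L_apply (n : ℤ) (v : H) (B : C(UnitAddCircle, H →L[ℂ] H)) :
    G9a_L n v B = ∫ θ, (fourier (-n) θ : ℂ) • B θ v ∂AddCircle.haarAddCircle := rfl

theorem G9a_int (k : ℤ) (hk : k ≠ 0) :
    ∫ θ : UnitAddCircle, (fourier k θ : ℂ) ∂AddCircle.haarAddCircle = 0 :=
  integral_eq_zero_of_add_right_eq_neg (μ := AddCircle.haarAddCircle)
      (fourier_add_half_inv_index hk one_pos)

theorem G9a_word (n m : ℤ) (v : H) (B : C(UnitAddCircle, H →L[ℂ] H)) (T : H →L[ℂ] H)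
    (hB : ∀ θ, B θ = (fourier m θ : ℂ) • T) :
    G9a_L n v B = if m = n then T v else 0 := by
  rw [G9a_L_apply]
  have h1 : ∀ θ : UnitAddCircle, (fourier (-n) θ : ℂ) • B θ v
      = (fourier (-n + m) θ : ℂ) • T v := by
    intro θ
    rw [hB θ, _root_.smul_apply, smul_smul, fourier_add]
  simp_rw [h1]
  rw [integral_smul_const]
  by_cases hmn : m = n
  · rw [if_pos hmn, hmn, neg_add_cancel]
    have h2 : ∀ θ : UnitAddCircle, (fourier 0 θ : ℂ) = 1 := fun θ => fourier_zero
    simp_rw [h2]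
    simp
  · rw [if_neg hmn, G9a_int _ (by omega), zero_smul]

end

theorem t_G9a (h1 : P_G1a) (h2 : P_G1b) (h3 : P_G1c) : P_G9a := by
  intro H _ _ _ b E u hD A n r
  have key : ∀ B ∈ closure ((Submodule.span ℂ (Wd E u) :
      Submodule ℂ C(UnitAddCircle, H →L[ℂ] H)) : Set C(UnitAddCircle, H →L[ℂ] H)),
      G9a_L n (b r) B = (((u ^ n * E ^ r * (u ^ n)⁻¹ : unitary (H →L[ℂ] H)) : H →L[ℂ] H))
        (G9a_L n (b 0) B) := by
    have hcl : IsClosed {B : C(UnitAddCircle, H →L[ℂ] H) | G9a_L n (b r) B =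
        (((u ^ n * E ^ r * (u ^ n)⁻¹ : unitary (H →L[ℂ] H)) : H →L[ℂ] H))
        (G9a_L n (b 0) B)} :=
      isClosed_eq (G9a_L n (b r)).continuous
        ((((u ^ n * E ^ r * (u ^ n)⁻¹ : unitary (H →L[ℂ] H)) : H →L[ℂ] H)).continuous.comp
          (G9a_L n (b 0)).continuous)
    refine fun B hB => closure_minimal ?_ hcl hB
    intro B hB
    show G9a_L n (b r) B = _
    induction hB using Submodule.span_induction with
    | mem B hB =>
      obtain ⟨m, f, hf, hB⟩ := hB
      rw [G9a_word n m _ B _ hB, G9a_word n m _ B _ hB]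
      by_cases hmn : m = n
      · subst hmn
        rw [if_pos rfl, if_pos rfl]
        have hEc : ((E ^ r : unitary (H →L[ℂ] H)) : H →L[ℂ] H) * (E : H →L[ℂ] H)
            = (E : H →L[ℂ] H) * ((E ^ r : unitary (H →L[ℂ] H)) : H →L[ℂ] H) := by
          rw [← Submonoid.coe_mul, ← Submonoid.coe_mul, (Commute.refl E).zpow_left r |>.eq]
        have h4 := (h2 H b E u hD _ hEc).2 m
        have h5 := h1 H b E hD.hE f _ hf h4
        have h6 : ((u ^ m * E ^ r * (u ^ m)⁻¹ : unitary (H →L[ℂ] H)) : H →L[ℂ] H)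
            = ((u ^ m : unitary (H →L[ℂ] H)) : H →L[ℂ] H)
              * ((E ^ r : unitary (H →L[ℂ] H)) : H →L[ℂ] H)
              * star ((u ^ m : unitary (H →L[ℂ] H)) : H →L[ℂ] H) := rfl
        rw [← h6] at h5
        have h7 : ((u ^ m : unitary (H →L[ℂ] H)) : H →L[ℂ] H) (b 0) = b 0 :=
          G9a_upow (b 0) u hD.hu m
        have h8 : ((u ^ (-m) : unitary (H →L[ℂ] H)) : H →L[ℂ] H) (b 0) = b 0 :=
          G9a_upow (b 0) u hD.hu (-m)
        rw [zpow_neg] at h8
        have h9 : ((E ^ r : unitary (H →L[ℂ] H)) : H →L[ℂ] H) (b 0) = b r := by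
          rw [G9a_Epow b E hD.hE r 0, zero_add]
        rw [ContinuousLinearMap.mul_apply, ContinuousLinearMap.mul_apply, h7]
        have h10 := congrArg (fun S : H →L[ℂ] H => S (b 0)) h5
        simp only [ContinuousLinearMap.mul_apply] at h10
        rw [← h10, Submonoid.coe_mul, Submonoid.coe_mul, ContinuousLinearMap.mul_apply,
          ContinuousLinearMap.mul_apply, h8, h9]
      · rw [if_neg hmn, if_neg hmn, map_zero]
    | zero => rw [map_zero, map_zero, map_zero]
    | add x y _ _ hx hy => rw [map_add, map_add, map_add, hx, hy]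
    | smul c x _ hx => rw [map_smul, map_smul, map_smul, hx]
  have h4 := key (A : C(UnitAddCircle, H →L[ℂ] H)) (h3 H b E u hD _ A.2)
  rw [G9a_L_apply, G9a_L_apply] at h4
  exact h4

end Pool.Agent.H417B
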