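import Pool.Agent.H417B.Stmts

set_option autoImplicit false
open scoped ComplexConjugate InnerProductSpace Topology
open Filter MeasureTheory NormedSpace

namespace Pool.Agent.H417B
open Pool.Agent.H712R5.BO

theorem t_G9b : P_G9b := by
  intro c hc h
  have hci : Integrable c AddCircle.haarAddCircle := hc.integrable (by norm_num)
  set c0 : ℂ := ∫ θ, c θ ∂AddCircle.haarAddCircle with hc0
  refine ⟨c0, ?_⟩
  have hd : MemLp (fun θ => c θ - c0) 2 AddCircle.haarAddCircle :=
    hc.sub (memLp_const c0)
  set F : Lp ℂ 2 (AddCircle.haarAddCircle : Measure UnitAddCircle) := hd.toLp _ with hF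
  have hFc : (F : UnitAddCircle → ℂ) =ᵐ[AddCircle.haarAddCircle] fun θ => c θ - c0 :=
    hd.coeFn_toLp
  have hz : fourierBasis.repr F = 0 := by
    apply lp.ext
    funext n
    rw [fourierBasis_repr, fourierCoeff_congr_ae hFc]
    show fourierCoeff (fun θ => c θ - c0) n = 0
    unfold fourierCoeff
    have h1 : ∀ θ : UnitAddCircle, (fourier (-n) θ : ℂ) • (c θ - c0)
        = (fourier (-n) θ : ℂ) * c θ - (fourier (-n) θ : ℂ) * c0 := by
      intro θ; rw [smul_eq_mul, mul_sub]
    have hi1 : Integrable (fun θ => (fourier (-n) θ : ℂ) * c θ) AddCircle.haarAddCircle := by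
      refine hci.bdd_mul (c := 1) (fourier (-n)).continuous.aestronglyMeasurable ?_
      exact Eventually.of_forall (fun θ => by rw [fourier_apply]; exact (Circle.norm_coe _).le)
    have hi2 : Integrable (fun θ : UnitAddCircle => (fourier (-n) θ : ℂ) * c0)
        AddCircle.haarAddCircle :=
      ((fourier (-n)).continuous.mul continuous_const).integrable_of_hasCompactSupport
        (HasCompactSupport.of_compactSpace _)
    calc ∫ θ : UnitAddCircle, (fourier (-n) θ : ℂ) • (c θ - c0) ∂AddCircle.haarAddCircle
        = ∫ θ : UnitAddCircle, ((fourier (-n) θ : ℂ) * c θ - (fourier (-n) θ : ℂ) * c0)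
            ∂AddCircle.haarAddCircle := integral_congr_ae (Eventually.of_forall h1)
      _ = (∫ θ : UnitAddCircle, (fourier (-n) θ : ℂ) * c θ ∂AddCircle.haarAddCircle)
            - ∫ θ : UnitAddCircle, (fourier (-n) θ : ℂ) * c0 ∂AddCircle.haarAddCircle :=
          integral_sub hi1 hi2
      _ = 0 := by
          by_cases hn : n = 0
          · subst hn
            simp [hc0]
          · rw [h n hn, integral_mul_const]
            have h2 : ∫ θ : UnitAddCircle, (fourier (-n) θ : ℂ) ∂AddCircle.haarAddCircle = 0 := by
              have h3 := (orthonormal_fourier (T := 1)).2 (show (0:ℤ) ≠ -n by omega)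
              have h4 : ⟪(fourierLp (T := 1) 2 (0:ℤ)), fourierLp (T := 1) 2 (-n)⟫_ℂ
                  = ∫ θ : UnitAddCircle, (fourier (-n) θ : ℂ) ∂AddCircle.haarAddCircle := by
                rw [ContinuousMap.inner_toLp (AddCircle.haarAddCircle) (fourier (0:ℤ)) (fourier (-n))]
                refine integral_congr_ae (Eventually.of_forall (fun θ => ?_))
                simp [fourier_zero]
              rw [← h4]
              exact h3
            rw [h2]; simp
  have hF0 : F = 0 := by
    have := fourierBasis.repr.injective (hz.trans (map_zero _).symm)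
    exact this
  have h5 : (F : UnitAddCircle → ℂ) =ᵐ[AddCircle.haarAddCircle] 0 := by
    rw [hF0]; exact Lp.coeFn_zero _ _ _
  filter_upwards [hFc, h5] with θ h6 h7
  rw [h7] at h6
  simp only [Pi.zero_apply] at h6
  exact (sub_eq_zero.mp h6.symm)

end Pool.Agent.H417B
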