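import Pool.Agent.H417B.Stmts

/-! G9c: convergence of Fourier coefficients. -/

set_option autoImplicit false
open scoped ComplexConjugate InnerProductSpace Topology
open Filter MeasureTheory NormedSpace

namespace Pool.Agent.H417B
open Pool.Agent.H712R5.BO

theorem G9c_cs {H : Type} [NormedAddCommGroup H] {f : UnitAddCircle → H}
    (hf : MemLp f 2 AddCircle.haarAddCircle) :
    (∫ θ, ‖f θ‖ ∂AddCircle.haarAddCircle) ^ 2 ≤ ∫ θ, ‖f θ‖ ^ 2 ∂AddCircle.haarAddCircle := by
  have hi1 : Integrable (fun θ => ‖f θ‖) AddCircle.haarAddCircle :=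
    (hf.integrable (by norm_num)).norm
  have hi2 : Integrable (fun θ => ‖f θ‖ ^ 2) AddCircle.haarAddCircle :=
    hf.integrable_norm_pow (by norm_num)
  set m := ∫ θ, ‖f θ‖ ∂AddCircle.haarAddCircle with hm
  have h9 : 0 ≤ ∫ θ, (‖f θ‖ - m) ^ 2 ∂AddCircle.haarAddCircle :=
    integral_nonneg (fun θ => sq_nonneg _)
  have h10 : ∀ θ, (‖f θ‖ - m) ^ 2 = ‖f θ‖ ^ 2 - (2 * m) * ‖f θ‖ + m ^ 2 := fun θ => by ring
  have h11 : ∫ θ, (‖f θ‖ - m) ^ 2 ∂AddCircle.haarAddCircle
      = (∫ θ, ‖f θ‖ ^ 2 ∂AddCircle.haarAddCircle) - (2 * m) * m + m ^ 2 := by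
    have hiA : Integrable (fun θ => ‖f θ‖ ^ 2 - (2 * m) * ‖f θ‖)
        AddCircle.haarAddCircle := hi2.sub (hi1.const_mul _)
    calc ∫ θ, (‖f θ‖ - m) ^ 2 ∂AddCircle.haarAddCircle
        = ∫ θ, ((‖f θ‖ ^ 2 - (2 * m) * ‖f θ‖) + m ^ 2)
            ∂AddCircle.haarAddCircle := integral_congr_ae (Eventually.of_forall h10)
      _ = (∫ θ, (‖f θ‖ ^ 2 - (2 * m) * ‖f θ‖) ∂AddCircle.haarAddCircle)
            + ∫ _θ : UnitAddCircle, m ^ 2 ∂AddCircle.haarAddCircle :=
          integral_add hiA (integrable_const _)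
      _ = _ := by
          rw [integral_sub hi2 (hi1.const_mul _), integral_const_mul, ← hm]
          simp
  nlinarith

theorem t_G9c : P_G9c := by
  intro H _ _ _ y y' hy hy' hlim n
  have hyL : ∀ i, MemLp (y i) 2 AddCircle.haarAddCircle := fun i =>
    (hy i).memLp_of_hasCompactSupport (HasCompactSupport.of_compactSpace _)
  have hdL : ∀ i, MemLp (fun θ => y i θ - y' θ) 2 AddCircle.haarAddCircle :=
    fun i => (hyL i).sub hy'
  have hfn : ∀ θ : UnitAddCircle, ‖(fourier n θ : ℂ)‖ = 1 := fun θ => by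
    rw [fourier_apply]; exact Circle.norm_coe _
  have hint : ∀ f : UnitAddCircle → H, Integrable f AddCircle.haarAddCircle →
      Integrable (fun θ => (fourier n θ : ℂ) • f θ) AddCircle.haarAddCircle := by
    intro f hf
    refine hf.mono ((fourier n).continuous.aestronglyMeasurable.smul hf.1) ?_
    refine Eventually.of_forall fun θ => ?_
    rw [norm_smul, hfn, one_mul]
  have hkey : ∀ i, ‖(∫ θ, (fourier n θ : ℂ) • y i θ ∂AddCircle.haarAddCircle) -
      ∫ θ, (fourier n θ : ℂ) • y' θ ∂AddCircle.haarAddCircle‖ ≤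
      Real.sqrt (∫ θ, ‖y i θ - y' θ‖ ^ 2 ∂AddCircle.haarAddCircle) := by
    intro i
    rw [← integral_sub (hint _ ((hyL i).integrable (by norm_num)))
      (hint _ (hy'.integrable (by norm_num)))]
    refine (norm_integral_le_integral_norm _).trans ?_
    apply Real.le_sqrt_of_sq_le
    refine le_trans (le_of_eq ?_) (G9c_cs (hdL i))
    congr 1
    refine integral_congr_ae (Eventually.of_forall fun θ => ?_)
    show ‖(fourier n θ : ℂ) • y i θ - (fourier n θ : ℂ) • y' θ‖ = ‖y i θ - y' θ‖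
    rw [← smul_sub, norm_smul, hfn, one_mul]
  rw [tendsto_iff_norm_sub_tendsto_zero]
  refine squeeze_zero (fun _ => norm_nonneg _) hkey ?_
  have := (Real.continuous_sqrt.tendsto 0).comp hlim
  rwa [Real.sqrt_zero] at this

end Pool.Agent.H417B
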