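import Pool.Agent.H417B.Stmts

set_option autoImplicit false
open scoped ComplexConjugate InnerProductSpace Topology
open Filter MeasureTheory NormedSpace

namespace Pool.Agent.H417B
open Pool.Agent.H712R5.BO

section
variable {H : Type} [NormedAddCommGroup H] [InnerProductSpace ℂ H] [CompleteSpace H]

theorem GMAIN_ck_pos (k : ℕ) (hk : 1 ≤ k) : 0 < ck k := by
  unfold ck
  positivity

theorem GMAIN_norm_Tt (E u : unitary (H →L[ℂ] H)) (T : H →L[ℂ] H)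
    (hT : T * star (u : H →L[ℂ] H) * (E : H →L[ℂ] H)
      = (E : H →L[ℂ] H) * (T * star (u : H →L[ℂ] H))) :
    ‖TtG E u T hT‖ ≤ ‖T‖ := by
  show ‖(TtG E u T hT : C(UnitAddCircle, H →L[ℂ] H))‖ ≤ ‖T‖
  rw [ContinuousMap.norm_le _ (norm_nonneg _)]
  intro θ
  have : (TtG E u T hT : C(UnitAddCircle, H →L[ℂ] H)) θ = (fourier 1 θ : ℂ) • T := rfl
  rw [this, norm_smul]
  have h1 : ‖(fourier 1 θ : ℂ)‖ = 1 := by
    rw [fourier_apply]
    exact Circle.norm_coe _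
  rw [h1, one_mul]

end

theorem t_GMAIN (hB1 : P_B1) (hB12 : P_B12) (hB13 : P_B13) (hB4u : P_B4u) (hD7 : P_D7)
    (hD8 : P_D8) (hG1 : P_G1) (hG2 : P_G2) (hG3 : P_G3) (hG4 : P_G4) (hG5 : P_G5) (hG6 : P_G6)
    (hGU : P_GU) (hG7 : P_G7) (hC8 : P_C8) (hG9 : P_G9) (hC12 : P_C12) : P_GMAIN := by
  intro H _ _ _ b E u hdat hu T hT hTn hdet
  set S : Alg E u := TtG E u T hT with hS
  set τ := tauG E u (b 0) with hτdef
  have hτ : TrSt τ := hG1 H b E u hdat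
  -- lower bound
  have hlow : ∀ k M : ℕ, 1 ≤ k → 1 ≤ M →
      0 ≤ 2 * Real.log (ck k) + 4 * Real.pi * k * 3 / M + M * Real.log 2
        + M * NN τ (ex (k : ℂ) S) := by
    intro k M hk hM
    have h1 := hD7 (Alg E u) τ hτ S k M hk hM
    have hck := GMAIN_ck_pos k hk
    have h2 := hG5 H E u (b 0) T hT k ((ck k) ^ 2) (by positivity)
    have h3 := hdet k ((ck k) ^ 2) hk (by positivity)
    rw [h2] at h1
    have h4 : ∑ j : Fin M, NN τ (ex (k * rt M j) S)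
        = M * NN τ (ex (k : ℂ) S) := by
      have h7 : ∀ j : Fin M, NN τ (ex (k * rt M j) S)
          = NN τ (ex (k : ℂ) S) := fun j => hG3 H E u (b 0) T hT k M j
      simp_rw [h7]
      simp
    rw [h4] at h1
    have h5 : ‖S‖ ≤ 3 := (GMAIN_norm_Tt E u T hT).trans hTn
    have h6 : 4 * Real.pi * k * ‖S‖ / M ≤ 4 * Real.pi * k * 3 / M := by
      have : (0:ℝ) < M := by exact_mod_cast hM
      gcongr
    linarith
  obtain ⟨c, hc, K, hK⟩ := hD8 (fun k => NN τ (ex (k : ℂ) S)) hlow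
  -- the elements AA k
  set AA : ℕ → Alg E u := fun k => (1/(k:ℝ)) • Lg (ex (k : ℂ) S) with hAA
  set y : ℕ → ℤ → UnitAddCircle → H := fun k r θ => evG E u θ (AA k) (b r) with hy
  have hycont : ∀ k r, Continuous (y k r) := by
    intro k r
    exact (continuous_evG E u (AA k)).clm_apply continuous_const
  have hevsmul : ∀ (θ : UnitAddCircle) (r : ℝ) (A : Alg E u), evG E u θ (r • A) = r • evG E u θ A := by
    intro θ r A
    rfl
  -- the 2-norm of any element at b r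
  have hint : ∀ (D : Alg E u) (r : ℤ),
      ∫ θ, ‖evG E u θ D (b r)‖ ^ 2 ∂AddCircle.haarAddCircle = (n2 τ D) ^ 2 := by
    intro D r
    obtain ⟨G, hGu, hG⟩ := hGU H b E u hdat r
    have h1 : n2 τ D = n2 τ (D * G) := by
      have h2 := (hB1 (Alg E u) τ hτ).2.2.2.2.2.2.2.1 1 (one_mem _) G hGu D
      rw [one_mul] at h2
      exact h2.symm
    rw [h1, hG2 H E u (b 0) (D * G)]
    refine integral_congr_ae (Eventually.of_forall (fun θ => ?_))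
    show ‖evG E u θ D (b r)‖ ^ 2 = ‖evG E u θ (D * G) (b 0)‖ ^ 2
    rw [map_mul]
    show ‖evG E u θ D (b r)‖ ^ 2 = ‖evG E u θ D (evG E u θ G (b 0))‖ ^ 2
    rw [hG θ]
  have hyd : ∀ k m r, ∫ θ, ‖y k r θ - y m r θ‖ ^ 2 ∂AddCircle.haarAddCircle
      = (n2 τ (AA k - AA m)) ^ 2 := by
    intro k m r
    rw [← hint (AA k - AA m) r]
    refine integral_congr_ae (Eventually.of_forall (fun θ => ?_))
    show ‖y k r θ - y m r θ‖ ^ 2 = ‖evG E u θ (AA k - AA m) (b r)‖ ^ 2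
    rw [map_sub]
    rfl
  have hcauchy : ∀ ε > (0:ℝ), ∃ K : ℕ, ∀ k ≥ K, ∀ m ≥ K, ∀ r : ℤ,
      ∫ θ, ‖y k r θ - y m r θ‖ ^ 2 ∂AddCircle.haarAddCircle < ε := by
    intro ε hε
    obtain ⟨K', _, hK'⟩ := hB12 (Alg E u) τ hτ S (Real.sqrt ε) (Real.sqrt_pos.mpr hε)
    refine ⟨K', fun k hk m hm r => ?_⟩
    rw [hyd]
    have h1 := hK' k hk m hm
    have h0 : 0 ≤ n2 τ (AA k - AA m) := Real.sqrt_nonneg _
    calc _ < (Real.sqrt ε) ^ 2 := by gcongr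
      _ = ε := Real.sq_sqrt hε.le
  obtain ⟨φ, y', hφ, hy'mem, hae, hL2⟩ := hG7 H y hycont hcauchy
  set K0 : ℕ := max K 1 with hK0
  set ψ : ℕ → ℕ := fun i => φ (i + K0) with hψ
  have hψmono : StrictMono ψ := fun i j hij => hφ (by omega)
  have hψK : ∀ i, K0 ≤ ψ i := fun i => le_trans (Nat.le_add_left K0 i) (hφ.id_le (i + K0))
  have hψ1 : ∀ i, 1 ≤ ψ i := fun i => le_trans (le_max_right _ _) (hψK i)
  have hae' : ∀ᵐ θ ∂AddCircle.haarAddCircle, ∀ r,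
      Tendsto (fun i => y (ψ i) r θ) atTop (𝓝 (y' r θ)) := by
    filter_upwards [hae] with θ hθ r
    exact (hθ r).comp (tendsto_add_atTop_nat K0)
  have hL2' : ∀ r, Tendsto (fun i => ∫ θ, ‖y (ψ i) r θ - y' r θ‖ ^ 2 ∂AddCircle.haarAddCircle)
      atTop (𝓝 0) := fun r => (hL2 r).comp (tendsto_add_atTop_nat K0)
  -- trace of L_k is zero
  have htr : ∀ k : ℕ, (τ (Lg (ex (k : ℂ) S))).re = 0 := by
    intro k
    have h1 := hB13 (Alg E u) τ hτ ((k : ℂ) • S)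
    have h2 : τ S = 0 := hG6 H E u (b 0) T hT
    have h3 : τ ((k : ℂ) • S) = 0 := by
      have := τ.map_smul (k : ℂ) S
      rw [this, h2, smul_zero]
    rw [h3] at h1
    simpa [ex] using h1
  have htr0 : ∀ i, (τ (AA (ψ i))).re = 0 := by
    intro i
    have h1 : AA (ψ i) = ((1/(ψ i:ℝ) : ℝ) : ℂ) • Lg (ex (ψ i : ℂ) S) := by
      show (1/(ψ i:ℝ)) • Lg (ex (ψ i : ℂ) S) = _
      rw [Complex.coe_smul]
    rw [h1, τ.map_smul, smul_eq_mul, Complex.re_ofReal_mul, htr, mul_zero]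
  have hsa : ∀ i, IsSelfAdjoint (AA (ψ i)) := by
    intro i
    have h1 : IsSelfAdjoint (Lg (ex (ψ i : ℂ) S)) := (hB4u (Alg E u) τ hτ).1 _
    show star ((1/(ψ i:ℝ)) • Lg (ex (ψ i : ℂ) S)) = (1/(ψ i:ℝ)) • Lg (ex (ψ i : ℂ) S)
    rw [star_smul, h1.star_eq, star_trivial]
  have hlowL2 : ∃ c > (0:ℝ), ∀ i, c ≤ ∫ θ, ‖evG E u θ (AA (ψ i)) (b 0)‖ ^ 2
      ∂AddCircle.haarAddCircle := by
    refine ⟨c ^ 2, by positivity, fun i => ?_⟩
    rw [hint (AA (ψ i)) 0]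
    have h1 : c ≤ n2 τ ((1/(ψ i:ℝ)) • Lg (ex (ψ i : ℂ) S)) := by
      have h2 := hK (ψ i) (le_trans (le_max_left _ _) (hψK i))
      have h3 : n2 τ ((1/(ψ i:ℝ)) • Lg (ex (ψ i : ℂ) S))
          = |(1/(ψ i:ℝ))| * NN τ (ex (ψ i : ℂ) S) :=
        (hB1 (Alg E u) τ hτ).2.2.2.1 _ _
      rw [h3]
      have h4 : (0:ℝ) < ψ i := by exact_mod_cast (hψ1 i)
      rw [abs_of_pos (by positivity)]
      calc c = 1 / (ψ i : ℝ) * (c * ψ i) := by field_simp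
        _ ≤ _ := by gcongr
    gcongr
  have hnot := hG9 H b E u hdat hu (fun i => AA (ψ i)) y' hy'mem hL2' htr0 hsa hlowL2
  obtain ⟨θ, hθc, hθns⟩ : ∃ θ, (∀ r, Tendsto (fun i => y (ψ i) r θ) atTop (𝓝 (y' r θ))) ∧
      ¬ ∃ z : ℂ, ∀ r : ℤ, y' r θ = z • b r := by
    by_contra hcon
    push Not at hcon
    apply hnot
    filter_upwards [hae'] with θ hθ
    exact hcon θ hθ
  have hAform : ∀ i, evG E u θ (AA (ψ i))
      = (1/(ψ i:ℝ)) • Lg (ex (ψ i : ℂ) ((fourier 1 θ : ℂ) • T)) := by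
    intro i
    show evG E u θ ((1/(ψ i:ℝ)) • Lg (ex (ψ i : ℂ) S)) = _
    rw [hevsmul, (hG4 H E u T hT (ψ i) θ).1]
  have hAnorm : ∀ i, ‖evG E u θ (AA (ψ i))‖ ≤ 2 * ‖T‖ := by
    intro i
    rw [hAform, norm_smul]
    have h1 := (hG4 H E u T hT (ψ i) θ).2
    have h4 : (0:ℝ) < ψ i := by exact_mod_cast (hψ1 i)
    rw [Real.norm_eq_abs, abs_of_pos (by positivity)]
    calc 1 / (ψ i : ℝ) * _ ≤ 1 / (ψ i : ℝ) * (2 * ψ i * ‖T‖) := by gcongr
      _ = 2 * ‖T‖ := by field_simp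
  obtain ⟨X, hX⟩ := hC8 H b (fun i => evG E u θ (AA (ψ i))) (2 * ‖T‖) hAnorm
    (fun r => ⟨y' r θ, hθc r⟩)
  have hXr : ∀ r : ℤ, X (b r) = y' r θ := fun r => tendsto_nhds_unique (hX (b r)) (hθc r)
  have hns : ¬ ∃ c : ℂ, X = c • 1 := by
    rintro ⟨z, hz⟩
    apply hθns
    refine ⟨z, fun r => ?_⟩
    rw [← hXr, hz]; simp
  obtain ⟨V, hVc, hVb, hVt, hVi⟩ := hC12 H ((fourier 1 θ : ℂ) • T) ψ hψmono hψ1 X
    (fun v => by
      have h1 := hX v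
      simp_rw [hAform] at h1
      exact h1) hns
  refine ⟨V, hVc, hVb, hVt, fun v hv => ?_⟩
  have h1 := V.smul_mem ((fourier 1 θ : ℂ)⁻¹) (hVi v hv)
  have h2 : (fourier 1 θ : ℂ) ≠ 0 := by
    have h3 : ‖(fourier 1 θ : ℂ)‖ = 1 := by
      rw [fourier_apply]
      exact Circle.norm_coe _
    intro h4
    rw [h4] at h3
    simp at h3
  have h5 : ((fourier 1 θ : ℂ)⁻¹) • (((fourier 1 θ : ℂ) • T) v) = T v := by
    rw [_root_.smul_apply, smul_smul, inv_mul_cancel₀ h2, one_smul]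
  rwa [h5] at h1

end Pool.Agent.H417B
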