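import Pool.Agent.H417B.Stmts3
import Pool.Agent.H417B.GMAINR

set_option autoImplicit false
open scoped ComplexConjugate InnerProductSpace Topology
open Filter MeasureTheory NormedSpace

namespace Pool.Agent.H417B
open Pool.Agent.H712R5.BO

theorem t_GMAINH (hB1 : P_B1) (hB12 : P_B12) (hB13 : P_B13) (hB4u : P_B4u) (hB4v : P_B4v)
    (hD7 : P_D7) (hD8 : P_D8R) (hG1 : P_G1) (hG2 : P_G2) (hG3 : P_G3) (hG4 : P_G4)
    (hG5 : P_G5) (hG6 : P_G6) (hGU : P_GU) (hG7 : P_G7) (hC8 : P_C8) (hG9 : P_G9)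
    (hC12 : P_C12H) : P_GMAINH := by
  intro H _ _ _ b E u hD hper T hT hdet
  set S : Alg E u := TtG E u T hT with hS
  have hτ : TrSt (tauG E u (b 0)) := hG1 H b E u hD
  -- lower bound
  have hlow : ∀ k M : ℕ, 1 ≤ k → 1 ≤ M →
      0 ≤ 2 * Real.log (ck k) + 4 * Real.pi * k * ‖T‖ / M + M * Real.log 2
        + M * NN (tauG E u (b 0)) (ex (k : ℂ) S) := by
    intro k M hk hM
    have h1 := hD7 (Alg E u) (tauG E u (b 0)) hτ S k M hk hM
    have hck := GMAINR_ck_pos k hk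
    have h2 := hG5 H E u (b 0) T hT k ((ck k) ^ 2) (by positivity)
    have h3 := hdet k ((ck k) ^ 2) hk (by positivity)
    rw [h2] at h1
    have h4 : ∑ j : Fin M, NN (tauG E u (b 0)) (ex (k * rt M j) S)
        = M * NN (tauG E u (b 0)) (ex (k : ℂ) S) := by
      have h7 : ∀ j : Fin M, NN (tauG E u (b 0)) (ex (k * rt M j) S)
          = NN (tauG E u (b 0)) (ex (k : ℂ) S) := fun j => hG3 H E u (b 0) T hT k M j
      simp_rw [h7]
      simp
    rw [h4] at h1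
    have h5 : ‖S‖ ≤ ‖T‖ := GMAINR_norm_Tt E u T hT
    have h6 : 4 * Real.pi * k * ‖S‖ / M ≤ 4 * Real.pi * k * ‖T‖ / M := by
      have : (0:ℝ) < M := by exact_mod_cast hM
      gcongr
    linarith
  obtain ⟨c, hc, K, hK⟩ := hD8 ‖T‖ (norm_nonneg _)
    (fun k => NN (tauG E u (b 0)) (ex (k : ℂ) S)) hlow
  -- the operators and the functions
  set AA : ℕ → Alg E u := fun k => (1/(k:ℝ)) • Lg (ex (k : ℂ) S) with hAA
  set y : ℕ → ℤ → UnitAddCircle → H := fun k r θ => evG E u θ (AA k) (b r) with hy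
  have hycont : ∀ k r, Continuous (y k r) := by
    intro k r
    exact (continuous_evG E u (AA k)).clm_apply continuous_const
  have hevsmul : ∀ (θ : UnitAddCircle) (r : ℝ) (A : Alg E u),
      evG E u θ (r • A) = r • evG E u θ A := by
    intro θ r A
    rfl
  have hyd : ∀ k m r, ∫ θ, ‖y k r θ - y m r θ‖ ^ 2 ∂AddCircle.haarAddCircle
      = (n2 (tauG E u (b 0)) (AA k - AA m)) ^ 2 := by
    intro k m r
    obtain ⟨G, hG, hGev⟩ := hGU H b E u hD r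
    have h1 : n2 (tauG E u (b 0)) (AA k - AA m) =
        n2 (tauG E u (b 0)) ((AA k - AA m) * G) := by
      have := (hB1 (Alg E u) (tauG E u (b 0)) hτ).2.2.2.2.2.2.2.1 1 (one_mem _) G hG
        (AA k - AA m)
      rw [one_mul] at this
      exact this.symm
    rw [h1, hG2]
    refine integral_congr_ae (Eventually.of_forall (fun θ => ?_))
    show ‖y k r θ - y m r θ‖ ^ 2 = ‖evG E u θ ((AA k - AA m) * G) (b 0)‖ ^ 2
    have h2 : evG E u θ ((AA k - AA m) * G) (b 0) = y k r θ - y m r θ := by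
      rw [map_mul, map_sub]
      show (evG E u θ (AA k) - evG E u θ (AA m)) (evG E u θ G (b 0)) = _
      rw [hGev θ]
      rfl
    rw [h2]
  have hcauchy : ∀ ε > (0:ℝ), ∃ K : ℕ, ∀ k ≥ K, ∀ m ≥ K, ∀ r : ℤ,
      ∫ θ, ‖y k r θ - y m r θ‖ ^ 2 ∂AddCircle.haarAddCircle < ε := by
    intro ε hε
    obtain ⟨K', _, hK'⟩ := hB12 (Alg E u) (tauG E u (b 0)) hτ S (Real.sqrt ε)
      (Real.sqrt_pos.mpr hε)
    refine ⟨K', fun k hk m hm r => ?_⟩
    rw [hyd]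
    have h1 := hK' k hk m hm
    have h0 : 0 ≤ n2 (tauG E u (b 0)) (AA k - AA m) := Real.sqrt_nonneg _
    calc _ < (Real.sqrt ε) ^ 2 := by
          apply pow_lt_pow_left₀ h1 h0 two_ne_zero
      _ = ε := Real.sq_sqrt hε.le
  obtain ⟨φ, y', hφ, hy'mem, hae, hL2⟩ := hG7 H y hycont hcauchy
  set K0 : ℕ := max K 1 with hK0
  set ψ : ℕ → ℕ := fun i => φ (i + K0) with hψ
  have hψmono : StrictMono ψ := fun i j hij => hφ (by omega)
  have hψK : ∀ i, K0 ≤ ψ i := fun i => le_trans (Nat.le_add_left K0 i) (hφ.id_le (i + K0))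
  have hψ1 : ∀ i, 1 ≤ ψ i := fun i => le_trans (le_max_right _ _) (hψK i)
  have hae' : ∀ᵐ θ ∂AddCircle.haarAddCircle, ∀ r,
      Tendsto (fun i => y (ψ i) r θ) atTop (𝓝 (y' r θ)) := by
    filter_upwards [hae] with θ hθ r
    exact (hθ r).comp (tendsto_add_atTop_nat K0)
  have hL2' : ∀ r, Tendsto (fun i => ∫ θ, ‖evG E u θ (AA (ψ i)) (b r) - y' r θ‖ ^ 2
      ∂AddCircle.haarAddCircle) atTop (𝓝 0) := fun r =>
    (hL2 r).comp (tendsto_add_atTop_nat K0)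
  -- trace of L_k is zero
  have htr : ∀ k : ℕ, (tauG E u (b 0) (Lg (ex (k : ℂ) S))).re = 0 := by
    intro k
    have h1 := hB13 (Alg E u) (tauG E u (b 0)) hτ ((k : ℂ) • S)
    have h2 : tauG E u (b 0) S = 0 := hG6 H E u (b 0) T hT
    have h3 : tauG E u (b 0) ((k : ℂ) • S) = 0 := by
      have := (tauG E u (b 0)).map_smul (k : ℂ) S
      rw [this, h2, smul_zero]
    rw [h3] at h1
    simpa [ex] using h1
  have htrA : ∀ i, (tauG E u (b 0) (AA (ψ i))).re = 0 := by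
    intro i
    have h1 : AA (ψ i) = ((1/(ψ i:ℝ) : ℝ) : ℂ) • Lg (ex (ψ i : ℂ) S) := by
      rw [Complex.coe_smul]
    have h2 := (tauG E u (b 0)).map_smul ((1/(ψ i:ℝ) : ℝ) : ℂ) (Lg (ex (ψ i : ℂ) S))
    rw [h1, h2, smul_eq_mul, Complex.re_ofReal_mul, htr, mul_zero]
  have hsaA : ∀ i, IsSelfAdjoint (AA (ψ i)) := by
    intro i
    exact IsSelfAdjoint.smul (IsSelfAdjoint.all _) ((hB4v (Alg E u)).1 _)
  have hlowL2 : ∃ c > (0:ℝ), ∀ i,
      c ≤ ∫ θ, ‖evG E u θ (AA (ψ i)) (b 0)‖ ^ 2 ∂AddCircle.haarAddCircle := by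
    refine ⟨c ^ 2, by positivity, fun i => ?_⟩
    rw [← hG2]
    have h1 : c ≤ n2 (tauG E u (b 0)) (AA (ψ i)) := by
      have h2 := hK (ψ i) (le_trans (le_max_left _ _) (hψK i))
      have h3 : n2 (tauG E u (b 0)) (AA (ψ i))
          = |(1/(ψ i:ℝ))| * NN (tauG E u (b 0)) (ex (ψ i : ℂ) S) :=
        (hB1 (Alg E u) (tauG E u (b 0)) hτ).2.2.2.1 _ _
      rw [h3]
      have h4 : (0:ℝ) < ψ i := by exact_mod_cast (hψ1 i)
      rw [abs_of_pos (by positivity)]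
      calc c = 1 / (ψ i : ℝ) * (c * ψ i) := by field_simp
        _ ≤ _ := by gcongr
    gcongr
  have hnot := hG9 H b E u hD hper (fun i => AA (ψ i)) y' hy'mem hL2' htrA hsaA hlowL2
  -- a good point
  obtain ⟨θ, hθ, hθns⟩ : ∃ θ, (∀ r, Tendsto (fun i => y (ψ i) r θ) atTop (𝓝 (y' r θ))) ∧
      ¬ ∃ z : ℂ, ∀ r : ℤ, y' r θ = z • b r := by
    by_contra hcon
    apply hnot
    filter_upwards [hae'] with θ hθ
    by_contra h
    exact hcon ⟨θ, hθ, h⟩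
  have hAform : ∀ i, evG E u θ (AA (ψ i))
      = (1/(ψ i:ℝ)) • Lg (ex (ψ i : ℂ) ((fourier 1 θ : ℂ) • T)) := by
    intro i
    show evG E u θ ((1/(ψ i:ℝ)) • Lg (ex (ψ i : ℂ) S)) = _
    rw [hevsmul, (hG4 H E u T hT (ψ i) θ).1]
  have hAnorm : ∀ i, ‖evG E u θ (AA (ψ i))‖ ≤ 2 * ‖T‖ := by
    intro i
    rw [hAform, norm_smul]
    have h1 := (hG4 H E u T hT (ψ i) θ).2
    have h4 : (0:ℝ) < ψ i := by exact_mod_cast (hψ1 i)
    rw [Real.norm_eq_abs, abs_of_pos (by positivity)]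
    calc 1 / (ψ i : ℝ) * _ ≤ 1 / (ψ i : ℝ) * (2 * ψ i * ‖T‖) := by gcongr
      _ = 2 * ‖T‖ := by field_simp
  obtain ⟨X, hX⟩ := hC8 H b (fun i => evG E u θ (AA (ψ i))) (2 * ‖T‖) hAnorm
    (fun r => ⟨_, hθ r⟩)
  have hXr : ∀ r : ℤ, X (b r) = y' r θ := fun r => tendsto_nhds_unique (hX (b r)) (hθ r)
  have hns : ¬ ∃ c : ℂ, X = c • 1 := by
    rintro ⟨z, hz⟩
    apply hθns
    refine ⟨z, fun r => ?_⟩
    rw [← hXr, hz]
    simp
  obtain ⟨V, hVc, hVb, hVt, hVi⟩ := hC12 H ((fourier 1 θ : ℂ) • T) ψ hψmono hψ1 X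
    (fun v => by
      have h1 := hX v
      simp_rw [hAform] at h1
      exact h1) hns
  refine ⟨V, hVc, hVb, hVt, fun R hR v hv => ?_⟩
  refine hVi R ?_ v hv
  rw [mul_smul_comm, smul_mul_assoc, hR]

end Pool.Agent.H417B
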