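import Pool.Agent.H417B.Stmts

/-!
GU: the constants `E^r`.
-/

set_option autoImplicit false
open scoped ComplexConjugate InnerProductSpace Topology
open Filter MeasureTheory NormedSpace

namespace Pool.Agent.H417B
open Pool.Agent.H712R5.BO

theorem GU_pow {H : Type} [NormedAddCommGroup H] [InnerProductSpace ℂ H] [CompleteSpace H]
    (b : HilbertBasis ℤ ℂ H) (E : unitary (H →L[ℂ] H))
    (hE : ∀ r : ℤ, (E : H →L[ℂ] H) (b r) = b (r + 1)) (r : ℤ) :
    ((E ^ r : unitary (H →L[ℂ] H)) : H →L[ℂ] H) (b 0) = b r := by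
  have hinv : ∀ s : ℤ, ((E⁻¹ : unitary (H →L[ℂ] H)) : H →L[ℂ] H) (b (s + 1)) = b s := by
    intro s
    have h1 : ((E⁻¹ : unitary (H →L[ℂ] H)) : H →L[ℂ] H) * (E : H →L[ℂ] H) = 1 := by
      have h2 : (E⁻¹ * E : unitary (H →L[ℂ] H)) = 1 := inv_mul_cancel E
      exact congrArg (fun U : unitary (H →L[ℂ] H) => (U : H →L[ℂ] H)) h2
    have h4 := congrArg (fun T : H →L[ℂ] H => T (b s)) h1
    simp only [ContinuousLinearMap.mul_apply, ContinuousLinearMap.one_apply] at h4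
    rw [hE s] at h4
    exact h4
  induction r using Int.induction_on with
  | zero => simp
  | succ i ih =>
    have h1 : (E ^ ((i : ℤ) + 1) : unitary (H →L[ℂ] H)) = E * E ^ (i : ℤ) := by
      rw [add_comm, zpow_one_add]
    rw [h1]
    show ((E : H →L[ℂ] H) * ((E ^ (i : ℤ) : unitary (H →L[ℂ] H)) : H →L[ℂ] H)) (b 0) = _
    rw [ContinuousLinearMap.mul_apply, ih, hE]
  | pred i ih =>
    have h1 : (E ^ (-(i : ℤ) - 1) : unitary (H →L[ℂ] H)) = E⁻¹ * E ^ (-(i : ℤ)) := by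
      rw [← zpow_neg_one E, ← zpow_add]
      congr 1
      ring
    rw [h1]
    show (((E⁻¹ : unitary (H →L[ℂ] H)) : H →L[ℂ] H) *
      ((E ^ (-(i : ℤ)) : unitary (H →L[ℂ] H)) : H →L[ℂ] H)) (b 0) = _
    rw [ContinuousLinearMap.mul_apply, ih]
    have h2 := hinv (-(i : ℤ) - 1)
    rwa [sub_add_cancel] at h2

theorem t_GU : P_GU := by
  intro H _ _ _ b E u hD r
  have hcomm : ((E ^ r : unitary (H →L[ℂ] H)) : H →L[ℂ] H) * (E : H →L[ℂ] H) =
      (E : H →L[ℂ] H) * ((E ^ r : unitary (H →L[ℂ] H)) : H →L[ℂ] H) := by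
    have h2 : (E ^ r * E : unitary (H →L[ℂ] H)) = E * E ^ r :=
      ((Commute.refl E).zpow_left r).eq
    exact congrArg (fun U : unitary (H →L[ℂ] H) => (U : H →L[ℂ] H)) h2
  have hU := Unitary.mem_iff.mp (E ^ r : unitary (H →L[ℂ] H)).2
  let G0 : C(UnitAddCircle, H →L[ℂ] H) :=
    ContinuousMap.const _ ((E ^ r : unitary (H →L[ℂ] H)) : H →L[ℂ] H)
  have hG0 : G0 ∈ Wd E u := by
    refine ⟨0, ((E ^ r : unitary (H →L[ℂ] H)) : H →L[ℂ] H), hcomm, fun θ => ?_⟩
    show ((E ^ r : unitary (H →L[ℂ] H)) : H →L[ℂ] H) = _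
    rw [fourier_zero, one_smul, zpow_zero]
    simp
  refine ⟨⟨G0, Wd_subset_Alg E u hG0⟩, ?_, fun θ => ?_⟩
  · rw [Unitary.mem_iff]
    constructor
    · apply Subtype.ext
      apply ContinuousMap.ext
      intro θ
      exact hU.1
    · apply Subtype.ext
      apply ContinuousMap.ext
      intro θ
      exact hU.2
  · exact GU_pow b E hD.hE r

end Pool.Agent.H417B
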