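import Pool.Agent.H417B.Stmts3

/-! Quasi-similarity and hyperinvariant subspaces; transfer to `(0,1)` (helper417). -/

set_option autoImplicit false
open scoped ComplexConjugate InnerProductSpace Topology
open Filter MeasureTheory NormedSpace

namespace Pool.Agent.H417B
open Pool.Agent.H712R5.BO

/-- hyperinvariant subspaces pass to quasi-similar operators -/
theorem QS_transfer {H K : Type} [NormedAddCommGroup H] [InnerProductSpace ℂ H] [CompleteSpace H]
    [NormedAddCommGroup K] [InnerProductSpace ℂ K] [CompleteSpace K]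
    (A : H →L[ℂ] H) (B : K →L[ℂ] K) (X : H →L[ℂ] K) (Y : K →L[ℂ] H)
    (hX : Function.Injective X) (hY : DenseRange Y)
    (hXA : X.comp A = B.comp X) (hAY : A.comp Y = Y.comp B)
    (V : Submodule ℂ H) (hVc : IsClosed (V : Set H)) (hVb : V ≠ ⊥) (hVt : V ≠ ⊤)
    (hV : ∀ R : H →L[ℂ] H, R * A = A * R → ∀ v ∈ V, R v ∈ V) :
    ∃ W : Submodule ℂ K, IsClosed (W : Set K) ∧ W ≠ ⊥ ∧ W ≠ ⊤ ∧
      ∀ R : K →L[ℂ] K, R * B = B * R → ∀ w ∈ W, R w ∈ W := by
  let I : Type := {Q : K →L[ℂ] K // Q * B = B * Q}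
  let W0 : Submodule ℂ K := Submodule.span ℂ {w | ∃ (Q : I) (v : H), v ∈ V ∧ w = Q.1 (X v)}
  have hYW0 : ∀ w ∈ W0, Y w ∈ V := by
    intro w hw
    induction hw using Submodule.span_induction with
    | mem w hw =>
      obtain ⟨Q, v, hv, rfl⟩ := hw
      have h1 := hV ((Y.comp Q.1).comp X) (by
        ext x
        show Y (Q.1 (X (A x))) = A (Y (Q.1 (X x)))
        have e1 : X (A x) = B (X x) := congrArg (fun F : H →L[ℂ] K => F x) hXA
        have e2 : Q.1 (B (X x)) = B (Q.1 (X x)) :=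
          congrArg (fun F : K →L[ℂ] K => F (X x)) Q.2
        have e3 : A (Y (Q.1 (X x))) = Y (B (Q.1 (X x))) :=
          congrArg (fun F : K →L[ℂ] H => F (Q.1 (X x))) hAY
        rw [e1, e2, e3]) v hv
      exact h1
    | zero => rw [map_zero]; exact V.zero_mem
    | add x y _ _ hx hy => rw [map_add]; exact V.add_mem hx hy
    | smul c x _ hx => rw [map_smul]; exact V.smul_mem c hx
  refine ⟨W0.topologicalClosure, Submodule.isClosed_topologicalClosure _, ?_, ?_, ?_⟩
  · intro h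
    apply hVb
    rw [Submodule.eq_bot_iff]
    intro v hv
    have h1 : X v ∈ W0.topologicalClosure :=
      Submodule.le_topologicalClosure _ (Submodule.subset_span
        ⟨⟨1, by rw [one_mul, mul_one]⟩, v, hv, rfl⟩)
    rw [h, Submodule.mem_bot] at h1
    exact hX (h1.trans (map_zero X).symm)
  · intro h
    apply hVt
    have h1 : ∀ w : K, Y w ∈ V := by
      intro w
      have h2 : w ∈ W0.topologicalClosure := by rw [h]; trivial
      have h3 : Set.MapsTo Y (W0 : Set K) (V : Set H) := fun x hx => hYW0 x hx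
      have h4 := h3.closure Y.continuous h2
      rwa [hVc.closure_eq] at h4
    rw [Submodule.eq_top_iff']
    intro x
    have h5 : x ∈ closure (Set.range Y) := hY x
    have h6 : closure (Set.range Y) ⊆ (V : Set H) := by
      apply closure_minimal _ hVc
      rintro _ ⟨w, rfl⟩
      exact h1 w
    exact h6 h5
  · intro R hR w hw
    have h0 : ∀ w ∈ W0, R w ∈ W0 := by
      intro w hw
      induction hw using Submodule.span_induction with
      | mem w hw =>
        obtain ⟨Q, v, hv, rfl⟩ := hw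
        refine Submodule.subset_span ⟨⟨R * Q.1, ?_⟩, v, hv, rfl⟩
        rw [mul_assoc, Q.2, ← mul_assoc, hR, mul_assoc]
      | zero => rw [map_zero]; exact W0.zero_mem
      | add x y _ _ hx hy => rw [map_add]; exact W0.add_mem hx hy
      | smul c x _ hx => rw [map_smul]; exact W0.smul_mem c hx
    have h1 : Set.MapsTo R (W0 : Set K) (W0 : Set K) := fun x hx => h0 x hx
    exact h1.closure R.continuous hw

theorem QS_res (h1 : P_WFINH) (m : Measure ℝ) (hm : m = volume.restrict (Set.Ico (0:ℝ) 1)) :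
    ∀ T : ℝ → ℝ, MeasurePreserving T m m →
    (∀ n : ℕ, 1 ≤ n → ¬ (∀ᵐ x ∂m, T^[n] x = x)) →
    ∀ (φ : ℝ → ℂ) (R : ℝ), Measurable φ → (∀ x, ‖φ x‖ ≤ R) → (∀ᵐ x ∂m, φ x ≠ 0) →
    Integrable (fun x => Real.log ‖φ x‖) m →
    ∀ A : Lp ℂ (2 : ENNReal) m →L[ℂ] Lp ℂ (2 : ENNReal) m,
    (∀ f : Lp ℂ (2 : ENNReal) m, (A f : ℝ → ℂ) =ᵐ[m] fun x => φ x * (f : ℝ → ℂ) (T x)) →
    ∃ V : Submodule ℂ (Lp ℂ (2 : ENNReal) m),
      IsClosed (V : Set (Lp ℂ (2 : ENNReal) m)) ∧ V ≠ ⊥ ∧ V ≠ ⊤ ∧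
      ∀ B : Lp ℂ (2 : ENNReal) m →L[ℂ] Lp ℂ (2 : ENNReal) m, B * A = A * B →
        ∀ v ∈ V, B v ∈ V := by
  subst hm
  intro T hT hap φ R hm hb hn hi A hA
  exact h1 T hT hap φ R ⟨hm, hb, hn, hi⟩ A hA

end Pool.Agent.H417B
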