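import Pool.Agent.H417B.Stmts

set_option autoImplicit false
open scoped ComplexConjugate InnerProductSpace Topology
open Filter MeasureTheory NormedSpace

namespace Pool.Agent.H417B
open Pool.Agent.H712R5.BO

theorem res_aux (h1 : P_YFIN) (m : Measure ℝ) (hm : m = volume.restrict (Set.Ico (0:ℝ) 1)) :
    ∀ T : ℝ → ℝ, MeasurePreserving T m m →
    ∀ A : Lp ℂ (2 : ENNReal) m →L[ℂ] Lp ℂ (2 : ENNReal) m,
    (∀ f : Lp ℂ (2 : ENNReal) m, (A f : ℝ → ℂ) =ᵐ[m] fun x => (x : ℂ) * (f : ℝ → ℂ) (T x)) →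
    ∃ V : Submodule ℂ (Lp ℂ (2 : ENNReal) m),
      IsClosed (V : Set (Lp ℂ (2 : ENNReal) m)) ∧ V ≠ ⊥ ∧ V ≠ ⊤ ∧ ∀ v ∈ V, A v ∈ V := by
  subst hm
  intro T hT A hA
  exact h1 T hT A hA

theorem t_RES (h1 : P_YFIN) : P_RES := by
  have hm : volume.restrict (Set.Ioo (0:ℝ) 1) = volume.restrict (Set.Ico (0:ℝ) 1) :=
    Measure.restrict_congr_set Ioo_ae_eq_Ico
  intro T hT A hA
  exact res_aux h1 _ hm T hT A hA

end Pool.Agent.H417B
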