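import Pool.Agent.H417B.Defs

/-!
Statements (Props) of the tasks.  Prove `theorem t_XX : P_XX` (other Props may be used as hypotheses only
if the task says so).
-/

set_option autoImplicit false
open scoped ComplexConjugate InnerProductSpace Topology
open Filter MeasureTheory NormedSpace

namespace Pool.Agent.H417B
open Pool.Agent.H712R5.BO

/-! ## The algebra -/

/-- G1a: the commutant of `E` is commutative -/
def P_G1a : Prop := ∀ (H : Type) [NormedAddCommGroup H] [InnerProductSpace ℂ H] [CompleteSpace H]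
  (b : HilbertBasis ℤ ℂ H) (E : unitary (H →L[ℂ] H)),
  (∀ r : ℤ, (E : H →L[ℂ] H) (b r) = b (r + 1)) → ∀ f g : H →L[ℂ] H,
  f * (E : H →L[ℂ] H) = (E : H →L[ℂ] H) * f → g * (E : H →L[ℂ] H) = (E : H →L[ℂ] H) * g →
  f * g = g * f

/-- G1b: `u^n f u^{-n}` and `f*` commute with `E` -/
def P_G1b : Prop := ∀ (H : Type) [NormedAddCommGroup H] [InnerProductSpace ℂ H] [CompleteSpace H]
  (b : HilbertBasis ℤ ℂ H) (E u : unitary (H →L[ℂ] H)), Dat b E u → ∀ f : H →L[ℂ] H,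
  f * (E : H →L[ℂ] H) = (E : H →L[ℂ] H) * f →
  star f * (E : H →L[ℂ] H) = (E : H →L[ℂ] H) * star f ∧
  ∀ n : ℤ, ((u ^ n : unitary (H →L[ℂ] H)) : H →L[ℂ] H) * f
      * star ((u ^ n : unitary (H →L[ℂ] H)) : H →L[ℂ] H) * (E : H →L[ℂ] H)
    = (E : H →L[ℂ] H) * (((u ^ n : unitary (H →L[ℂ] H)) : H →L[ℂ] H) * f
      * star ((u ^ n : unitary (H →L[ℂ] H)) : H →L[ℂ] H))

/-- G1c: the span of the words is dense in `Alg` -/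
def P_G1c : Prop := ∀ (H : Type) [NormedAddCommGroup H] [InnerProductSpace ℂ H] [CompleteSpace H]
  (b : HilbertBasis ℤ ℂ H) (E u : unitary (H →L[ℂ] H)), Dat b E u →
  ∀ A ∈ Alg E u, A ∈ closure ((Submodule.span ℂ (Wd E u) :
    Submodule ℂ C(UnitAddCircle, H →L[ℂ] H)) : Set C(UnitAddCircle, H →L[ℂ] H))

/-- G1d: the trace property for words -/
def P_G1d : Prop := ∀ (H : Type) [NormedAddCommGroup H] [InnerProductSpace ℂ H] [CompleteSpace H]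
  (b : HilbertBasis ℤ ℂ H) (E u : unitary (H →L[ℂ] H)), Dat b E u →
  ∀ A ∈ Wd E u, ∀ B ∈ Wd E u,
  ∫ θ, ⟪b 0, (A θ * B θ) (b 0)⟫_ℂ ∂AddCircle.haarAddCircle
    = ∫ θ, ⟪b 0, (B θ * A θ) (b 0)⟫_ℂ ∂AddCircle.haarAddCircle

/-- G1: `tauG` is a tracial state -/
def P_G1 : Prop := ∀ (H : Type) [NormedAddCommGroup H] [InnerProductSpace ℂ H] [CompleteSpace H]
  (b : HilbertBasis ℤ ℂ H) (E u : unitary (H →L[ℂ] H)), Dat b E u → TrSt (tauG E u (b 0))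

/-- G2: the 2-norm in `Alg` is an integral -/
def P_G2 : Prop := ∀ (H : Type) [NormedAddCommGroup H] [InnerProductSpace ℂ H] [CompleteSpace H]
  (E u : unitary (H →L[ℂ] H)) (v : H) (A : Alg E u),
  (n2 (tauG E u v) A) ^ 2 = ∫ θ, ‖evG E u θ A v‖ ^ 2 ∂AddCircle.haarAddCircle

/-- G3: rotation invariance of `NN (exp(k z T))` -/
def P_G3 : Prop := ∀ (H : Type) [NormedAddCommGroup H] [InnerProductSpace ℂ H] [CompleteSpace H]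
  (E u : unitary (H →L[ℂ] H)) (v : H) (T : H →L[ℂ] H)
  (hT : T * star (u : H →L[ℂ] H) * (E : H →L[ℂ] H)
    = (E : H →L[ℂ] H) * (T * star (u : H →L[ℂ] H))) (k M j : ℕ),
  NN (tauG E u v) (ex (k * rt M j) (TtG E u T hT)) = NN (tauG E u v) (ex (k : ℂ) (TtG E u T hT))

/-- G4: evaluation of `Lg`, and norm bound -/
def P_G4 : Prop := ∀ (H : Type) [NormedAddCommGroup H] [InnerProductSpace ℂ H] [CompleteSpace H]
  (E u : unitary (H →L[ℂ] H)) (T : H →L[ℂ] H)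
  (hT : T * star (u : H →L[ℂ] H) * (E : H →L[ℂ] H)
    = (E : H →L[ℂ] H) * (T * star (u : H →L[ℂ] H))) (k : ℕ)
  (θ : UnitAddCircle),
  evG E u θ (Lg (ex (k : ℂ) (TtG E u T hT))) = Lg (ex (k : ℂ) ((fourier 1 θ : ℂ) • T)) ∧
  ‖Lg (ex (k : ℂ) ((fourier 1 θ : ℂ) • T))‖ ≤ 2 * k * ‖T‖

/-- G5: the trace of `log (δ + |T^k|^2)` -/
def P_G5 : Prop := ∀ (H : Type) [NormedAddCommGroup H] [InnerProductSpace ℂ H] [CompleteSpace H]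
  (E u : unitary (H →L[ℂ] H)) (v : H) (T : H →L[ℂ] H)
  (hT : T * star (u : H →L[ℂ] H) * (E : H →L[ℂ] H)
    = (E : H →L[ℂ] H) * (T * star (u : H →L[ℂ] H))) (k : ℕ) (δ : ℝ),
  0 < δ →
  tauG E u v (CFC.log (algebraMap ℝ (Alg E u) δ + star ((TtG E u T hT) ^ k) * (TtG E u T hT) ^ k))
    = ⟪v, CFC.log (algebraMap ℝ (H →L[ℂ] H) δ + star (T ^ k) * T ^ k) v⟫_ℂ

/-- G6: the trace of `T` vanishes -/
def P_G6 : Prop := ∀ (H : Type) [NormedAddCommGroup H] [InnerProductSpace ℂ H] [CompleteSpace H]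
  (E u : unitary (H →L[ℂ] H)) (v : H) (T : H →L[ℂ] H)
  (hT : T * star (u : H →L[ℂ] H) * (E : H →L[ℂ] H)
    = (E : H →L[ℂ] H) * (T * star (u : H →L[ℂ] H))),
  tauG E u v (TtG E u T hT) = 0

/-- GU: the constants `E^r` -/
def P_GU : Prop := ∀ (H : Type) [NormedAddCommGroup H] [InnerProductSpace ℂ H] [CompleteSpace H]
  (b : HilbertBasis ℤ ℂ H) (E u : unitary (H →L[ℂ] H)), Dat b E u → ∀ r : ℤ,
  ∃ G ∈ unitary (Alg E u), ∀ θ, evG E u θ G (b 0) = b r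

/-- G7: simultaneous a.e. convergence along a subsequence -/
def P_G7 : Prop := ∀ (H : Type) [NormedAddCommGroup H] [InnerProductSpace ℂ H] [CompleteSpace H]
  (y : ℕ → ℤ → UnitAddCircle → H), (∀ k r, Continuous (y k r)) →
  (∀ ε > (0:ℝ), ∃ K : ℕ, ∀ k ≥ K, ∀ m ≥ K, ∀ r : ℤ,
    ∫ θ, ‖y k r θ - y m r θ‖ ^ 2 ∂AddCircle.haarAddCircle < ε) →
  ∃ (φ : ℕ → ℕ) (y' : ℤ → UnitAddCircle → H), StrictMono φ ∧
    (∀ r, MemLp (y' r) 2 AddCircle.haarAddCircle) ∧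
    (∀ᵐ θ ∂AddCircle.haarAddCircle, ∀ r, Tendsto (fun i => y (φ i) r θ) atTop (𝓝 (y' r θ))) ∧
    (∀ r, Tendsto (fun i => ∫ θ, ‖y (φ i) r θ - y' r θ‖ ^ 2 ∂AddCircle.haarAddCircle)
      atTop (𝓝 0))

/-- G9a: Fourier coefficients of an element of `Alg` -/
def P_G9a : Prop := ∀ (H : Type) [NormedAddCommGroup H] [InnerProductSpace ℂ H] [CompleteSpace H]
  (b : HilbertBasis ℤ ℂ H) (E u : unitary (H →L[ℂ] H)), Dat b E u → ∀ A : Alg E u, ∀ n r : ℤ,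
  ∫ θ, (fourier (-n) θ : ℂ) • evG E u θ A (b r) ∂AddCircle.haarAddCircle
    = (((u ^ n * E ^ r * (u ^ n)⁻¹ : unitary (H →L[ℂ] H)) : H →L[ℂ] H))
      (∫ θ, (fourier (-n) θ : ℂ) • evG E u θ A (b 0) ∂AddCircle.haarAddCircle)

/-- G9b: a function with all nonzero Fourier coefficients `0` is constant -/
def P_G9b : Prop := ∀ c : UnitAddCircle → ℂ, MemLp c 2 AddCircle.haarAddCircle →
  (∀ n : ℤ, n ≠ 0 → ∫ θ, (fourier (-n) θ : ℂ) * c θ ∂AddCircle.haarAddCircle = 0) →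
  ∃ c0 : ℂ, ∀ᵐ θ ∂AddCircle.haarAddCircle, c θ = c0

/-- G9c: convergence of Fourier coefficients -/
def P_G9c : Prop := ∀ (H : Type) [NormedAddCommGroup H] [InnerProductSpace ℂ H] [CompleteSpace H]
  (y : ℕ → UnitAddCircle → H) (y' : UnitAddCircle → H), (∀ i, Continuous (y i)) →
  MemLp y' 2 AddCircle.haarAddCircle →
  Tendsto (fun i => ∫ θ, ‖y i θ - y' θ‖ ^ 2 ∂AddCircle.haarAddCircle) atTop (𝓝 0) → ∀ n : ℤ,
  Tendsto (fun i => ∫ θ, (fourier n θ : ℂ) • y i θ ∂AddCircle.haarAddCircle) atTop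
    (𝓝 (∫ θ, (fourier n θ : ℂ) • y' θ ∂AddCircle.haarAddCircle))

/-- G9: the limit is not scalar for almost every `θ` -/
def P_G9 : Prop := ∀ (H : Type) [NormedAddCommGroup H] [InnerProductSpace ℂ H] [CompleteSpace H]
  (b : HilbertBasis ℤ ℂ H) (E u : unitary (H →L[ℂ] H)), Dat b E u →
  (∀ n : ℤ, n ≠ 0 → u ^ n ≠ 1) → ∀ (A : ℕ → Alg E u) (y' : ℤ → UnitAddCircle → H),
  (∀ r, MemLp (y' r) 2 AddCircle.haarAddCircle) →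
  (∀ r, Tendsto (fun i => ∫ θ, ‖evG E u θ (A i) (b r) - y' r θ‖ ^ 2 ∂AddCircle.haarAddCircle)
    atTop (𝓝 0)) →
  (∀ i, (tauG E u (b 0) (A i)).re = 0) → (∀ i, IsSelfAdjoint (A i)) →
  (∃ c > (0:ℝ), ∀ i, c ≤ ∫ θ, ‖evG E u θ (A i) (b 0)‖ ^ 2 ∂AddCircle.haarAddCircle) →
  ¬ (∀ᵐ θ ∂AddCircle.haarAddCircle, ∃ z : ℂ, ∀ r : ℤ, y' r θ = z • b r)

/-- GMAIN: the abstract theorem -/
def P_GMAIN : Prop := ∀ (H : Type) [NormedAddCommGroup H] [InnerProductSpace ℂ H] [CompleteSpace H]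
  (b : HilbertBasis ℤ ℂ H) (E u : unitary (H →L[ℂ] H)), Dat b E u →
  (∀ n : ℤ, n ≠ 0 → u ^ n ≠ 1) → ∀ T : H →L[ℂ] H,
  T * star (u : H →L[ℂ] H) * (E : H →L[ℂ] H) = (E : H →L[ℂ] H) * (T * star (u : H →L[ℂ] H)) →
  ‖T‖ ≤ 3 →
  (∀ (k : ℕ) (δ : ℝ), 1 ≤ k → 0 < δ →
    0 ≤ (⟪b 0, CFC.log (algebraMap ℝ (H →L[ℂ] H) δ + star (T ^ k) * T ^ k) (b 0)⟫_ℂ).re) →
  ∃ V : Submodule ℂ H, IsClosed (V : Set H) ∧ V ≠ ⊥ ∧ V ≠ ⊤ ∧ ∀ v ∈ V, T v ∈ V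

/-! ## Bishop operators -/

/-- Lebesgue measure on `[0,1)` -/
noncomputable abbrev mu : Measure ℝ := volume.restrict (Set.Ico (0:ℝ) 1)

/-- `u f = f ∘ S` -/
def Koop (S : ℝ → ℝ) (u : LI →L[ℂ] LI) : Prop :=
  ∀ f : LI, (u f : ℝ → ℂ) =ᵐ[mu] fun x => (f : ℝ → ℂ) (S x)

/-- `A f (x) = x f(Sx)` -/
def Bis (S : ℝ → ℝ) (A : LI →L[ℂ] LI) : Prop :=
  ∀ f : LI, (A f : ℝ → ℂ) =ᵐ[mu] fun x => (x : ℂ) * (f : ℝ → ℂ) (S x)

/-- `m` is multiplication by `g` -/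
def Mul (g : ℝ → ℂ) (m : LI →L[ℂ] LI) : Prop :=
  ∀ f : LI, (m f : ℝ → ℂ) =ᵐ[mu] fun x => g x * (f : ℝ → ℂ) x

/-- Y1: existence of the Koopman operator (an isometry) -/
def P_Y1 : Prop := ∀ S : ℝ → ℝ, MeasurePreserving S mu mu →
  ∃ u : LI →L[ℂ] LI, Koop S u ∧ ∀ f, ‖u f‖ = ‖f‖

/-- Y2: if the range of `A` is dense then `u` is surjective -/
def P_Y2 : Prop := ∀ S : ℝ → ℝ, MeasurePreserving S mu mu → ∀ u A : LI →L[ℂ] LI, Koop S u →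
  Bis S A → Dense (Set.range A) → Function.Surjective u

/-- Y3: the periodic case -/
def P_Y3 : Prop := ∀ S : ℝ → ℝ, MeasurePreserving S mu mu → ∀ u A : LI →L[ℂ] LI, Koop S u →
  Bis S A → ∀ n : ℕ, 1 ≤ n → u ^ n = 1 →
  ∃ V : Submodule ℂ LI, IsClosed (V : Set LI) ∧ V ≠ ⊥ ∧ V ≠ ⊤ ∧ ∀ v ∈ V, A v ∈ V

/-- Y4: two multiplication operators commute -/
def P_Y4 : Prop := ∀ (g h : ℝ → ℂ) (m n : LI →L[ℂ] LI), Mul g m → Mul h n → m * n = n * m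

/-- Y5: `u m = m' u` where `m'` is multiplication by `g ∘ S`; adjoint of a multiplication operator -/
def P_Y5 : Prop := ∀ S : ℝ → ℝ, MeasurePreserving S mu mu → ∀ u : LI →L[ℂ] LI, Koop S u →
  (∀ (g : ℝ → ℂ) (m : LI →L[ℂ] LI), Mul g m → ∀ f : LI,
    (u (m f) : ℝ → ℂ) =ᵐ[mu] fun x => g (S x) * (u f : ℝ → ℂ) x) ∧
  (∀ (g : ℝ → ℂ) (m : LI →L[ℂ] LI), Mul g m → Mul (fun x => conj (g x)) (star m))

/-- Y6: the hypotheses of `GMAIN` for `T = e A*`, with `star u` in the place of `u` -/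
def P_Y6 : Prop := ∀ S : ℝ → ℝ, MeasurePreserving S mu mu → ∀ (b : HilbertBasis ℤ ℂ LI)
  (E u : unitary (LI →L[ℂ] LI)) (A : LI →L[ℂ] LI), Koop S (u : LI →L[ℂ] LI) → Bis S A →
  (∀ r : ℤ, (b r : ℝ → ℂ) =ᵐ[mu] (fun x => Complex.exp (2 * Real.pi * Complex.I * r * x))) →
  Mul (fun x => Complex.exp (2 * Real.pi * Complex.I * x)) (E : LI →L[ℂ] LI) →
  Dat b E (star u) ∧
  ((Real.exp 1 : ℂ) • star A) * star ((star u : unitary (LI →L[ℂ] LI)) : LI →L[ℂ] LI)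
      * (E : LI →L[ℂ] LI)
    = (E : LI →L[ℂ] LI) * (((Real.exp 1 : ℂ) • star A)
      * star ((star u : unitary (LI →L[ℂ] LI)) : LI →L[ℂ] LI)) ∧
  ‖(Real.exp 1 : ℂ) • star A‖ ≤ 3

/-- `x` clamped to `[0,1]` -/
noncomputable def cl (x : ℝ) : ℝ := max 0 (min 1 x)

/-- Y7: `|T^k|^2` for `T = e A*` is a multiplication operator -/
def P_Y7 : Prop := ∀ S : ℝ → ℝ, MeasurePreserving S mu mu → ∀ (u : unitary (LI →L[ℂ] LI))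
  (A : LI →L[ℂ] LI), Koop S (u : LI →L[ℂ] LI) → Bis S A → ∀ k : ℕ,
  Mul (fun x => ((∏ j ∈ Finset.range k, (Real.exp 1 * cl (S^[j] x)) ^ 2 : ℝ) : ℂ))
    (star (((Real.exp 1 : ℂ) • star A) ^ k) * ((Real.exp 1 : ℂ) • star A) ^ k)

/-- Y8: log-integral lower bound -/
def P_Y8 : Prop := ∀ S : ℝ → ℝ, MeasurePreserving S mu mu → ∀ (k : ℕ) (δ : ℝ), 0 < δ →
  0 ≤ ∫ x in Set.Ico (0:ℝ) 1, Real.log (δ + ∏ j ∈ Finset.range k, (Real.exp 1 * cl (S^[j] x)) ^ 2)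

/-- Y9: the log hypothesis of `GMAIN` -/
def P_Y9 : Prop := ∀ S : ℝ → ℝ, MeasurePreserving S mu mu → ∀ (u : unitary (LI →L[ℂ] LI))
  (A : LI →L[ℂ] LI) (v : LI), Koop S (u : LI →L[ℂ] LI) → Bis S A →
  (v : ℝ → ℂ) =ᵐ[mu] (fun _ => 1) → ∀ (k : ℕ) (δ : ℝ), 0 < δ →
  0 ≤ (⟪v, CFC.log (algebraMap ℝ (LI →L[ℂ] LI) δ
    + star (((Real.exp 1 : ℂ) • star A) ^ k) * ((Real.exp 1 : ℂ) • star A) ^ k) v⟫_ℂ).re

/-- YFIN: every Bishop operator -/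
def P_YFIN : Prop := ∀ S : ℝ → ℝ, MeasurePreserving S mu mu → ∀ A : LI →L[ℂ] LI, Bis S A →
  ∃ V : Submodule ℂ LI, IsClosed (V : Set LI) ∧ V ≠ ⊥ ∧ V ≠ ⊤ ∧ ∀ v ∈ V, A v ∈ V

/-- RES: the statement of the hand-in -/
def P_RES : Prop := ∀ T : ℝ → ℝ,
  MeasurePreserving T (volume.restrict (Set.Ioo (0:ℝ) 1)) (volume.restrict (Set.Ioo (0:ℝ) 1)) →
  ∀ A : Lp ℂ (2 : ENNReal) (volume.restrict (Set.Ioo (0:ℝ) 1)) →L[ℂ]
      Lp ℂ (2 : ENNReal) (volume.restrict (Set.Ioo (0:ℝ) 1)),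
  (∀ f : Lp ℂ (2 : ENNReal) (volume.restrict (Set.Ioo (0:ℝ) 1)),
    (A f : ℝ → ℂ) =ᵐ[volume.restrict (Set.Ioo (0:ℝ) 1)]
      fun x => (x : ℂ) * (f : ℝ → ℂ) (T x)) →
  ∃ V : Submodule ℂ (Lp ℂ (2 : ENNReal) (volume.restrict (Set.Ioo (0:ℝ) 1))),
    IsClosed (V : Set (Lp ℂ (2 : ENNReal) (volume.restrict (Set.Ioo (0:ℝ) 1)))) ∧
    V ≠ ⊥ ∧ V ≠ ⊤ ∧ ∀ v ∈ V, A v ∈ V

end Pool.Agent.H417B
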