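import Pool.Agent.H417B.Stmts

/-!
Weighted translation operators `A f(x) = φ(x) f(Sx)` (helper417): statements of the tasks.
-/

set_option autoImplicit false
open scoped ComplexConjugate InnerProductSpace Topology
open Filter MeasureTheory NormedSpace

namespace Pool.Agent.H417B
open Pool.Agent.H712R5.BO

/-- D8R: like `P_D8` with a general bound `R` instead of `3` -/
def P_D8R : Prop := ∀ R : ℝ, 0 ≤ R → ∀ (a : ℕ → ℝ), (∀ k M : ℕ, 1 ≤ k → 1 ≤ M →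
  0 ≤ 2 * Real.log (ck k) + 4 * Real.pi * k * R / M + M * Real.log 2 + M * a k) →
  ∃ c > (0:ℝ), ∃ K : ℕ, ∀ k ≥ K, c * k ≤ a k

/-- GMAINR: the abstract theorem for operators of arbitrary norm -/
def P_GMAINR : Prop := ∀ (H : Type) [NormedAddCommGroup H] [InnerProductSpace ℂ H]
  [CompleteSpace H]
  (b : HilbertBasis ℤ ℂ H) (E u : unitary (H →L[ℂ] H)), Dat b E u →
  (∀ n : ℤ, n ≠ 0 → u ^ n ≠ 1) → ∀ T : H →L[ℂ] H,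
  T * star (u : H →L[ℂ] H) * (E : H →L[ℂ] H) = (E : H →L[ℂ] H) * (T * star (u : H →L[ℂ] H)) →
  (∀ (k : ℕ) (δ : ℝ), 1 ≤ k → 0 < δ →
    0 ≤ (⟪b 0, CFC.log (algebraMap ℝ (H →L[ℂ] H) δ + star (T ^ k) * T ^ k) (b 0)⟫_ℂ).re) →
  ∃ V : Submodule ℂ H, IsClosed (V : Set H) ∧ V ≠ ⊥ ∧ V ≠ ⊤ ∧ ∀ v ∈ V, T v ∈ V

/-- admissible weights: measurable, bounded by `R`, nonzero a.e., with integrable logarithm -/
structure Wt (φ : ℝ → ℂ) (R : ℝ) : Prop where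
  meas : Measurable φ
  bd : ∀ x, ‖φ x‖ ≤ R
  ne : ∀ᵐ x ∂mu, φ x ≠ 0
  int : Integrable (fun x => Real.log ‖φ x‖) mu

/-- `A f (x) = φ x * f (S x)` -/
def WB (S : ℝ → ℝ) (φ : ℝ → ℂ) (A : LI →L[ℂ] LI) : Prop :=
  ∀ f : LI, (A f : ℝ → ℂ) =ᵐ[mu] fun x => φ x * (f : ℝ → ℂ) (S x)

/-- `exp(-∫ log |φ|)` -/
noncomputable def nc (φ : ℝ → ℂ) : ℝ := Real.exp (-∫ x in Set.Ico (0:ℝ) 1, Real.log ‖φ x‖)

/-- W2: if the range of `A` is dense then `u` is surjective -/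
def P_W2 : Prop := ∀ S : ℝ → ℝ, MeasurePreserving S mu mu → ∀ (φ : ℝ → ℂ) (R : ℝ), Wt φ R →
  ∀ u A : LI →L[ℂ] LI, Koop S u → WB S φ A → Dense (Set.range A) → Function.Surjective u

/-- W3: the periodic case -/
def P_W3 : Prop := ∀ S : ℝ → ℝ, MeasurePreserving S mu mu → ∀ (φ : ℝ → ℂ) (R : ℝ), Wt φ R →
  ∀ u A : LI →L[ℂ] LI, Koop S u → WB S φ A → ∀ n : ℕ, 1 ≤ n → u ^ n = 1 →
  ∃ V : Submodule ℂ LI, IsClosed (V : Set LI) ∧ V ≠ ⊥ ∧ V ≠ ⊤ ∧ ∀ v ∈ V, A v ∈ V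

/-- W6: the commutation hypothesis of `GMAINR` for `T = c A*`, with `star u` in the place of `u` -/
def P_W6 : Prop := ∀ S : ℝ → ℝ, MeasurePreserving S mu mu → ∀ (φ : ℝ → ℂ) (R : ℝ), Wt φ R →
  ∀ (E u : unitary (LI →L[ℂ] LI)) (A : LI →L[ℂ] LI), Koop S (u : LI →L[ℂ] LI) → WB S φ A →
  Mul (fun x => Complex.exp (2 * Real.pi * Complex.I * x)) (E : LI →L[ℂ] LI) → ∀ c : ℝ,
  ((c : ℂ) • star A) * star ((star u : unitary (LI →L[ℂ] LI)) : LI →L[ℂ] LI)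
      * (E : LI →L[ℂ] LI)
    = (E : LI →L[ℂ] LI) * (((c : ℂ) • star A)
      * star ((star u : unitary (LI →L[ℂ] LI)) : LI →L[ℂ] LI))

/-- W7: `|T^k|^2` for `T = c A*` is a multiplication operator -/
def P_W7 : Prop := ∀ S : ℝ → ℝ, MeasurePreserving S mu mu → ∀ (φ : ℝ → ℂ) (R : ℝ), Wt φ R →
  ∀ (u : unitary (LI →L[ℂ] LI)) (A : LI →L[ℂ] LI), Koop S (u : LI →L[ℂ] LI) → WB S φ A →
  ∀ (c : ℝ) (k : ℕ),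
  Mul (fun x => ((∏ j ∈ Finset.range k, (c * ‖φ (S^[j] x)‖) ^ 2 : ℝ) : ℂ))
    (star (((c : ℂ) • star A) ^ k) * ((c : ℂ) • star A) ^ k)

/-- W8: log-integral lower bound -/
def P_W8 : Prop := ∀ S : ℝ → ℝ, MeasurePreserving S mu mu → ∀ (φ : ℝ → ℂ) (R : ℝ), Wt φ R →
  ∀ (k : ℕ) (δ : ℝ), 0 < δ →
  0 ≤ ∫ x in Set.Ico (0:ℝ) 1, Real.log (δ + ∏ j ∈ Finset.range k, (nc φ * ‖φ (S^[j] x)‖) ^ 2)

/-- W9: the log hypothesis of `GMAINR` -/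
def P_W9 : Prop := ∀ S : ℝ → ℝ, MeasurePreserving S mu mu → ∀ (φ : ℝ → ℂ) (R : ℝ), Wt φ R →
  ∀ (u : unitary (LI →L[ℂ] LI)) (A : LI →L[ℂ] LI) (v : LI), Koop S (u : LI →L[ℂ] LI) →
  WB S φ A → (v : ℝ → ℂ) =ᵐ[mu] (fun _ => 1) → ∀ (k : ℕ) (δ : ℝ), 0 < δ →
  0 ≤ (⟪v, CFC.log (algebraMap ℝ (LI →L[ℂ] LI) δ
    + star (((nc φ : ℂ) • star A) ^ k) * ((nc φ : ℂ) • star A) ^ k) v⟫_ℂ).re

/-- WFIN: weighted translation operators on `L²[0,1)` -/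
def P_WFIN : Prop := ∀ S : ℝ → ℝ, MeasurePreserving S mu mu → ∀ (φ : ℝ → ℂ) (R : ℝ), Wt φ R →
  ∀ A : LI →L[ℂ] LI, WB S φ A →
  ∃ V : Submodule ℂ LI, IsClosed (V : Set LI) ∧ V ≠ ⊥ ∧ V ≠ ⊤ ∧ ∀ v ∈ V, A v ∈ V

/-- WRES: the statement of the hand-in -/
def P_WRES : Prop := ∀ T : ℝ → ℝ,
  MeasurePreserving T (volume.restrict (Set.Ioo (0:ℝ) 1)) (volume.restrict (Set.Ioo (0:ℝ) 1)) →
  ∀ (φ : ℝ → ℂ) (R : ℝ), Measurable φ → (∀ x, ‖φ x‖ ≤ R) →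
  IntegrableOn (fun x => Real.log ‖φ x‖) (Set.Ioo (0:ℝ) 1) →
  ∀ A : Lp ℂ (2 : ENNReal) (volume.restrict (Set.Ioo (0:ℝ) 1)) →L[ℂ]
      Lp ℂ (2 : ENNReal) (volume.restrict (Set.Ioo (0:ℝ) 1)),
  (∀ f : Lp ℂ (2 : ENNReal) (volume.restrict (Set.Ioo (0:ℝ) 1)),
    (A f : ℝ → ℂ) =ᵐ[volume.restrict (Set.Ioo (0:ℝ) 1)]
      fun x => φ x * (f : ℝ → ℂ) (T x)) →
  ∃ V : Submodule ℂ (Lp ℂ (2 : ENNReal) (volume.restrict (Set.Ioo (0:ℝ) 1))),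
    IsClosed (V : Set (Lp ℂ (2 : ENNReal) (volume.restrict (Set.Ioo (0:ℝ) 1)))) ∧
    V ≠ ⊥ ∧ V ≠ ⊤ ∧ ∀ v ∈ V, A v ∈ V

end Pool.Agent.H417B
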