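import Pool.Agent.H417B.Stmts2

/-!
Hyperinvariant subspaces (helper417): statements.
-/

set_option autoImplicit false
open scoped ComplexConjugate InnerProductSpace Topology
open Filter MeasureTheory NormedSpace

namespace Pool.Agent.H417B
open Pool.Agent.H712R5.BO

/-- C12H: a nonscalar strong limit gives a hyperinvariant subspace -/
def P_C12H : Prop := ∀ (H : Type) [NormedAddCommGroup H] [InnerProductSpace ℂ H] [CompleteSpace H]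
  (T : H →L[ℂ] H) (k : ℕ → ℕ), StrictMono k → (∀ i, 1 ≤ k i) → ∀ X : H →L[ℂ] H,
  (∀ v, Tendsto (fun i => ((1/(k i : ℝ)) • Lg (ex ((k i : ℕ) : ℂ) T)) v) atTop (𝓝 (X v))) →
  (¬ ∃ c : ℂ, X = c • 1) →
  ∃ V : Submodule ℂ H, IsClosed (V : Set H) ∧ V ≠ ⊥ ∧ V ≠ ⊤ ∧
    ∀ R : H →L[ℂ] H, R * T = T * R → ∀ v ∈ V, R v ∈ V

/-- GMAINH: the abstract theorem, hyperinvariant form -/
def P_GMAINH : Prop := ∀ (H : Type) [NormedAddCommGroup H] [InnerProductSpace ℂ H]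
  [CompleteSpace H]
  (b : HilbertBasis ℤ ℂ H) (E u : unitary (H →L[ℂ] H)), Dat b E u →
  (∀ n : ℤ, n ≠ 0 → u ^ n ≠ 1) → ∀ T : H →L[ℂ] H,
  T * star (u : H →L[ℂ] H) * (E : H →L[ℂ] H) = (E : H →L[ℂ] H) * (T * star (u : H →L[ℂ] H)) →
  (∀ (k : ℕ) (δ : ℝ), 1 ≤ k → 0 < δ →
    0 ≤ (⟪b 0, CFC.log (algebraMap ℝ (H →L[ℂ] H) δ + star (T ^ k) * T ^ k) (b 0)⟫_ℂ).re) →
  ∃ V : Submodule ℂ H, IsClosed (V : Set H) ∧ V ≠ ⊥ ∧ V ≠ ⊤ ∧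
    ∀ R : H →L[ℂ] H, R * T = T * R → ∀ v ∈ V, R v ∈ V

/-- WFINH: aperiodic weighted translation operators have hyperinvariant subspaces -/
def P_WFINH : Prop := ∀ S : ℝ → ℝ, MeasurePreserving S mu mu →
  (∀ n : ℕ, 1 ≤ n → ¬ (∀ᵐ x ∂mu, S^[n] x = x)) → ∀ (φ : ℝ → ℂ) (R : ℝ), Wt φ R →
  ∀ A : LI →L[ℂ] LI, WB S φ A →
  ∃ V : Submodule ℂ LI, IsClosed (V : Set LI) ∧ V ≠ ⊥ ∧ V ≠ ⊤ ∧
    ∀ B : LI →L[ℂ] LI, B * A = A * B → ∀ v ∈ V, B v ∈ V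

end Pool.Agent.H417B
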