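import Pool.Agent.H417B.Stmts2

set_option autoImplicit false
open scoped ComplexConjugate InnerProductSpace Topology
open Filter MeasureTheory NormedSpace

namespace Pool.Agent.H417B
open Pool.Agent.H712R5.BO

theorem W2_isom {S : ℝ → ℝ} (hS : MeasurePreserving S mu mu) {u : LI →L[ℂ] LI} (hu : Koop S u)
    (f : LI) : ‖u f‖ = ‖f‖ := by
  have h1 : u f = Lp.compMeasurePreserving S hS f := by
    apply Lp.ext
    exact (hu f).trans (Lp.coeFn_compMeasurePreserving f hS).symm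
  rw [h1, Lp.norm_compMeasurePreserving]

theorem W2_closed {S : ℝ → ℝ} (hS : MeasurePreserving S mu mu) {u : LI →L[ℂ] LI} (hu : Koop S u) :
    IsClosed (Set.range u) := by
  have hi : Isometry u := AddMonoidHomClass.isometry_of_norm u (W2_isom hS hu)
  exact hi.isClosedEmbedding.isClosed_range

theorem W2_cl_cont : Continuous cl := continuous_const.max (continuous_const.min continuous_id)

theorem W2_cl_mem (x : ℝ) : 0 ≤ cl x ∧ cl x ≤ 1 :=
  ⟨le_max_left _ _, max_le zero_le_one (min_le_left _ _)⟩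

theorem W2_norm_sq (F : LI) : ‖F‖ ^ 2 = ∫ x, ‖(F : ℝ → ℂ) x‖ ^ 2 ∂mu := by
  have h1 : ((‖F‖ ^ 2 : ℝ) : ℂ) = ⟪F, F⟫_ℂ := by
    rw [inner_self_eq_norm_sq_to_K]
    push_cast
    rfl
  rw [L2.inner_def] at h1
  have h2 : ∀ x, ⟪(F : ℝ → ℂ) x, (F : ℝ → ℂ) x⟫_ℂ = ((‖(F : ℝ → ℂ) x‖ ^ 2 : ℝ) : ℂ) := by
    intro x
    rw [inner_self_eq_norm_sq_to_K]
    push_cast
    rfl
  simp only [h2] at h1
  have h3 : ∫ x, ((‖(F : ℝ → ℂ) x‖ ^ 2 : ℝ) : ℂ) ∂mu =
      ((∫ x, ‖(F : ℝ → ℂ) x‖ ^ 2 ∂mu : ℝ) : ℂ) := integral_ofReal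
  exact Complex.ofReal_injective (h1.trans h3)

theorem W2_l2 (F : ℕ → LI) (X : LI) (hb : ∀ i, ∀ᵐ x ∂mu, ‖(F i : ℝ → ℂ) x‖ ≤ 1)
    (hX : ∀ᵐ x ∂mu, ‖(X : ℝ → ℂ) x‖ ≤ 1)
    (hc : ∀ᵐ x ∂mu, Tendsto (fun i => (F i : ℝ → ℂ) x) atTop (𝓝 ((X : ℝ → ℂ) x))) :
    Tendsto F atTop (𝓝 X) := by
  rw [tendsto_iff_norm_sub_tendsto_zero]
  have h1 : ∀ i, ‖F i - X‖ ^ 2 = ∫ x, ‖(F i : ℝ → ℂ) x - (X : ℝ → ℂ) x‖ ^ 2 ∂mu := by
    intro i
    rw [W2_norm_sq]
    refine integral_congr_ae ?_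
    filter_upwards [Lp.coeFn_sub (F i) X] with x hx
    rw [hx]
    rfl
  have h2 : Tendsto (fun i => ∫ x, ‖(F i : ℝ → ℂ) x - (X : ℝ → ℂ) x‖ ^ 2 ∂mu) atTop
      (𝓝 (∫ _x, (0 : ℝ) ∂mu)) := by
    refine tendsto_integral_of_dominated_convergence (fun _ => (4 : ℝ)) ?_ (integrable_const _) ?_ ?_
    · intro i
      exact (((Lp.aestronglyMeasurable (F i)).sub (Lp.aestronglyMeasurable X)).norm.pow 2)
    · intro i
      filter_upwards [hb i, hX] with x h3 h4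
      rw [Real.norm_of_nonneg (sq_nonneg _)]
      have h5 : ‖(F i : ℝ → ℂ) x - (X : ℝ → ℂ) x‖ ≤ 2 := (norm_sub_le _ _).trans (by linarith)
      nlinarith [norm_nonneg ((F i : ℝ → ℂ) x - (X : ℝ → ℂ) x)]
    · filter_upwards [hc] with x hx
      have h3 : Tendsto (fun i => ‖(F i : ℝ → ℂ) x - (X : ℝ → ℂ) x‖) atTop (𝓝 0) :=
        tendsto_iff_norm_sub_tendsto_zero.1 hx
      have h4 := h3.pow 2
      rwa [zero_pow two_ne_zero] at h4
  rw [integral_zero] at h2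
  have h3 : Tendsto (fun i => ‖F i - X‖ ^ 2) atTop (𝓝 0) := h2.congr fun i => (h1 i).symm
  have h4 := (Real.continuous_sqrt.tendsto 0).comp h3
  rw [Real.sqrt_zero] at h4
  refine h4.congr fun i => ?_
  exact Real.sqrt_sq (norm_nonneg _)

theorem W2_ind {S : ℝ → ℝ} (hS : MeasurePreserving S mu mu) {φ : ℝ → ℂ} {R : ℝ}
    (hφ : Wt φ R) {u A : LI →L[ℂ] LI} (hu : Koop S u) (hA : WB S φ A) (hd : Dense (Set.range A)) (D : Set ℝ) (hD : MeasurableSet D) :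
    ∃ G : LI, (u G : ℝ → ℂ) =ᵐ[mu] D.indicator (fun _ => (1:ℂ)) := by
  set χ : ℝ → ℂ := D.indicator (fun _ => (1:ℂ)) with hχ
  have hχm : AEStronglyMeasurable χ mu := aestronglyMeasurable_const.indicator hD
  have hχb : ∀ x, ‖χ x‖ ≤ 1 := by
    intro x
    simp only [hχ, Set.indicator]
    split_ifs <;> simp
  have hχL : MemLp χ 2 mu := MemLp.of_bound hχm 1 (Eventually.of_forall hχb)
  have hkm : AEStronglyMeasurable (fun x : ℝ => φ x * χ x) mu :=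
    hφ.meas.aestronglyMeasurable.mul hχm
  have hkb : ∀ᵐ x : ℝ ∂mu, ‖φ x * χ x‖ ≤ R := by
    refine Eventually.of_forall fun x => ?_
    rw [norm_mul]
    exact (mul_le_of_le_one_right (norm_nonneg _) (hχb x)).trans (hφ.bd x)
  have hk : MemLp (fun x : ℝ => φ x * χ x) 2 mu := MemLp.of_bound hkm R hkb
  have hseq : ∀ n : ℕ, ∃ f : LI, ‖A f - hk.toLp _‖ < 1 / ((n : ℝ) + 1) := by
    intro n
    obtain ⟨_, hf, f, rfl⟩ := Metric.dense_iff.1 hd (hk.toLp _) (1 / ((n : ℝ) + 1)) (by positivity)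
    refine ⟨f, ?_⟩
    rw [← dist_eq_norm]
    exact hf
  choose f hf using hseq
  have hlim : Tendsto (fun n => A (f n)) atTop (𝓝 (hk.toLp _)) := by
    rw [tendsto_iff_norm_sub_tendsto_zero]
    exact squeeze_zero (fun _ => norm_nonneg _) (fun n => (hf n).le)
      tendsto_one_div_add_atTop_nhds_zero_nat
  obtain ⟨ns, -, hns⟩ := (tendstoInMeasure_of_tendsto_Lp hlim).exists_seq_tendsto_ae
  have hA' : ∀ᵐ x ∂mu, ∀ i, (A (f (ns i)) : ℝ → ℂ) x = φ x * (f (ns i) : ℝ → ℂ) (S x) :=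
    ae_all_iff.2 fun i => hA (f (ns i))
  have hk' := hk.coeFn_toLp
  have hx0 := hφ.ne
  have hconv : ∀ᵐ x ∂mu, Tendsto (fun i => (f (ns i) : ℝ → ℂ) (S x)) atTop (𝓝 (χ x)) := by
    filter_upwards [hns, hA', hk', hx0] with x h1 h2 h3 h4
    rw [h3] at h1
    have h5 := h1.const_mul ((φ x)⁻¹)
    rw [inv_mul_cancel_left₀ h4] at h5
    refine h5.congr fun i => ?_
    rw [h2 i, inv_mul_cancel_left₀ h4]
  have hcc : Continuous (fun z : ℂ => ((cl z.re : ℝ) : ℂ)) :=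
    Complex.continuous_ofReal.comp (W2_cl_cont.comp Complex.continuous_re)
  have hcb : ∀ z : ℂ, ‖((cl z.re : ℝ) : ℂ)‖ ≤ 1 := by
    intro z
    rw [Complex.norm_real, Real.norm_of_nonneg (W2_cl_mem _).1]
    exact (W2_cl_mem _).2
  have hg : ∀ i, MemLp (fun x => ((cl ((f (ns i) : ℝ → ℂ) x).re : ℝ) : ℂ)) 2 mu := fun i =>
    MemLp.of_bound (hcc.comp_aestronglyMeasurable (Lp.aestronglyMeasurable (f (ns i)))) 1
      (Eventually.of_forall fun x => hcb _)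
  have hGS : ∀ᵐ x ∂mu, ∀ i, (u ((hg i).toLp _) : ℝ → ℂ) x =
      ((cl ((f (ns i) : ℝ → ℂ) (S x)).re : ℝ) : ℂ) := by
    refine ae_all_iff.2 fun i => ?_
    filter_upwards [hu ((hg i).toLp _),
      hS.quasiMeasurePreserving.tendsto_ae.eventually (hg i).coeFn_toLp] with x h1 h2
    rw [h1, h2]
  have hGconv : ∀ᵐ x ∂mu, Tendsto (fun i => (u ((hg i).toLp _) : ℝ → ℂ) x) atTop (𝓝 (χ x)) := by
    filter_upwards [hconv, hGS] with x h1 h2
    have h4 := (hcc.tendsto (χ x)).comp h1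
    have h5 : ((cl (χ x).re : ℝ) : ℂ) = χ x := by
      simp only [hχ, Set.indicator]
      split_ifs <;> simp [cl]
    rw [h5] at h4
    exact h4.congr fun i => (h2 i).symm
  have hL : Tendsto (fun i => u ((hg i).toLp _)) atTop (𝓝 (hχL.toLp _)) := by
    apply W2_l2
    · intro i
      filter_upwards [hGS] with x hx
      rw [hx i]
      exact hcb _
    · filter_upwards [hχL.coeFn_toLp] with x hx
      rw [hx]
      exact hχb x
    · filter_upwards [hGconv, hχL.coeFn_toLp] with x h1 h2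
      rw [h2]
      exact h1
  have hmem : hχL.toLp _ ∈ Set.range u :=
    (W2_closed hS hu).mem_of_tendsto hL (Eventually.of_forall fun i => ⟨_, rfl⟩)
  obtain ⟨G, hG⟩ := hmem
  refine ⟨G, ?_⟩
  rw [hG]
  exact hχL.coeFn_toLp

theorem t_W2 : P_W2 := by
  intro S hS φ R hφ u A hu hA hd f
  refine Lp.induction (by norm_num) (motive := fun f : LI => ∃ G, u G = f) ?_ ?_ ?_ f
  · intro c s hs hμs
    obtain ⟨G, hG⟩ := W2_ind hS hφ hu hA hd s hs
    refine ⟨c • G, ?_⟩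
    apply Lp.ext
    rw [map_smul, Lp.simpleFunc.coe_indicatorConst]
    refine (Lp.coeFn_smul c (u G)).trans ?_
    refine EventuallyEq.trans ?_ indicatorConstLp_coeFn.symm
    filter_upwards [hG] with x hx
    rw [Pi.smul_apply, hx]
    simp only [Set.indicator]
    split_ifs <;> simp
  · rintro f g hf hg - ⟨F, hF⟩ ⟨G, hG⟩
    exact ⟨F + G, by rw [map_add, hF, hG]⟩
  · exact W2_closed hS hu

end Pool.Agent.H417B
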