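import Pool.Agent.H417B.Stmts2

/-!
W3: the periodic case for weighted translation operators (adapted from the file of helper486).
-/

set_option autoImplicit false
open scoped ComplexConjugate InnerProductSpace Topology
open Filter MeasureTheory NormedSpace

namespace Pool.Agent.H417B
open Pool.Agent.H712R5.BO

theorem W3_iter (S : ℝ → ℝ) (hS : MeasurePreserving S mu mu) (u : LI →L[ℂ] LI) (hu : Koop S u)
    (k : ℕ) (f : LI) :
    ((u ^ k) f : ℝ → ℂ) =ᵐ[mu] fun x => (f : ℝ → ℂ) (S^[k] x) := by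
  induction k with
  | zero => exact Filter.EventuallyEq.rfl
  | succ k ih =>
    have h1 := hu ((u ^ k) f)
    have h2 := hS.quasiMeasurePreserving.ae_eq_comp ih
    have h3 : (u ^ (k + 1)) f = u ((u ^ k) f) := by
      rw [pow_succ']
      rfl
    rw [h3]
    exact h1.trans h2

theorem W3_per (S : ℝ → ℝ) (hS : MeasurePreserving S mu mu) (u : LI →L[ℂ] LI) (hu : Koop S u)
    (n : ℕ) (hn : u ^ n = 1) (D : Set ℝ) (hD : MeasurableSet D) :
    ∀ᵐ x ∂mu, (S^[n] x ∈ D → x ∈ D) := by
  have hfin : mu D ≠ ⊤ := measure_ne_top _ _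
  set f : LI := indicatorConstLp 2 hD hfin (1 : ℂ) with hf
  have h1 : (f : ℝ → ℂ) =ᵐ[mu] D.indicator fun _ => (1 : ℂ) := indicatorConstLp_coeFn
  have h2 := W3_iter S hS u hu n f
  rw [hn] at h2
  have h3 := (hS.iterate n).quasiMeasurePreserving.ae_eq_comp h1
  filter_upwards [h1, h2, h3] with x e1 e2 e3 hx
  have e3' : (f : ℝ → ℂ) (S^[n] x) = D.indicator (fun _ => (1:ℂ)) (S^[n] x) := e3
  have e2' : (f : ℝ → ℂ) x = (f : ℝ → ℂ) (S^[n] x) := e2
  rw [e3', e1, Set.indicator_of_mem hx] at e2'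
  by_contra hc
  rw [Set.indicator_of_notMem hc] at e2'
  exact zero_ne_one e2'

/-- functions vanishing outside `B` -/
noncomputable def W3_V (B : Set ℝ) : Submodule ℂ LI where
  carrier := {f | ∀ᵐ x ∂mu, x ∉ B → (f : ℝ → ℂ) x = 0}
  zero_mem' := by
    have h := Lp.coeFn_zero ℂ 2 (volume.restrict (Set.Ico (0:ℝ) 1))
    show ∀ᵐ x ∂mu, x ∉ B → ((0 : LI) : ℝ → ℂ) x = 0
    filter_upwards [h] with x hx _
    rw [hx]
    rfl
  add_mem' := by
    intro f g hf hg
    have h := Lp.coeFn_add f g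
    show ∀ᵐ x ∂mu, x ∉ B → ((f + g : LI) : ℝ → ℂ) x = 0
    filter_upwards [h, hf, hg] with x hx h1 h2 hB
    rw [hx, Pi.add_apply, h1 hB, h2 hB, add_zero]
  smul_mem' := by
    intro c f hf
    have h := Lp.coeFn_smul c f
    show ∀ᵐ x ∂mu, x ∉ B → ((c • f : LI) : ℝ → ℂ) x = 0
    filter_upwards [h, hf] with x hx h1 hB
    rw [hx, Pi.smul_apply, h1 hB, smul_zero]

theorem W3_mem (B : Set ℝ) (f : LI) : f ∈ W3_V B ↔ ∀ᵐ x ∂mu, x ∉ B → (f : ℝ → ℂ) x = 0 := Iff.rfl

theorem W3_closed (B : Set ℝ) : IsClosed (W3_V B : Set LI) := by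
  apply IsSeqClosed.isClosed
  intro x f hx hlim
  have h1 := tendstoInMeasure_of_tendsto_Lp hlim
  obtain ⟨ns, -, h2⟩ := h1.exists_seq_tendsto_ae
  have h3 : ∀ᵐ y ∂mu, ∀ k, y ∉ B → (x k : ℝ → ℂ) y = 0 := ae_all_iff.2 (fun k => hx k)
  show ∀ᵐ y ∂mu, y ∉ B → (f : ℝ → ℂ) y = 0
  filter_upwards [h2, h3] with y e1 e2 hB
  have e3 : (fun i => (x (ns i) : ℝ → ℂ) y) = fun _ => 0 := by
    funext i
    exact e2 _ hB
  rw [e3] at e1
  exact tendsto_nhds_unique e1 tendsto_const_nhds

theorem t_W3 : P_W3 := by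
  intro S hS φ R _ u A hu hA n hn1 hn
  have hn0 : (0:ℝ) < n := by exact_mod_cast hn1
  set D : Set ℝ := Set.Ico 0 (1 / (2 * n)) with hDdef
  have hD : MeasurableSet D := measurableSet_Ico
  have hD1 : (1 / (2 * n) : ℝ) ≤ 1 := by
    rw [div_le_one (by positivity)]
    have : (1:ℝ) ≤ n := by exact_mod_cast hn1
    linarith
  have hmD : mu D = ENNReal.ofReal (1 / (2 * n)) := by
    rw [Measure.restrict_apply hD, hDdef, Set.Ico_inter_Ico, Real.volume_Ico,
      max_self, min_eq_left hD1, sub_zero]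
  set B : Set ℝ := ⋃ k ∈ Finset.range n, (S^[k]) ⁻¹' D with hBdef
  have hiter : ∀ k, MeasurePreserving (S^[k]) mu mu := fun k => hS.iterate k
  have hBm : MeasurableSet B := by
    apply Finset.measurableSet_biUnion
    intro k _
    exact (hiter k).measurable hD
  have hmB : mu B ≤ ENNReal.ofReal (1 / 2) := by
    calc mu B ≤ ∑ k ∈ Finset.range n, mu ((S^[k]) ⁻¹' D) := measure_biUnion_finset_le _ _
      _ = ∑ k ∈ Finset.range n, ENNReal.ofReal (1 / (2 * n)) := by
          refine Finset.sum_congr rfl (fun k _ => ?_)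
          rw [(hiter k).measure_preimage hD.nullMeasurableSet, hmD]
      _ = ENNReal.ofReal (1 / 2) := by
          rw [Finset.sum_const, Finset.card_range, nsmul_eq_mul, ← ENNReal.ofReal_natCast,
            ← ENNReal.ofReal_mul (by positivity)]
          congr 1
          field_simp
  have hmB0 : mu B ≠ 0 := by
    intro h0
    have h1 : mu D ≤ mu B := by
      apply measure_mono
      intro x hx
      rw [hBdef, Set.mem_iUnion₂]
      exact ⟨0, Finset.mem_range.2 hn1, hx⟩
    rw [h0, hmD, nonpos_iff_eq_zero, ENNReal.ofReal_eq_zero] at h1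
    have : (0:ℝ) < 1 / (2 * n) := by positivity
    linarith
  have hinv : ∀ᵐ x ∂mu, x ∉ B → S x ∉ B := by
    filter_upwards [W3_per S hS u hu n hn D hD] with x hx hxB hSx
    apply hxB
    rw [hBdef, Set.mem_iUnion₂] at hSx ⊢
    obtain ⟨k, hk, hk2⟩ := hSx
    rw [Finset.mem_range] at hk
    have hk3 : S^[k + 1] x ∈ D := hk2
    by_cases hkn : k + 1 < n
    · exact ⟨k + 1, Finset.mem_range.2 hkn, hk3⟩
    · have : k + 1 = n := by omega
      rw [this] at hk3
      exact ⟨0, Finset.mem_range.2 hn1, hx hk3⟩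
  refine ⟨W3_V B, W3_closed B, ?_, ?_, ?_⟩
  · intro hbot
    have hmem : indicatorConstLp 2 hBm (measure_ne_top mu B) (1:ℂ) ∈ W3_V B := by
      rw [W3_mem]
      filter_upwards [indicatorConstLp_coeFn (p := 2) (hs := hBm) (hμs := measure_ne_top mu B)
        (c := (1:ℂ))] with x hx hxB
      rw [hx, Set.indicator_of_notMem hxB]
    rw [hbot, Submodule.mem_bot] at hmem
    apply hmB0
    have h1 := indicatorConstLp_coeFn (p := 2) (hs := hBm) (hμs := measure_ne_top mu B)
        (c := (1:ℂ))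
    rw [hmem] at h1
    have h2 := Lp.coeFn_zero ℂ 2 (volume.restrict (Set.Ico (0:ℝ) 1))
    have h3 : ∀ᵐ x ∂mu, x ∉ B := by
      filter_upwards [h1, h2] with x e1 e2 hxB
      rw [Set.indicator_of_mem hxB, e2] at e1
      exact zero_ne_one e1
    exact measure_eq_zero_iff_ae_notMem.2 h3
  · intro htop
    have hmem : indicatorConstLp 2 MeasurableSet.univ (measure_ne_top mu Set.univ) (1:ℂ) ∈ W3_V B := by
      rw [htop]; exact Submodule.mem_top
    rw [W3_mem] at hmem
    have h1 := indicatorConstLp_coeFn (p := 2) (hs := MeasurableSet.univ)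
      (hμs := measure_ne_top mu Set.univ) (c := (1:ℂ))
    have h3 : ∀ᵐ x ∂mu, x ∈ B := by
      filter_upwards [h1, hmem] with x e1 e2
      by_contra hxB
      rw [e2 hxB, Set.indicator_of_mem (Set.mem_univ x)] at e1
      exact zero_ne_one e1
    have h4 : mu Set.univ ≤ mu B := by
      apply measure_mono_ae
      filter_upwards [h3] with x hx _
      exact hx
    have h5 : mu Set.univ = 1 := by
      rw [Measure.restrict_apply_univ, Real.volume_Ico]
      simp
    rw [h5] at h4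
    have h6 := h4.trans hmB
    rw [← ENNReal.ofReal_one, ENNReal.ofReal_le_ofReal_iff (by norm_num)] at h6
    norm_num at h6
  · intro f hf
    rw [W3_mem] at hf ⊢
    have h1 := hS.quasiMeasurePreserving.ae hf
    filter_upwards [hA f, h1, hinv] with x e1 e2 e3 hxB
    rw [e1, e2 (e3 hxB), mul_zero]

end Pool.Agent.H417B
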