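import Pool.Agent.H417B.Stmts2

/-!
# The commutation hypothesis of `GMAINR` for `T = c A*`, `A f (x) = φ x * f (S x)`
-/

set_option autoImplicit false
open scoped ComplexConjugate InnerProductSpace Topology
open Filter MeasureTheory NormedSpace

namespace Pool.Agent.H417B
open Pool.Agent.H712R5.BO

theorem t_W6 (h1 : P_Z1) (h2 : P_Y4) (h3 : P_Y5) : P_W6 := by
  intro S hS φ R hφ E u A hu hA hE c
  have hus : ((star u : unitary (LI →L[ℂ] LI)) : LI →L[ℂ] LI) = star (u : LI →L[ℂ] LI) := rfl
  have e1 : (u : LI →L[ℂ] LI) * star (u : LI →L[ℂ] LI) = 1 := (Unitary.mem_iff.mp u.2).2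
  have e2 : star (u : LI →L[ℂ] LI) * (u : LI →L[ℂ] LI) = 1 := (Unitary.mem_iff.mp u.2).1
  set U : LI →L[ℂ] LI := (u : LI →L[ℂ] LI) with hU
  set V : LI →L[ℂ] LI := star U with hV
  set EE : LI →L[ℂ] LI := (E : LI →L[ℂ] LI) with hEE
  obtain ⟨h5a, h5b⟩ := h3 S hS U hu
  -- `U EE V` is the multiplication by `e^{2πiSx}`
  have hW : Mul (fun x => Complex.exp (2 * Real.pi * Complex.I * S x)) (U * EE * V) := by
    intro f
    have h := h5a _ EE hE (V f)
    have h' : U (V f) = f := by
      have := congrArg (fun T : LI →L[ℂ] LI => T f) e1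
      simpa using this
    rw [h'] at h
    exact h
  obtain ⟨M, hM1, hM⟩ := h1 φ R hφ.meas hφ.bd
  have hMm : Mul φ M := hM
  have hMs := h5b _ M hMm
  have hWM : star M * (U * EE * V) = (U * EE * V) * star M := h2 _ _ _ _ hMs hW
  have hAM : A = M * U := by
    ext1 f
    apply Lp.ext
    have g1 := hA f
    have g2 := hM (U f)
    have g3 := hu f
    filter_upwards [g1, g2, g3] with x x1 x2 x3
    rw [x1, ContinuousLinearMap.mul_apply, x2, x3]
  rw [hus, hV, star_star]
  have hAs : star A = V * star M := by rw [hAM, star_mul]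
  have key : V * star M * U * EE = EE * (V * star M * U) := by
    calc V * star M * U * EE = V * star M * U * EE * (V * U) := by rw [e2, mul_one]
      _ = V * (star M * (U * EE * V)) * U := by simp only [mul_assoc]
      _ = V * ((U * EE * V) * star M) * U := by rw [hWM]
      _ = (V * U) * EE * V * star M * U := by simp only [mul_assoc]
      _ = EE * (V * star M * U) := by rw [e2, one_mul]; simp only [mul_assoc]
  rw [hAs, smul_mul_assoc, smul_mul_assoc, mul_smul_comm, key]

end Pool.Agent.H417B
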