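import Pool.Agent.H417B.Stmts2

/-!
Task W7: `|T^k|^2` is a multiplication operator (weighted translation operators); adapted from Y7
(helper245).
-/

set_option autoImplicit false
open scoped ComplexConjugate InnerProductSpace Topology
open Filter MeasureTheory NormedSpace

namespace Pool.Agent.H417B
open Pool.Agent.H712R5.BO

theorem W7_mulmul {g h : ℝ → ℂ} {m n : LI →L[ℂ] LI} (hm : Mul g m) (hn : Mul h n) :
    Mul (fun x => g x * h x) (m * n) := by
  intro f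
  have h1 := hm (n f)
  have h2 := hn f
  filter_upwards [h1, h2] with x e1 e2
  show (m (n f) : ℝ → ℂ) x = _
  rw [e1, e2, mul_assoc]

theorem W7_smul (c : ℂ) {g : ℝ → ℂ} {m : LI →L[ℂ] LI} (hm : Mul g m) :
    Mul (fun x => c * g x) (c • m) := by
  intro f
  have h1 := hm f
  have h2 : ((c • m) f) = c • (m f) := rfl
  rw [h2]
  filter_upwards [h1, Lp.coeFn_smul c (m f)] with x e1 e2
  rw [e2, Pi.smul_apply, e1, smul_eq_mul, mul_assoc]

/-- the product of the weights along the orbit -/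
noncomputable def W7_p (S : ℝ → ℝ) (φ : ℝ → ℂ) (k : ℕ) (x : ℝ) : ℂ :=
  ∏ j ∈ Finset.range k, φ (S^[j] x)

theorem W7_p_meas {S : ℝ → ℝ} {φ : ℝ → ℂ} (hS : Measurable S) (hφ : Measurable φ) (k : ℕ) :
    Measurable (W7_p S φ k) := by
  unfold W7_p
  exact Finset.measurable_fun_prod _ fun j _ => hφ.comp (hS.iterate j)

theorem W7_p_bd {S : ℝ → ℝ} {φ : ℝ → ℂ} {R : ℝ} (hR : ∀ x, ‖φ x‖ ≤ R) (k : ℕ) (x : ℝ) :
    ‖W7_p S φ k x‖ ≤ R ^ k := by
  unfold W7_p
  rw [norm_prod]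
  calc ∏ j ∈ Finset.range k, ‖φ (S^[j] x)‖ ≤ ∏ _j ∈ Finset.range k, R :=
        Finset.prod_le_prod (fun j _ => norm_nonneg _) fun j _ => hR _
    _ = R ^ k := by simp

theorem W7_p_succ (S : ℝ → ℝ) (φ : ℝ → ℂ) (k : ℕ) (x : ℝ) :
    W7_p S φ (k + 1) x = φ x * W7_p S φ k (S x) := by
  unfold W7_p
  rw [Finset.prod_range_succ', mul_comm]
  simp

theorem W7_pow (h1 : P_Z1) (S : ℝ → ℝ) (hS : MeasurePreserving S mu mu) (φ : ℝ → ℂ) (R : ℝ)
    (hφ : Wt φ R) (u A : LI →L[ℂ] LI) (hu : Koop S u) (hA : WB S φ A) (k : ℕ) :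
    ∃ M : LI →L[ℂ] LI, Mul (W7_p S φ k) M ∧ A ^ k = M * u ^ k := by
  have hM : ∀ k, ∃ M : LI →L[ℂ] LI, Mul (W7_p S φ k) M := by
    intro k
    obtain ⟨M, -, hM⟩ := h1 (W7_p S φ k) (R ^ k) (W7_p_meas hS.measurable hφ.meas k)
      (W7_p_bd hφ.bd k)
    exact ⟨M, hM⟩
  induction k with
  | zero =>
    refine ⟨1, ?_, by simp⟩
    intro f
    refine Eventually.of_forall fun x => ?_
    simp [W7_p]
  | succ k ih =>
    obtain ⟨M, hMk, hAk⟩ := ih
    obtain ⟨M', hM'⟩ := hM (k + 1)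
    refine ⟨M', hM', ?_⟩
    have key : A * M = M' * u := by
      refine ContinuousLinearMap.ext fun g => ?_
      show A (M g) = M' (u g)
      refine Lp.ext ?_
      have e1 := hA (M g)
      have e2 := hS.quasiMeasurePreserving.ae (hMk g)
      have e3 := hu g
      have e4 := hM' (u g)
      filter_upwards [e1, e2, e3, e4] with x a1 a2 a3 a4
      rw [a1, a2, a4, a3]
      rw [W7_p_succ]
      ring
    rw [pow_succ', hAk, ← mul_assoc, key, pow_succ', mul_assoc]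

theorem t_W7 (h1 : P_Z1) (h2 : P_Y5) : P_W7 := by
  intro S hS φ R hφ u A hu hA c k
  obtain ⟨M, hM, hAk⟩ := W7_pow h1 S hS φ R hφ (u : LI →L[ℂ] LI) A hu hA k
  have hMs := (h2 S hS (u : LI →L[ℂ] LI) hu).2 _ M hM
  have hpow : ((c : ℂ) • star A) ^ k = ((c : ℂ) ^ k) • star (A ^ k) := by
    rw [smul_pow, star_pow]
  have e1 : (u : LI →L[ℂ] LI) ^ k * star ((u : LI →L[ℂ] LI) ^ k) = 1 := by
    have := (Unitary.mem_iff.mp (u ^ k).2).2
    simpa using this
  have e2 : star (((c : ℂ) • star A) ^ k) * ((c : ℂ) • star A) ^ k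
      = (((c : ℂ) ^ k) * ((c : ℂ) ^ k)) • (M * star M) := by
    rw [hpow, star_smul, star_star, smul_mul_smul_comm, hAk, star_mul]
    congr 1
    · rw [Complex.star_def, map_pow, Complex.conj_ofReal]
    · calc M * (u : LI →L[ℂ] LI) ^ k * (star ((u : LI →L[ℂ] LI) ^ k) * star M)
          = M * ((u : LI →L[ℂ] LI) ^ k * star ((u : LI →L[ℂ] LI) ^ k)) * star M := by
            simp only [mul_assoc]
        _ = M * star M := by rw [e1, mul_one]
  rw [e2]
  have h3 := W7_smul (((c : ℂ) ^ k) * ((c : ℂ) ^ k)) (W7_mulmul hM hMs)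
  have h4 : (fun x => ((∏ j ∈ Finset.range k, (c * ‖φ (S^[j] x)‖) ^ 2 : ℝ) : ℂ))
      = fun x => (((c : ℂ) ^ k) * ((c : ℂ) ^ k)) * (W7_p S φ k x * conj (W7_p S φ k x)) := by
    funext x
    have e5 : W7_p S φ k x * conj (W7_p S φ k x) = ((‖W7_p S φ k x‖ ^ 2 : ℝ) : ℂ) := by
      rw [Complex.mul_conj, Complex.normSq_eq_norm_sq]
    have : ∏ j ∈ Finset.range k, (c * ‖φ (S^[j] x)‖) ^ 2
        = c ^ k * c ^ k * ‖W7_p S φ k x‖ ^ 2 := by
      unfold W7_p
      rw [Finset.prod_pow, Finset.prod_mul_distrib, Finset.prod_const, Finset.card_range, norm_prod]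
      ring
    rw [this, e5]
    push_cast
    ring
  rw [h4]
  exact h3

end Pool.Agent.H417B
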