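import Pool.Agent.H417B.Stmts2

/-! W8: the log integral for weights (helper501, adapted from Y8 by helper465). -/

set_option autoImplicit false
open scoped ComplexConjugate InnerProductSpace Topology
open Filter MeasureTheory

namespace Pool.Agent.H417B

open Pool.Agent.H712R5.BO

theorem t_W8 : P_W8 := by
  intro S hS φ R hφ k δ hδ
  set μ : Measure ℝ := volume.restrict (Set.Ico (0:ℝ) 1) with hμ
  have hprob : IsProbabilityMeasure μ := ⟨by simp [hμ]⟩
  have hm : ∀ j : ℕ, MeasurePreserving (S^[j]) μ μ := fun j => hS.iterate j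
  set c : ℝ := ∫ x in Set.Ico (0:ℝ) 1, Real.log ‖φ x‖ with hc
  have hnc : nc φ = Real.exp (-c) := rfl
  have hnc0 : 0 < nc φ := by
    rw [hnc]
    exact Real.exp_pos _
  set g : ℝ → ℝ := fun x => Real.log ‖φ x‖ with hg
  have hgm : Measurable g := Real.measurable_log.comp hφ.meas.norm
  have hgi : Integrable g μ := hφ.int
  have hint : ∀ j : ℕ, Integrable (fun x : ℝ => g (S^[j] x)) μ := by
    intro j
    have := (hm j).integrable_comp (g := g) hgm.aestronglyMeasurable
    exact this.2 hgi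
  have hval : ∀ j : ℕ, ∫ x, g (S^[j] x) ∂μ = c := by
    intro j
    have h1 : ∫ y, g y ∂(Measure.map (S^[j]) μ) = ∫ x, g (S^[j] x) ∂μ :=
      integral_map (hm j).measurable.aemeasurable hgm.aestronglyMeasurable
    rw [← h1, (hm j).map_eq]
  have hpos : ∀ j : ℕ, ∀ᵐ x ∂μ, φ (S^[j] x) ≠ 0 := by
    intro j
    exact (hm j).quasiMeasurePreserving.ae hφ.ne
  -- the lower function
  have hlow_int : Integrable (fun x : ℝ => ∑ j ∈ Finset.range k,
      2 * (-c + g (S^[j] x))) μ := by
    refine integrable_finsetSum _ (fun j _ => ?_)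
    exact ((integrable_const (-c)).add (hint _)).const_mul 2
  have hlow_val : ∫ x, (∑ j ∈ Finset.range k, 2 * (-c + g (S^[j] x))) ∂μ = 0 := by
    rw [integral_finsetSum]
    · refine Finset.sum_eq_zero (fun j _ => ?_)
      rw [integral_const_mul, integral_add (integrable_const (-c)) (hint _), hval]
      simp
    · intro j _
      exact ((integrable_const (-c)).add (hint _)).const_mul 2
  have hprod_nonneg : ∀ x : ℝ, 0 ≤ ∏ j ∈ Finset.range k,
      (nc φ * ‖φ (S^[j] x)‖) ^ 2 := fun x =>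
    Finset.prod_nonneg (fun j _ => sq_nonneg _)
  have hprod_le : ∀ x : ℝ, ∏ j ∈ Finset.range k,
      (nc φ * ‖φ (S^[j] x)‖) ^ 2 ≤ ((nc φ * R) ^ 2) ^ k := by
    intro x
    calc ∏ j ∈ Finset.range k, (nc φ * ‖φ (S^[j] x)‖) ^ 2
        ≤ ∏ j ∈ Finset.range k, (nc φ * R) ^ 2 := by
          refine Finset.prod_le_prod (fun j _ => sq_nonneg _) (fun j _ => ?_)
          exact pow_le_pow_left₀ (mul_nonneg hnc0.le (norm_nonneg _))
            (mul_le_mul_of_nonneg_left (hφ.bd _) hnc0.le) 2
      _ = ((nc φ * R) ^ 2) ^ k := by simp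
  have hF_meas : Measurable (fun x : ℝ => Real.log (δ + ∏ j ∈ Finset.range k,
      (nc φ * ‖φ (S^[j] x)‖) ^ 2)) := by
    refine Real.measurable_log.comp (measurable_const.add ?_)
    refine Finset.measurable_prod _ (fun j _ => ?_)
    exact (((hφ.meas.comp (hm j).measurable).norm).const_mul _).pow_const 2
  have hF_int : Integrable (fun x : ℝ => Real.log (δ + ∏ j ∈ Finset.range k,
      (nc φ * ‖φ (S^[j] x)‖) ^ 2)) μ := by
    refine Integrable.of_bound hF_meas.aestronglyMeasurable
      (max |Real.log δ| |Real.log (δ + ((nc φ * R) ^ 2) ^ k)|)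
      (Eventually.of_forall (fun x => ?_))
    rw [Real.norm_eq_abs]
    have h1 : Real.log δ ≤ Real.log (δ + ∏ j ∈ Finset.range k,
      (nc φ * ‖φ (S^[j] x)‖) ^ 2) :=
      Real.log_le_log hδ (by linarith [hprod_nonneg x])
    have h2 : Real.log (δ + ∏ j ∈ Finset.range k,
      (nc φ * ‖φ (S^[j] x)‖) ^ 2) ≤
        Real.log (δ + ((nc φ * R) ^ 2) ^ k) :=
      Real.log_le_log (by linarith [hprod_nonneg x]) (by linarith [hprod_le x])
    exact abs_le_max_abs_abs h1 h2
  rw [← hlow_val]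
  refine integral_mono_ae hlow_int hF_int ?_
  have hall : ∀ᵐ x ∂μ, ∀ j : ℕ, φ (S^[j] x) ≠ 0 := by
    rw [ae_all_iff]
    intro j
    exact hpos _
  filter_upwards [hall] with x hx
  have hn : ∀ j : ℕ, 0 < ‖φ (S^[j] x)‖ := fun j => norm_pos_iff.2 (hx j)
  have hpp : 0 < ∏ j ∈ Finset.range k, (nc φ * ‖φ (S^[j] x)‖) ^ 2 := by
    refine Finset.prod_pos (fun j hj => ?_)
    have := hn j
    positivity
  have e1 : ∑ j ∈ Finset.range k, 2 * (-c + g (S^[j] x))
      = Real.log (∏ j ∈ Finset.range k, (nc φ * ‖φ (S^[j] x)‖) ^ 2) := by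
    rw [Real.log_prod]
    · refine Finset.sum_congr rfl (fun j hj => ?_)
      have h1 := hn j
      rw [Real.log_pow, Real.log_mul hnc0.ne' h1.ne', hnc, Real.log_exp]
      norm_num [hg]
    · intro j hj
      have := hn j
      positivity
  rw [e1]
  exact Real.log_le_log hpp (by linarith)

end Pool.Agent.H417B
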