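import Pool.Agent.H417B.Stmts2

/-! Task W9 (helper255): the log hypothesis of `GMAINR` for `T = c A*`. Adapted from `Y9` of helper487. -/

set_option autoImplicit false
open scoped ComplexConjugate InnerProductSpace Topology
open Filter MeasureTheory NormedSpace

namespace Pool.Agent.H417B
open Pool.Agent.H712R5.BO

/-- the function `g` -/
noncomputable def W9_g (S : ℝ → ℝ) (φ : ℝ → ℂ) (δ : ℝ) (k : ℕ) (x : ℝ) : ℝ :=
  δ + ∏ j ∈ Finset.range k, (nc φ * ‖φ (S^[j] x)‖) ^ 2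

theorem W9_nc_pos (φ : ℝ → ℂ) : 0 < nc φ := Real.exp_pos _

theorem W9_g_meas (S : ℝ → ℝ) (hS : Measurable S) (φ : ℝ → ℂ) (hφ : Measurable φ) (δ : ℝ)
    (k : ℕ) : Measurable (W9_g S φ δ k) := by
  unfold W9_g
  refine measurable_const.add (Finset.measurable_prod _ fun j _ => ?_)
  exact ((hφ.comp (hS.iterate j)).norm.const_mul _).pow_const 2

theorem W9_g_bd (S : ℝ → ℝ) (φ : ℝ → ℂ) (R : ℝ) (hR : ∀ x, ‖φ x‖ ≤ R) (δ : ℝ) (k : ℕ) (x : ℝ) :
    δ ≤ W9_g S φ δ k x ∧ W9_g S φ δ k x ≤ δ + ((nc φ * R) ^ 2) ^ k := by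
  unfold W9_g
  constructor
  · have : 0 ≤ ∏ j ∈ Finset.range k, (nc φ * ‖φ (S^[j] x)‖) ^ 2 :=
      Finset.prod_nonneg fun j _ => sq_nonneg _
    linarith
  · have : ∏ j ∈ Finset.range k, (nc φ * ‖φ (S^[j] x)‖) ^ 2 ≤
        ∏ _j ∈ Finset.range k, (nc φ * R) ^ 2 := by
      refine Finset.prod_le_prod (fun j _ => sq_nonneg _) fun j _ => ?_
      refine pow_le_pow_left₀ (mul_nonneg (W9_nc_pos φ).le (norm_nonneg _)) ?_ 2
      exact mul_le_mul_of_nonneg_left (hR _) (W9_nc_pos φ).le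
    rw [Finset.prod_const, Finset.card_range] at this
    linarith

theorem t_W9 (h1 : P_W7) (h2 : P_W8) (h3 : P_Z5) : P_W9 := by
  intro S hS φ R hφ u A v hu hA hv k δ hδ
  set T : LI →L[ℂ] LI := (nc φ : ℂ) • star A with hTdef
  have hM := h1 S hS φ R hφ u A hu hA (nc φ) k
  have hB : ∀ f : LI, ((algebraMap ℝ (LI →L[ℂ] LI) δ + star (T ^ k) * T ^ k) f : ℝ → ℂ)
      =ᵐ[volume.restrict (Set.Ico (0:ℝ) 1)] (fun x => (W9_g S φ δ k x : ℂ) * (f : ℝ → ℂ) x) := by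
    intro f
    have h4 : (algebraMap ℝ (LI →L[ℂ] LI) δ + star (T ^ k) * T ^ k) f =
        (δ : ℂ) • f + (star (T ^ k) * T ^ k) f := by
      rw [_root_.add_apply, Algebra.algebraMap_eq_smul_one]
      congr 1
    rw [h4]
    filter_upwards [Lp.coeFn_add ((δ : ℂ) • f) ((star (T ^ k) * T ^ k) f),
      Lp.coeFn_smul (δ : ℂ) f, hM f] with x h5 h6 h7
    rw [h5, Pi.add_apply, h6, h7, Pi.smul_apply, smul_eq_mul]
    unfold W9_g
    push_cast
    ring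
  have h5 := h3 _ (W9_g S φ δ k) δ (δ + ((nc φ * R) ^ 2) ^ k) v hδ
    (W9_g_meas S hS.measurable φ hφ.meas δ k) (W9_g_bd S φ R hφ.bd δ k) hB hv
  have h6 := h2 S hS φ R hφ k δ hδ
  change 0 ≤ ∫ x in Set.Ico (0:ℝ) 1, Real.log (W9_g S φ δ k x) at h6
  exact h6.trans (le_of_eq h5.symm)

end Pool.Agent.H417B
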