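import Pool.Agent.H417B.Stmts2

set_option autoImplicit false
open scoped ComplexConjugate InnerProductSpace Topology
open Filter MeasureTheory NormedSpace

namespace Pool.Agent.H417B
open Pool.Agent.H712R5.BO

theorem WFIN_A_ne (S : ℝ → ℝ) (φ : ℝ → ℂ) (R : ℝ) (hφ : Wt φ R) (u A : LI →L[ℂ] LI)
    (hu : Koop S u) (hiso : ∀ f, ‖u f‖ = ‖f‖)
    (hA : WB S φ A) (f : LI) (hf : A f = 0) : f = 0 := by
  have h1 := hA f
  rw [hf] at h1
  have h2 : (u f : ℝ → ℂ) =ᵐ[mu] 0 := by
    filter_upwards [h1, hu f, hφ.ne, Lp.coeFn_zero ℂ 2 mu] with x hx hx2 hx3 hx4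
    rw [hx2]
    rw [hx4] at hx
    have hx5 : φ x * (f : ℝ → ℂ) (S x) = 0 := hx.symm
    rcases mul_eq_zero.mp hx5 with h | h
    · exact absurd h hx3
    · exact h
  have h3 : u f = 0 := (Lp.eq_zero_iff_ae_eq_zero).mpr h2
  have h4 := hiso f
  rw [h3, norm_zero] at h4
  exact norm_eq_zero.mp h4.symm

theorem WFIN_Bis (h2 : P_Z1) (S : ℝ → ℝ) (u : LI →L[ℂ] LI) (hu : Koop S u) :
    ∃ A : LI →L[ℂ] LI, Bis S A := by
  obtain ⟨M, -, hM⟩ := h2 (fun x => ((cl x : ℝ) : ℂ)) 1
    (by
      apply Complex.measurable_ofReal.comp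
      unfold cl
      exact measurable_const.max (measurable_const.min measurable_id))
    (by
      intro x
      rw [Complex.norm_real, Real.norm_eq_abs, abs_le]
      unfold cl
      constructor
      · linarith [le_max_left (0:ℝ) (min 1 x)]
      · exact max_le zero_le_one (min_le_left _ _))
  refine ⟨M * u, fun f => ?_⟩
  have hmem : ∀ᵐ x ∂mu, x ∈ Set.Ico (0:ℝ) 1 := ae_restrict_mem measurableSet_Ico
  show (M (u f) : ℝ → ℂ) =ᵐ[mu] _
  filter_upwards [hM (u f), hu f, hmem] with x hx hx2 hx3
  rw [hx, hx2]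
  have : cl x = x := by
    unfold cl
    rw [min_eq_right hx3.2.le, max_eq_right hx3.1]
  rw [this]

theorem t_WFIN (h1 : P_GMAINR) (h2 : P_Z1) (h3 : P_Z3) (h4 : P_Y1) (h5 : P_W2) (h6 : P_W3)
    (h7 : P_Y6) (h8 : P_W6) (h9 : P_W9) : P_WFIN := by
  intro S hS φ R hφ A hA
  obtain ⟨u, hu, hiso⟩ := h4 S hS
  obtain ⟨b, E, hb, hE⟩ := h3
  have hb0 : (b 0 : LI) ≠ 0 := by
    intro h
    have := b.orthonormal.1 0
    rw [h, norm_zero] at this
    exact zero_ne_one this
  by_cases hd : Dense (Set.range A)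
  · have hsurj := h5 S hS φ R hφ u A hu hA hd
    have hs1 : star u * u = 1 := by
      have := (ContinuousLinearMap.norm_map_iff_adjoint_comp_self u).mp hiso
      rw [ContinuousLinearMap.star_eq_adjoint]
      exact this
    have hs2 : u * star u = 1 := by
      ext1 y
      obtain ⟨x, rfl⟩ := hsurj y
      have h9 : star u (u x) = x := by
        have := congrArg (fun T : LI →L[ℂ] LI => T x) hs1
        exact this
      show u (star u (u x)) = u x
      rw [h9]
    let U : unitary (LI →L[ℂ] LI) := ⟨u, Unitary.mem_iff.mpr ⟨hs1, hs2⟩⟩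
    obtain ⟨A0, hA0⟩ := WFIN_Bis h2 S u hu
    obtain ⟨hDat, -, -⟩ := h7 S hS b E U A0 hu hA0 hb hE
    have hcomm := h8 S hS φ R hφ E U A hu hA hE (nc φ)
    by_cases hper : ∀ n : ℤ, n ≠ 0 → (star U) ^ n ≠ 1
    · have hone : (b 0 : ℝ → ℂ) =ᵐ[mu] (fun _ => 1) := by
        filter_upwards [hb 0] with x hx
        rw [hx]
        simp
      obtain ⟨V', hc, hbot, htop, hinv⟩ := h1 LI b E (star U) hDat hper
        ((nc φ : ℂ) • star A) hcomm
        (fun k δ _ hδ => h9 S hS φ R hφ U A (b 0) hu hA hone k δ hδ)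
      have : CompleteSpace V' := hc.completeSpace_coe
      refine ⟨V'ᗮ, Submodule.isClosed_orthogonal V', ?_, ?_, ?_⟩
      · intro h
        exact htop (Submodule.orthogonal_eq_bot_iff.mp h)
      · intro h
        apply hbot
        have h9 := Submodule.le_orthogonal_orthogonal V'
        rw [h, Submodule.top_orthogonal_eq_bot] at h9
        exact le_bot_iff.mp h9
      · intro v hv
        rw [Submodule.mem_orthogonal] at hv ⊢
        intro w hw
        have h9 := hv _ (hinv w hw)
        have h10 : ⟪((nc φ : ℂ) • star A) w, v⟫_ℂ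
            = conj (nc φ : ℂ) * ⟪w, A v⟫_ℂ := by
          rw [_root_.smul_apply, inner_smul_left, ContinuousLinearMap.star_eq_adjoint,
            ContinuousLinearMap.adjoint_inner_left]
        rw [h10] at h9
        rcases mul_eq_zero.mp h9 with h | h
        · exfalso
          rw [Complex.conj_ofReal] at h
          exact (Real.exp_pos _).ne' (Complex.ofReal_eq_zero.mp h)
        · exact h
    · push Not at hper
      obtain ⟨n, hn, hn1⟩ := hper
      have e0 : star U = U⁻¹ := rfl
      have e1 : U ^ n = 1 := by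
        rw [e0, inv_zpow, inv_eq_one] at hn1
        exact hn1
      have e2 : U ^ n.natAbs = 1 := by
        rcases Int.natAbs_eq n with h | h
        · rw [h, zpow_natCast] at e1
          exact e1
        · rw [h, zpow_neg, zpow_natCast, inv_eq_one] at e1
          exact e1
      have e3 : u ^ n.natAbs = 1 := by
        have := congrArg (fun W : unitary (LI →L[ℂ] LI) => (W : LI →L[ℂ] LI)) e2
        simpa [U] using this
      exact h6 S hS φ R hφ u A hu hA n.natAbs (Int.natAbs_pos.mpr hn) e3
  · refine ⟨(LinearMap.range (A : LI →ₗ[ℂ] LI)).topologicalClosure,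
      Submodule.isClosed_topologicalClosure _, ?_, ?_, ?_⟩
    · intro h
      apply hb0
      apply WFIN_A_ne S φ R hφ u A hu hiso hA
      have h9 : A (b 0) ∈ (LinearMap.range (A : LI →ₗ[ℂ] LI)).topologicalClosure :=
        Submodule.le_topologicalClosure _ ⟨b 0, rfl⟩
      rw [h] at h9
      exact (Submodule.mem_bot ℂ).mp h9
    · intro h
      apply hd
      have h9 := Submodule.dense_iff_topologicalClosure_eq_top.mpr h
      intro x
      exact h9 x
    · intro v _
      exact Submodule.le_topologicalClosure _ ⟨v, rfl⟩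

end Pool.Agent.H417B
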