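import Pool.Agent.H417B.Stmts3
import Pool.Agent.H417B.WFIN

set_option autoImplicit false
open scoped ComplexConjugate InnerProductSpace Topology
open Filter MeasureTheory NormedSpace

namespace Pool.Agent.H417B
open Pool.Agent.H712R5.BO

/-- the identity function as an element of `L²` detects periodicity -/
theorem WFINH_per (S : ℝ → ℝ) (hS : MeasurePreserving S mu mu) (u : LI →L[ℂ] LI) (hu : Koop S u)
    (n : ℕ) (hn : u ^ n = 1) : ∀ᵐ x ∂mu, S^[n] x = x := by
  have hmem : ∀ᵐ x ∂mu, x ∈ Set.Ico (0:ℝ) 1 := ae_restrict_mem measurableSet_Ico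
  have hL : MemLp (fun x : ℝ => (x : ℂ)) 2 mu := by
    refine MemLp.of_bound Complex.measurable_ofReal.aestronglyMeasurable 1 ?_
    filter_upwards [hmem] with x hx
    rw [Complex.norm_real, Real.norm_eq_abs, abs_le]
    constructor
    · linarith [hx.1]
    · exact hx.2.le
  set f : LI := hL.toLp _ with hf
  have hfx : (f : ℝ → ℂ) =ᵐ[mu] fun x : ℝ => (x : ℂ) := hL.coeFn_toLp
  have hpow : ∀ m : ℕ, ((u ^ m) f : ℝ → ℂ) =ᵐ[mu] fun x => (f : ℝ → ℂ) (S^[m] x) := by
    intro m
    induction m with
    | zero => simp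
    | succ m ih =>
      have e1 : (u ^ (m + 1)) f = u ((u ^ m) f) := by
        rw [pow_succ']; rfl
      rw [e1]
      have h2 := hS.quasiMeasurePreserving.ae ih
      filter_upwards [hu ((u ^ m) f), h2] with x h3 h4
      rw [h3, h4, Function.iterate_succ_apply]
  have h5 := hpow n
  rw [hn] at h5
  have h6 := (hS.iterate n).quasiMeasurePreserving.ae hfx
  filter_upwards [h5, hfx, h6] with x h7 h8 h9
  have h10 : (f : ℝ → ℂ) x = (f : ℝ → ℂ) (S^[n] x) := h7
  rw [h8, h9] at h10
  exact_mod_cast h10.symm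

theorem t_WFINH (h1 : P_GMAINH) (h2 : P_Z1) (h3 : P_Z3) (h4 : P_Y1) (h5 : P_W2)
    (h7 : P_Y6) (h8 : P_W6) (h9 : P_W9) : P_WFINH := by
  intro S hS haper φ R hφ A hA
  obtain ⟨u, hu, hiso⟩ := h4 S hS
  obtain ⟨b, E, hb, hE⟩ := h3
  have hb0 : (b 0 : LI) ≠ 0 := by
    intro h
    have := b.orthonormal.1 0
    rw [h, norm_zero] at this
    exact zero_ne_one this
  by_cases hd : Dense (Set.range A)
  · have hsurj := h5 S hS φ R hφ u A hu hA hd
    have hs1 : star u * u = 1 := by
      have := (ContinuousLinearMap.norm_map_iff_adjoint_comp_self u).mp hiso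
      rw [ContinuousLinearMap.star_eq_adjoint]
      exact this
    have hs2 : u * star u = 1 := by
      ext1 y
      obtain ⟨x, rfl⟩ := hsurj y
      have h9 : star u (u x) = x := by
        have := congrArg (fun T : LI →L[ℂ] LI => T x) hs1
        exact this
      show u (star u (u x)) = u x
      rw [h9]
    let U : unitary (LI →L[ℂ] LI) := ⟨u, Unitary.mem_iff.mpr ⟨hs1, hs2⟩⟩
    obtain ⟨A0, hA0⟩ := WFIN_Bis h2 S u hu
    obtain ⟨hDat, -, -⟩ := h7 S hS b E U A0 hu hA0 hb hE
    have hcomm := h8 S hS φ R hφ E U A hu hA hE (nc φ)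
    by_cases hper : ∀ n : ℤ, n ≠ 0 → (star U) ^ n ≠ 1
    · have hone : (b 0 : ℝ → ℂ) =ᵐ[mu] (fun _ => 1) := by
        filter_upwards [hb 0] with x hx
        rw [hx]
        simp
      obtain ⟨V', hc, hbot, htop, hinv⟩ := h1 LI b E (star U) hDat hper
        ((nc φ : ℂ) • star A) hcomm
        (fun k δ _ hδ => h9 S hS φ R hφ U A (b 0) hu hA hone k δ hδ)
      have : CompleteSpace V' := hc.completeSpace_coe
      refine ⟨V'ᗮ, Submodule.isClosed_orthogonal V', ?_, ?_, ?_⟩
      · intro h
        exact htop (Submodule.orthogonal_eq_bot_iff.mp h)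
      · intro h
        apply hbot
        have h9 := Submodule.le_orthogonal_orthogonal V'
        rw [h, Submodule.top_orthogonal_eq_bot] at h9
        exact le_bot_iff.mp h9
      · intro B hB v hv
        rw [Submodule.mem_orthogonal] at hv ⊢
        intro w hw
        have hcomB : star B * ((nc φ : ℂ) • star A) = ((nc φ : ℂ) • star A) * star B := by
          rw [mul_smul_comm, smul_mul_assoc, ← star_mul, ← star_mul, hB]
        have h9 := hv _ (hinv (star B) hcomB w hw)
        rw [ContinuousLinearMap.star_eq_adjoint, ContinuousLinearMap.adjoint_inner_left] at h9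
        exact h9
    · push Not at hper
      obtain ⟨n, hn, hn1⟩ := hper
      have e0 : star U = U⁻¹ := rfl
      have e1 : U ^ n = 1 := by
        rw [e0, inv_zpow, inv_eq_one] at hn1
        exact hn1
      have e2 : U ^ n.natAbs = 1 := by
        rcases Int.natAbs_eq n with h | h
        · rw [h, zpow_natCast] at e1
          exact e1
        · rw [h, zpow_neg, zpow_natCast, inv_eq_one] at e1
          exact e1
      have e3 : u ^ n.natAbs = 1 := by
        have := congrArg (fun W : unitary (LI →L[ℂ] LI) => (W : LI →L[ℂ] LI)) e2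
        simpa [U] using this
      exact absurd (WFINH_per S hS u hu n.natAbs e3)
        (haper n.natAbs (Int.natAbs_pos.mpr hn))
  · refine ⟨(LinearMap.range (A : LI →ₗ[ℂ] LI)).topologicalClosure,
      Submodule.isClosed_topologicalClosure _, ?_, ?_, ?_⟩
    · intro h
      apply hb0
      apply WFIN_A_ne S φ R hφ u A hu hiso hA
      have h9 : A (b 0) ∈ (LinearMap.range (A : LI →ₗ[ℂ] LI)).topologicalClosure :=
        Submodule.le_topologicalClosure _ ⟨b 0, rfl⟩
      rw [h] at h9
      exact (Submodule.mem_bot ℂ).mp h9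
    · intro h
      apply hd
      have h9 := Submodule.dense_iff_topologicalClosure_eq_top.mpr h
      intro x
      exact h9 x
    · intro B hB v hv
      have h10 : Set.MapsTo B (LinearMap.range (A : LI →ₗ[ℂ] LI) : Set LI)
          (LinearMap.range (A : LI →ₗ[ℂ] LI) : Set LI) := by
        rintro _ ⟨f, rfl⟩
        refine ⟨B f, ?_⟩
        exact (congrArg (fun W : LI →L[ℂ] LI => W f) hB).symm
      have h11 := h10.closure B.continuous
      exact h11 hv

end Pool.Agent.H417B
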