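import Pool.Agent.H417B.Stmts2

set_option autoImplicit false
open scoped ComplexConjugate InnerProductSpace Topology
open Filter MeasureTheory NormedSpace

namespace Pool.Agent.H417B
open Pool.Agent.H712R5.BO

/-- the indicator of a set of positive measure is not zero -/
theorem WRES_ind_ne (s : Set ℝ) (hs : MeasurableSet s) (h0 : mu s ≠ 0) :
    (indicatorConstLp 2 hs (measure_ne_top mu s) (1 : ℂ) : LI) ≠ 0 := by
  intro h
  have h1 := norm_indicatorConstLp (p := (2 : ENNReal)) (hs := hs)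
    (hμs := measure_ne_top mu s) (c := (1:ℂ)) (by norm_num) (by norm_num)
  rw [h, norm_zero] at h1
  have h2 : 0 < mu.real s := by
    rw [Measure.real]
    exact ENNReal.toReal_pos h0 (measure_ne_top mu s)
  have h3 : 0 < (mu.real s) ^ (1 / (2 : ENNReal).toReal) := Real.rpow_pos_of_pos h2 _
  simp only [norm_one, one_mul] at h1
  linarith

/-- a proper nonzero closed subspace -/
theorem WRES_zero : ∃ V : Submodule ℂ LI, IsClosed (V : Set LI) ∧ V ≠ ⊥ ∧ V ≠ ⊤ := by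
  set g : LI := indicatorConstLp 2 (measurableSet_Ico (a := (0:ℝ)) (b := 1/2))
    (measure_ne_top mu _) (1 : ℂ) with hg
  set h : LI := indicatorConstLp 2 (measurableSet_Ico (a := (1/2:ℝ)) (b := 1))
    (measure_ne_top mu _) (1 : ℂ) with hh
  have hg0 : g ≠ 0 := by
    apply WRES_ind_ne
    rw [Measure.restrict_apply measurableSet_Ico, Set.Ico_inter_Ico]
    norm_num
  have hh0 : h ≠ 0 := by
    apply WRES_ind_ne
    rw [Measure.restrict_apply measurableSet_Ico, Set.Ico_inter_Ico]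
    norm_num
  have hgh : ⟪g, h⟫_ℂ = 0 := by
    rw [hg, L2.inner_indicatorConstLp_one]
    have h1 : ∀ᵐ x ∂(mu.restrict (Set.Ico (0:ℝ) (1/2))), (h : ℝ → ℂ) x = 0 := by
      rw [ae_restrict_iff' measurableSet_Ico]
      have h2 : (h : ℝ → ℂ) =ᵐ[mu] (Set.Ico (1/2:ℝ) 1).indicator (fun _ => (1:ℂ)) :=
        indicatorConstLp_coeFn
      filter_upwards [h2] with x hx hx2
      rw [hx, Set.indicator_of_notMem]
      intro hx3
      have := hx3.1
      have := hx2.2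
      linarith
    rw [integral_congr_ae h1]
    simp
  refine ⟨Submodule.span ℂ {g}, Submodule.closed_of_finiteDimensional _, ?_, ?_⟩
  · intro h
    rw [Submodule.span_singleton_eq_bot] at h
    exact hg0 h
  · intro ht
    have h1 : h ∈ Submodule.span ℂ {g} := by rw [ht]; trivial
    obtain ⟨c, hc⟩ := Submodule.mem_span_singleton.mp h1
    have h2 : ⟪h, h⟫_ℂ = 0 := by
      nth_rewrite 1 [← hc]
      rw [inner_smul_left, hgh, mul_zero]
    exact hh0 (inner_self_eq_zero.mp h2)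

theorem WRES_vanish (S : ℝ → ℝ) (φ : ℝ → ℂ) (hφ : Measurable φ) (A : LI →L[ℂ] LI)
    (hA : WB S φ A) (hne : ¬ ∀ᵐ x ∂mu, φ x ≠ 0) :
    ∃ V : Submodule ℂ LI, IsClosed (V : Set LI) ∧ V ≠ ⊥ ∧ V ≠ ⊤ ∧ ∀ v ∈ V, A v ∈ V := by
  by_cases hA0 : A = 0
  · obtain ⟨V, h1, h2, h3⟩ := WRES_zero
    refine ⟨V, h1, h2, h3, ?_⟩
    intro v _
    rw [hA0]
    exact V.zero_mem
  set P : Set ℝ := {x | φ x = 0} with hPdef
  have hP : MeasurableSet P := hφ (measurableSet_singleton 0)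
  have hP0 : mu P ≠ 0 := by
    intro h
    apply hne
    rw [ae_iff]
    have : {a | ¬ φ a ≠ 0} = P := by
      ext x
      simp [hPdef]
    rw [this]
    exact h
  set g : LI := indicatorConstLp 2 hP (measure_ne_top mu P) (1 : ℂ) with hg
  have hg0 : g ≠ 0 := WRES_ind_ne P hP hP0
  have horth : ∀ f : LI, ⟪g, A f⟫_ℂ = 0 := by
    intro f
    rw [hg, L2.inner_indicatorConstLp_one]
    have h1 : ∀ᵐ x ∂(mu.restrict P), (A f : ℝ → ℂ) x = 0 := by
      rw [ae_restrict_iff' hP]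
      filter_upwards [hA f] with x hx hx2
      rw [hx]
      have h3 : φ x = 0 := hx2
      rw [h3, zero_mul]
    rw [integral_congr_ae h1]
    simp
  set V : Submodule ℂ LI := (LinearMap.range (A : LI →ₗ[ℂ] LI)).topologicalClosure with hV
  have hrV : ∀ f : LI, A f ∈ V := fun f =>
    Submodule.le_topologicalClosure _ (LinearMap.mem_range_self (A : LI →ₗ[ℂ] LI) f)
  refine ⟨V, Submodule.isClosed_topologicalClosure _, ?_, ?_, fun v _ => hrV v⟩
  · intro h
    apply hA0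
    ext1 f
    have h1 := hrV f
    rw [h] at h1
    simpa using h1
  · intro h
    have h1 : g ∈ V := by rw [h]; trivial
    have h2 : V ≤ (Submodule.span ℂ {g})ᗮ := by
      apply Submodule.topologicalClosure_minimal
      · rintro _ ⟨f, rfl⟩
        rw [Submodule.mem_orthogonal_singleton_iff_inner_right]
        exact horth f
      · exact Submodule.isClosed_orthogonal _
    have h3 := h2 h1
    rw [Submodule.mem_orthogonal_singleton_iff_inner_right] at h3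
    exact hg0 (inner_self_eq_zero.mp h3)

theorem WRES_mu (h1 : P_WFIN) (S : ℝ → ℝ) (hS : MeasurePreserving S mu mu) (φ : ℝ → ℂ) (R : ℝ)
    (hφ : Measurable φ) (hb : ∀ x, ‖φ x‖ ≤ R) (hi : Integrable (fun x => Real.log ‖φ x‖) mu)
    (A : LI →L[ℂ] LI) (hA : WB S φ A) :
    ∃ V : Submodule ℂ LI, IsClosed (V : Set LI) ∧ V ≠ ⊥ ∧ V ≠ ⊤ ∧ ∀ v ∈ V, A v ∈ V := by
  by_cases hne : ∀ᵐ x ∂mu, φ x ≠ 0
  · exact h1 S hS φ R ⟨hφ, hb, hne, hi⟩ A hA
  · exact WRES_vanish S φ hφ A hA hne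

theorem WRES_aux (h1 : P_WFIN) (m : Measure ℝ) (hm : m = volume.restrict (Set.Ico (0:ℝ) 1)) :
    ∀ T : ℝ → ℝ, MeasurePreserving T m m →
    ∀ (φ : ℝ → ℂ) (R : ℝ), Measurable φ → (∀ x, ‖φ x‖ ≤ R) →
    Integrable (fun x => Real.log ‖φ x‖) m →
    ∀ A : Lp ℂ (2 : ENNReal) m →L[ℂ] Lp ℂ (2 : ENNReal) m,
    (∀ f : Lp ℂ (2 : ENNReal) m, (A f : ℝ → ℂ) =ᵐ[m] fun x => φ x * (f : ℝ → ℂ) (T x)) →
    ∃ V : Submodule ℂ (Lp ℂ (2 : ENNReal) m),
      IsClosed (V : Set (Lp ℂ (2 : ENNReal) m)) ∧ V ≠ ⊥ ∧ V ≠ ⊤ ∧ ∀ v ∈ V, A v ∈ V := by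
  subst hm
  intro T hT φ R hφ hb hi A hA
  exact WRES_mu h1 T hT φ R hφ hb hi A hA

theorem t_WRES (h1 : P_WFIN) : P_WRES := by
  have hm : volume.restrict (Set.Ioo (0:ℝ) 1) = volume.restrict (Set.Ico (0:ℝ) 1) :=
    Measure.restrict_congr_set Ioo_ae_eq_Ico
  intro T hT φ R hφ hb hi A hA
  exact WRES_aux h1 _ hm T hT φ R hφ hb hi A hA

end Pool.Agent.H417B
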