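import Pool.Agent.H417B.Stmts

set_option autoImplicit false
open scoped ComplexConjugate InnerProductSpace Topology
open Filter MeasureTheory NormedSpace

namespace Pool.Agent.H417B
open Pool.Agent.H712R5.BO

theorem t_Y1 : P_Y1 := by
  intro S hS
  refine ⟨(Lp.compMeasurePreservingₗᵢ ℂ S hS (E := ℂ) (p := 2)).toContinuousLinearMap, ?_, ?_⟩
  · intro f
    have h := Lp.coeFn_compMeasurePreserving f hS
    exact h
  · intro f
    exact (Lp.compMeasurePreservingₗᵢ ℂ S hS (E := ℂ) (p := 2)).norm_map f

end Pool.Agent.H417B
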