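import Pool.Agent.H417B.Stmts

set_option autoImplicit false
open scoped ComplexConjugate InnerProductSpace Topology
open Filter MeasureTheory NormedSpace

namespace Pool.Agent.H417B
open Pool.Agent.H712R5.BO

theorem t_Y4 : P_Y4 := by
  intro g h m n hm hn
  refine ContinuousLinearMap.ext fun f => ?_
  apply Lp.ext
  show (m (n f) : ℝ → ℂ) =ᵐ[mu] (n (m f) : ℝ → ℂ)
  filter_upwards [hm (n f), hn f, hn (m f), hm f] with x h1 h2 h3 h4
  rw [h1, h2, h3, h4]
  ring

end Pool.Agent.H417B
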