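import Pool.Agent.H417B.Stmts

set_option autoImplicit false
open scoped ComplexConjugate InnerProductSpace Topology
open Filter MeasureTheory NormedSpace

namespace Pool.Agent.H417B
open Pool.Agent.H712R5.BO

theorem Y5_adj (g : ℝ → ℂ) (m : LI →L[ℂ] LI) (hm : Mul g m) :
    Mul (fun x => conj (g x)) (star m) := by
  intro f
  -- the constant function 1
  set one : LI := indicatorConstLp 2 (MeasurableSet.univ) (by simp) (1:ℂ) with hone
  have hone' : (one : ℝ → ℂ) =ᵐ[mu] fun _ => 1 := by
    filter_upwards [indicatorConstLp_coeFn (p := 2) (hs := MeasurableSet.univ)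
      (hμs := (by simp : mu Set.univ ≠ ⊤)) (c := (1:ℂ))] with x hx
    rw [hone, hx]; simp
  have hg : (m one : ℝ → ℂ) =ᵐ[mu] g := by
    filter_upwards [hm one, hone'] with x h1 h2
    rw [h1, h2, mul_one]
  have hgi : Integrable (fun x => conj (g x) * (f : ℝ → ℂ) x) mu := by
    have h1 : Integrable (fun x => conj ((m one : ℝ → ℂ) x) * (f : ℝ → ℂ) x) mu := by
      have h2 : MemLp (fun x => conj ((m one : ℝ → ℂ) x)) 2 mu := by
        have := (Lp.memLp (m one))
        exact this.star
      exact h2.integrable_mul (Lp.memLp f)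
    refine h1.congr ?_
    filter_upwards [hg] with x hx
    rw [hx]
  have hsi : Integrable (star m f : ℝ → ℂ) mu :=
    (Lp.memLp (star m f)).integrable (by norm_num)
  refine hsi.ae_eq_of_forall_setIntegral_eq (star m f : ℝ → ℂ) _ hgi ?_
  intro s hs hms
  have h3 : ∫ x in s, (star m f : ℝ → ℂ) x ∂mu
      = ⟪(indicatorConstLp 2 hs hms.ne (1:ℂ) : LI), star m f⟫_ℂ :=
    (L2.inner_indicatorConstLp_one hs hms.ne (star m f)).symm
  rw [h3, ContinuousLinearMap.star_eq_adjoint, ContinuousLinearMap.adjoint_inner_right,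
    L2.inner_def, ← integral_indicator hs]
  refine integral_congr_ae ?_
  filter_upwards [hm (indicatorConstLp 2 hs hms.ne (1:ℂ)),
    indicatorConstLp_coeFn (p := 2) (hs := hs) (hμs := hms.ne) (c := (1:ℂ))] with x h4 h5
  rw [h4, h5, RCLike.inner_apply]
  by_cases hx : x ∈ s
  · simp [hx, mul_comm]
  · simp [hx]

theorem t_Y5 : P_Y5 := by
  intro S hS u hu
  refine ⟨?_, fun g m hm => Y5_adj g m hm⟩
  intro g m hm f
  have h1 := hS.quasiMeasurePreserving.ae (hm f)
  filter_upwards [hu (m f), hu f, h1] with x h2 h3 h4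
  rw [h2, h3, h4]

end Pool.Agent.H417B
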