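import Pool.Agent.H417B.Stmts

/-!
# The hypotheses of `GMAIN` for `T = e A*`
-/

set_option autoImplicit false
open scoped ComplexConjugate InnerProductSpace Topology
open Filter MeasureTheory NormedSpace

namespace Pool.Agent.H417B
open Pool.Agent.H712R5.BO

theorem Y6_measurable_cl : Measurable (fun x : ℝ => ((cl x : ℝ) : ℂ)) := by
  apply Complex.measurable_ofReal.comp
  unfold cl
  exact measurable_const.max (measurable_const.min measurable_id)

theorem Y6_norm_cl (x : ℝ) : ‖((cl x : ℝ) : ℂ)‖ ≤ 1 := by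
  rw [Complex.norm_real, Real.norm_eq_abs, abs_le]
  unfold cl
  constructor
  · linarith [le_max_left 0 (min 1 x)]
  · exact max_le zero_le_one (min_le_left _ _)

theorem Y6_cl_eq {x : ℝ} (hx : x ∈ Set.Ico (0 : ℝ) 1) : cl x = x := by
  unfold cl
  rw [min_eq_right hx.2.le, max_eq_right hx.1]

theorem Y6_mem_Ico : ∀ᵐ x ∂mu, x ∈ Set.Ico (0 : ℝ) 1 :=
  ae_restrict_mem measurableSet_Ico

theorem Y6_scal {H : Type} [NormedAddCommGroup H] [InnerProductSpace ℂ H] [CompleteSpace H] (c : ℂ)
    (a u e : H →L[ℂ] H) (h : a * u * e = e * (a * u)) :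
    (c • a) * u * e = e * ((c • a) * u) := by
  rw [smul_mul_assoc, smul_mul_assoc, mul_smul_comm, h]

theorem Y6_norm {H : Type} [NormedAddCommGroup H] [InnerProductSpace ℂ H] [CompleteSpace H] (c : ℂ)
    (a : H →L[ℂ] H) : ‖c • star a‖ = ‖c‖ * ‖a‖ := by
  rw [norm_smul, norm_star]

theorem t_Y6 (h1 : P_Z1) (h2 : P_Y4) (h3 : P_Y5) : P_Y6 := by
  intro S hS b E u A hu hA hb hE
  have hus : ((star u : unitary (LI →L[ℂ] LI)) : LI →L[ℂ] LI) = star (u : LI →L[ℂ] LI) := rfl
  have e1 : (u : LI →L[ℂ] LI) * star (u : LI →L[ℂ] LI) = 1 := (Unitary.mem_iff.mp u.2).2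
  have e2 : star (u : LI →L[ℂ] LI) * (u : LI →L[ℂ] LI) = 1 := (Unitary.mem_iff.mp u.2).1
  set U : LI →L[ℂ] LI := (u : LI →L[ℂ] LI) with hU
  set V : LI →L[ℂ] LI := star U with hV
  set EE : LI →L[ℂ] LI := (E : LI →L[ℂ] LI) with hEE
  obtain ⟨h5a, h5b⟩ := h3 S hS U hu
  -- `W` is the multiplication by `e^{2πiSx}`
  have hW : Mul (fun x => Complex.exp (2 * Real.pi * Complex.I * S x)) (U * EE * V) := by
    intro f
    have h := h5a _ EE hE (V f)
    have h' : U (V f) = f := by
      have := congrArg (fun T : LI →L[ℂ] LI => T f) e1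
      simpa using this
    rw [h'] at h
    exact h
  have hWE : EE * (U * EE * V) = (U * EE * V) * EE := h2 _ _ _ _ hE hW
  obtain ⟨M, hM1, hM⟩ := h1 (fun x => ((cl x : ℝ) : ℂ)) 1 Y6_measurable_cl Y6_norm_cl
  have hMm : Mul (fun x => ((cl x : ℝ) : ℂ)) M := hM
  have hMs := h5b _ M hMm
  have hWM : star M * (U * EE * V) = (U * EE * V) * star M := h2 _ _ _ _ hMs hW
  have hAM : A = M * U := by
    ext1 f
    apply Lp.ext
    have g1 := hA f
    have g2 := hM (U f)
    have g3 := hu f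
    filter_upwards [g1, g2, g3, Y6_mem_Ico] with x x1 x2 x3 x4
    rw [x1, ContinuousLinearMap.mul_apply, x2, x3, Y6_cl_eq x4]
  refine ⟨⟨?_, ?_, ?_⟩, ?_, ?_⟩
  · intro r
    apply Lp.ext
    filter_upwards [hE (b r), hb r, hb (r + 1)] with x x1 x2 x3
    rw [x1, x2, x3, ← Complex.exp_add]
    congr 1
    push_cast
    ring
  · have hb0 : (b 0 : ℝ → ℂ) =ᵐ[mu] fun _ => 1 := by
      filter_upwards [hb 0] with x hx
      rw [hx]
      simp
    have hUb : U (b 0) = b 0 := by
      apply Lp.ext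
      have g1 := hu (b 0)
      have g2 := hS.quasiMeasurePreserving.ae_eq_comp hb0
      filter_upwards [g1, g2, hb0] with x x1 x2 x3
      rw [x1, x3]
      exact x2
    rw [hus]
    calc V (b 0) = V (U (b 0)) := by rw [hUb]
      _ = (V * U) (b 0) := rfl
      _ = b 0 := by rw [e2]; rfl
  · rw [hus, hV, star_star, ← hV]
    calc V * EE * U * EE = V * EE * U * EE * 1 := by rw [mul_one]
      _ = V * EE * U * EE * (V * U) := by rw [e2]
      _ = V * (EE * (U * EE * V)) * U := by simp only [mul_assoc]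
      _ = V * ((U * EE * V) * EE) * U := by rw [hWE]
      _ = (V * U) * EE * V * EE * U := by simp only [mul_assoc]
      _ = EE * (V * EE * U) := by rw [e2, one_mul]; simp only [mul_assoc]
  · rw [hus, hV, star_star]
    apply Y6_scal
    have hAs : star A = V * star M := by rw [hAM, star_mul]
    rw [hAs]
    calc V * star M * U * EE = V * star M * U * EE * (V * U) := by rw [e2, mul_one]
      _ = V * (star M * (U * EE * V)) * U := by simp only [mul_assoc]
      _ = V * ((U * EE * V) * star M) * U := by rw [hWM]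
      _ = (V * U) * EE * V * star M * U := by simp only [mul_assoc]
      _ = EE * (V * star M * U) := by rw [e2, one_mul]; simp only [mul_assoc]
  · have hUn : ‖U‖ ≤ 1 := by
      refine ContinuousLinearMap.opNorm_le_bound _ zero_le_one fun f => ?_
      rw [one_mul]
      exact le_of_eq (ContinuousLinearMap.norm_map_of_mem_unitary u.2 f)
    have hAn : ‖A‖ ≤ 1 := by
      rw [hAM]
      calc ‖M * U‖ ≤ ‖M‖ * ‖U‖ := norm_mul_le _ _
        _ ≤ 1 * 1 := mul_le_mul hM1 hUn (norm_nonneg _) zero_le_one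
        _ = 1 := one_mul 1
    rw [Y6_norm, Complex.norm_real, Real.norm_eq_abs, abs_of_pos (Real.exp_pos 1)]
    have h7 := Real.exp_one_lt_d9
    calc Real.exp 1 * ‖A‖ ≤ Real.exp 1 * 1 :=
          mul_le_mul_of_nonneg_left hAn (Real.exp_pos 1).le
      _ ≤ 3 := by linarith

end Pool.Agent.H417B
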