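import Pool.Agent.H417B.Stmts

/-!
Task Y7: `|T^k|^2` is a multiplication operator.
-/

set_option autoImplicit false
open scoped ComplexConjugate InnerProductSpace Topology
open Filter MeasureTheory NormedSpace

namespace Pool.Agent.H417B
open Pool.Agent.H712R5.BO

theorem Y7_mulmul {g h : ℝ → ℂ} {m n : LI →L[ℂ] LI} (hm : Mul g m) (hn : Mul h n) :
    Mul (fun x => g x * h x) (m * n) := by
  intro f
  have h1 := hm (n f)
  have h2 := hn f
  filter_upwards [h1, h2] with x e1 e2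
  show (m (n f) : ℝ → ℂ) x = _
  rw [e1, e2, mul_assoc]

theorem Y7_smul (c : ℂ) {g : ℝ → ℂ} {m : LI →L[ℂ] LI} (hm : Mul g m) :
    Mul (fun x => c * g x) (c • m) := by
  intro f
  have h1 := hm f
  have h2 : ((c • m) f) = c • (m f) := rfl
  rw [h2]
  filter_upwards [h1, Lp.coeFn_smul c (m f)] with x e1 e2
  rw [e2, Pi.smul_apply, e1, smul_eq_mul, mul_assoc]

theorem Y7_cl_meas : Measurable cl := by
  unfold cl
  fun_prop

theorem Y7_cl_mem (x : ℝ) : 0 ≤ cl x ∧ cl x ≤ 1 := by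
  unfold cl
  exact ⟨le_max_left _ _, max_le zero_le_one (min_le_left _ _)⟩

theorem Y7_cl_eq {x : ℝ} (hx : x ∈ Set.Ico (0:ℝ) 1) : cl x = x := by
  unfold cl
  rw [min_eq_right hx.2.le, max_eq_right hx.1]

/-- the product of clamped values along the orbit -/
noncomputable def Y7_p (S : ℝ → ℝ) (k : ℕ) (x : ℝ) : ℝ := ∏ j ∈ Finset.range k, cl (S^[j] x)

theorem Y7_p_meas {S : ℝ → ℝ} (hS : Measurable S) (k : ℕ) : Measurable (Y7_p S k) := by
  unfold Y7_p
  exact Finset.measurable_fun_prod _ fun j _ => Y7_cl_meas.comp (hS.iterate j)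

theorem Y7_p_mem (S : ℝ → ℝ) (k : ℕ) (x : ℝ) : 0 ≤ Y7_p S k x ∧ Y7_p S k x ≤ 1 := by
  unfold Y7_p
  exact ⟨Finset.prod_nonneg fun j _ => (Y7_cl_mem _).1,
    Finset.prod_le_one (fun j _ => (Y7_cl_mem _).1) fun j _ => (Y7_cl_mem _).2⟩

theorem Y7_p_succ (S : ℝ → ℝ) (k : ℕ) (x : ℝ) : Y7_p S (k + 1) x = cl x * Y7_p S k (S x) := by
  unfold Y7_p
  rw [Finset.prod_range_succ', mul_comm]
  simp

theorem Y7_pow (h1 : P_Z1) (S : ℝ → ℝ) (hS : MeasurePreserving S mu mu)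
    (u A : LI →L[ℂ] LI) (hu : Koop S u) (hA : Bis S A) (k : ℕ) :
    ∃ M : LI →L[ℂ] LI, Mul (fun x => ((Y7_p S k x : ℝ) : ℂ)) M ∧ A ^ k = M * u ^ k := by
  have hM : ∀ k, ∃ M : LI →L[ℂ] LI, Mul (fun x => ((Y7_p S k x : ℝ) : ℂ)) M := by
    intro k
    obtain ⟨M, -, hM⟩ := h1 (fun x => ((Y7_p S k x : ℝ) : ℂ)) 1
      (Complex.measurable_ofReal.comp (Y7_p_meas hS.measurable k)) (fun x => by
        rw [Complex.norm_real, Real.norm_eq_abs, abs_of_nonneg (Y7_p_mem S k x).1]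
        exact (Y7_p_mem S k x).2)
    exact ⟨M, hM⟩
  induction k with
  | zero =>
    refine ⟨1, ?_, by simp⟩
    intro f
    refine Eventually.of_forall fun x => ?_
    simp [Y7_p]
  | succ k ih =>
    obtain ⟨M, hMk, hAk⟩ := ih
    obtain ⟨M', hM'⟩ := hM (k + 1)
    refine ⟨M', hM', ?_⟩
    have key : A * M = M' * u := by
      refine ContinuousLinearMap.ext fun g => ?_
      show A (M g) = M' (u g)
      refine Lp.ext ?_
      have e1 := hA (M g)
      have e2 := hS.quasiMeasurePreserving.ae (hMk g)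
      have e3 := hu g
      have e4 := hM' (u g)
      have e5 : ∀ᵐ x ∂mu, x ∈ Set.Ico (0:ℝ) 1 := ae_restrict_mem measurableSet_Ico
      filter_upwards [e1, e2, e3, e4, e5] with x a1 a2 a3 a4 a5
      rw [a1, a2, a4, a3]
      rw [Y7_p_succ, Y7_cl_eq a5]
      push_cast
      ring
    rw [pow_succ', hAk, ← mul_assoc, key, pow_succ', mul_assoc]

theorem t_Y7 (h1 : P_Z1) (h2 : P_Y5) : P_Y7 := by
  intro S hS u A hu hA k
  obtain ⟨M, hM, hAk⟩ := Y7_pow h1 S hS (u : LI →L[ℂ] LI) A hu hA k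
  have hMs := (h2 S hS (u : LI →L[ℂ] LI) hu).2 _ M hM
  have hpow : ((Real.exp 1 : ℂ) • star A) ^ k = ((Real.exp 1 : ℂ) ^ k) • star (A ^ k) := by
    rw [smul_pow, star_pow]
  have e1 : (u : LI →L[ℂ] LI) ^ k * star ((u : LI →L[ℂ] LI) ^ k) = 1 := by
    have := (Unitary.mem_iff.mp (u ^ k).2).2
    simpa using this
  have e2 : star (((Real.exp 1 : ℂ) • star A) ^ k) * ((Real.exp 1 : ℂ) • star A) ^ k
      = (((Real.exp 1 : ℂ) ^ k) * ((Real.exp 1 : ℂ) ^ k)) • (M * star M) := by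
    rw [hpow, star_smul, star_star, smul_mul_smul_comm, hAk, star_mul]
    congr 1
    · rw [Complex.star_def, map_pow, Complex.conj_ofReal]
    · calc M * (u : LI →L[ℂ] LI) ^ k * (star ((u : LI →L[ℂ] LI) ^ k) * star M)
          = M * ((u : LI →L[ℂ] LI) ^ k * star ((u : LI →L[ℂ] LI) ^ k)) * star M := by
            simp only [mul_assoc]
        _ = M * star M := by rw [e1, mul_one]
  rw [e2]
  have h3 := Y7_smul (((Real.exp 1 : ℂ) ^ k) * ((Real.exp 1 : ℂ) ^ k)) (Y7_mulmul hM hMs)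
  have h4 : (fun x => ((∏ j ∈ Finset.range k, (Real.exp 1 * cl (S^[j] x)) ^ 2 : ℝ) : ℂ))
      = fun x => (((Real.exp 1 : ℂ) ^ k) * ((Real.exp 1 : ℂ) ^ k))
        * (((Y7_p S k x : ℝ) : ℂ) * conj ((Y7_p S k x : ℝ) : ℂ)) := by
    funext x
    rw [Complex.conj_ofReal]
    have : ∏ j ∈ Finset.range k, (Real.exp 1 * cl (S^[j] x)) ^ 2
        = Real.exp 1 ^ k * Real.exp 1 ^ k * (Y7_p S k x * Y7_p S k x) := by
      unfold Y7_p
      rw [Finset.prod_pow, Finset.prod_mul_distrib, Finset.prod_const, Finset.card_range]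
      ring
    rw [this]
    push_cast
    ring
  rw [h4]
  exact h3

end Pool.Agent.H417B
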