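import Pool.Agent.H417B.Stmts

set_option autoImplicit false
open scoped ComplexConjugate InnerProductSpace Topology
open Filter MeasureTheory

namespace Pool.Agent.H417B

open Pool.Agent.H712R5.BO

theorem Y8_log_int : Integrable Real.log (volume.restrict (Set.Ico (0:ℝ) 1)) := by
  have h : IntervalIntegrable Real.log volume 0 1 := intervalIntegral.intervalIntegrable_log'
  rw [intervalIntegrable_iff_integrableOn_Ico_of_le zero_le_one] at h
  exact h

theorem Y8_log_val : ∫ x in Set.Ico (0:ℝ) 1, Real.log x = -1 := by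
  have h : ∫ x in (0:ℝ)..1, Real.log x = -1 := by
    rw [integral_log]; simp
  rw [intervalIntegral.integral_of_le zero_le_one, ← integral_Ico_eq_integral_Ioc] at h
  exact h

theorem Y8_cl_nonneg (x : ℝ) : 0 ≤ cl x := le_max_left _ _

theorem Y8_cl_le (x : ℝ) : cl x ≤ 1 := max_le zero_le_one (min_le_left _ _)

theorem Y8_cl_eq {x : ℝ} (h0 : 0 < x) (h1 : x < 1) : cl x = x := by
  unfold cl
  rw [min_eq_right h1.le, max_eq_right h0.le]

theorem Y8_cl_meas : Measurable cl :=
  measurable_const.max (measurable_const.min measurable_id)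

theorem t_Y8 : P_Y8 := by
  intro S hS k δ hδ
  set μ : Measure ℝ := volume.restrict (Set.Ico (0:ℝ) 1) with hμ
  have hprob : IsProbabilityMeasure μ := ⟨by simp [hμ]⟩
  have hm : ∀ j : ℕ, MeasurePreserving (S^[j]) μ μ := fun j => hS.iterate j
  have hint : ∀ j : ℕ, Integrable (fun x : ℝ => Real.log (S^[j] x)) μ := by
    intro j
    have := (hm j).integrable_comp (g := Real.log) Real.measurable_log.aestronglyMeasurable
    exact this.2 Y8_log_int
  have hval : ∀ j : ℕ, ∫ x, Real.log (S^[j] x) ∂μ = -1 := by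
    intro j
    have h1 : ∫ y, Real.log y ∂(Measure.map (S^[j]) μ) = ∫ x, Real.log (S^[j] x) ∂μ :=
      integral_map (hm j).measurable.aemeasurable Real.measurable_log.aestronglyMeasurable
    rw [← h1, (hm j).map_eq]
    exact Y8_log_val
  have hpos : ∀ j : ℕ, ∀ᵐ x ∂μ, 0 < S^[j] x ∧ S^[j] x < 1 := by
    intro j
    have h0 : ∀ᵐ y ∂μ, 0 < y ∧ y < 1 := by
      have h2 : ∀ᵐ y ∂μ, y ≠ 0 := by
        rw [hμ]
        exact ae_restrict_of_ae (Measure.ae_ne volume 0)
      have h3 : ∀ᵐ y ∂μ, y ∈ Set.Ico (0:ℝ) 1 := by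
        rw [hμ]
        exact ae_restrict_mem measurableSet_Ico
      filter_upwards [h2, h3] with y hy hy'
      exact ⟨lt_of_le_of_ne hy'.1 (Ne.symm hy), hy'.2⟩
    exact (hm j).quasiMeasurePreserving.ae h0
  -- the lower function
  have hlow_int : Integrable (fun x : ℝ => ∑ j ∈ Finset.range k,
      2 * (1 + Real.log (S^[j] x))) μ := by
    refine integrable_finsetSum _ (fun j _ => ?_)
    exact ((integrable_const (1:ℝ)).add (hint _)).const_mul 2
  have hlow_val : ∫ x, (∑ j ∈ Finset.range k, 2 * (1 + Real.log (S^[j] x))) ∂μ = 0 := by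
    rw [integral_finsetSum]
    · refine Finset.sum_eq_zero (fun j _ => ?_)
      rw [integral_const_mul, integral_add (integrable_const (1:ℝ)) (hint _), hval]
      simp
    · intro j _
      exact ((integrable_const (1:ℝ)).add (hint _)).const_mul 2
  have hprod_nonneg : ∀ x : ℝ, 0 ≤ ∏ j ∈ Finset.range k,
      (Real.exp 1 * cl (S^[j] x)) ^ 2 := fun x =>
    Finset.prod_nonneg (fun j _ => sq_nonneg _)
  have hprod_le : ∀ x : ℝ, ∏ j ∈ Finset.range k,
      (Real.exp 1 * cl (S^[j] x)) ^ 2 ≤ ((Real.exp 1) ^ 2) ^ k := by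
    intro x
    calc ∏ j ∈ Finset.range k, (Real.exp 1 * cl (S^[j] x)) ^ 2
        ≤ ∏ j ∈ Finset.range k, (Real.exp 1) ^ 2 := by
          refine Finset.prod_le_prod (fun j _ => sq_nonneg _) (fun j _ => ?_)
          have h1 : 0 ≤ cl (S^[j] x) := Y8_cl_nonneg _
          have h2 : cl (S^[j] x) ≤ 1 := Y8_cl_le _
          have h3 : 0 < Real.exp 1 := Real.exp_pos 1
          exact pow_le_pow_left₀ (by positivity) (by nlinarith) 2
      _ = ((Real.exp 1) ^ 2) ^ k := by simp
  have hF_meas : Measurable (fun x : ℝ => Real.log (δ + ∏ j ∈ Finset.range k,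
      (Real.exp 1 * cl (S^[j] x)) ^ 2)) := by
    refine Real.measurable_log.comp (measurable_const.add ?_)
    refine Finset.measurable_prod _ (fun j _ => ?_)
    exact ((Y8_cl_meas.comp (hm j).measurable).const_mul _).pow_const 2
  have hF_int : Integrable (fun x : ℝ => Real.log (δ + ∏ j ∈ Finset.range k,
      (Real.exp 1 * cl (S^[j] x)) ^ 2)) μ := by
    refine Integrable.of_bound hF_meas.aestronglyMeasurable
      (max |Real.log δ| |Real.log (δ + ((Real.exp 1) ^ 2) ^ k)|)
      (Eventually.of_forall (fun x => ?_))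
    rw [Real.norm_eq_abs]
    have h1 : Real.log δ ≤ Real.log (δ + ∏ j ∈ Finset.range k,
      (Real.exp 1 * cl (S^[j] x)) ^ 2) :=
      Real.log_le_log hδ (by linarith [hprod_nonneg x])
    have h2 : Real.log (δ + ∏ j ∈ Finset.range k,
      (Real.exp 1 * cl (S^[j] x)) ^ 2) ≤
        Real.log (δ + ((Real.exp 1) ^ 2) ^ k) :=
      Real.log_le_log (by linarith [hprod_nonneg x]) (by linarith [hprod_le x])
    exact abs_le_max_abs_abs h1 h2
  rw [← hlow_val]
  refine integral_mono_ae hlow_int hF_int ?_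
  have hall : ∀ᵐ x ∂μ, ∀ j : ℕ, 0 < S^[j] x ∧ S^[j] x < 1 := by
    rw [ae_all_iff]
    intro j
    exact hpos _
  filter_upwards [hall] with x hx
  have hpp : 0 < ∏ j ∈ Finset.range k, (Real.exp 1 * cl (S^[j] x)) ^ 2 := by
    refine Finset.prod_pos (fun j hj => ?_)
    rw [Y8_cl_eq (hx j).1 (hx j).2]
    have := (hx j).1
    positivity
  have e1 : ∑ j ∈ Finset.range k, 2 * (1 + Real.log (S^[j] x))
      = Real.log (∏ j ∈ Finset.range k, (Real.exp 1 * cl (S^[j] x)) ^ 2) := by
    rw [Real.log_prod]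
    · refine Finset.sum_congr rfl (fun j hj => ?_)
      have h1 := (hx j).1
      rw [Y8_cl_eq (hx j).1 (hx j).2]
      rw [Real.log_pow, Real.log_mul (Real.exp_pos 1).ne' h1.ne', Real.log_exp]
      norm_num
    · intro j hj
      rw [Y8_cl_eq (hx j).1 (hx j).2]
      have := (hx j).1
      positivity
  rw [e1]
  exact Real.log_le_log hpp (by linarith)

end Pool.Agent.H417B
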