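import Pool.Agent.H417B.Stmts

/-! Task Y9 (helper487): the log hypothesis of `GMAIN` for `T = e A*`. Adapted from `FIN` of helper712. -/

set_option autoImplicit false
open scoped ComplexConjugate InnerProductSpace Topology
open Filter MeasureTheory NormedSpace

namespace Pool.Agent.H417B
open Pool.Agent.H712R5.BO

/-- the function `g` -/
noncomputable def Y9_g (S : ℝ → ℝ) (δ : ℝ) (k : ℕ) (x : ℝ) : ℝ :=
  δ + ∏ j ∈ Finset.range k, (Real.exp 1 * cl (S^[j] x)) ^ 2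

theorem Y9_cl_meas : Measurable cl := by
  unfold cl
  exact measurable_const.max (measurable_const.min measurable_id)

theorem Y9_cl_nonneg (x : ℝ) : 0 ≤ cl x := le_max_left _ _

theorem Y9_cl_le (x : ℝ) : cl x ≤ 1 := max_le zero_le_one (min_le_left _ _)

theorem Y9_g_meas (S : ℝ → ℝ) (hS : Measurable S) (δ : ℝ) (k : ℕ) : Measurable (Y9_g S δ k) := by
  unfold Y9_g
  refine measurable_const.add (Finset.measurable_prod _ fun j _ => ?_)
  exact ((Y9_cl_meas.comp (hS.iterate j)).const_mul _).pow_const 2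

theorem Y9_g_bd (S : ℝ → ℝ) (δ : ℝ) (k : ℕ) (x : ℝ) :
    δ ≤ Y9_g S δ k x ∧ Y9_g S δ k x ≤ δ + (Real.exp 1 ^ 2) ^ k := by
  unfold Y9_g
  constructor
  · have : 0 ≤ ∏ j ∈ Finset.range k, (Real.exp 1 * cl (S^[j] x)) ^ 2 :=
      Finset.prod_nonneg fun j _ => sq_nonneg _
    linarith
  · have : ∏ j ∈ Finset.range k, (Real.exp 1 * cl (S^[j] x)) ^ 2 ≤
        ∏ _j ∈ Finset.range k, Real.exp 1 ^ 2 := by
      refine Finset.prod_le_prod (fun j _ => sq_nonneg _) fun j _ => ?_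
      refine pow_le_pow_left₀ (mul_nonneg (Real.exp_pos 1).le (Y9_cl_nonneg _)) ?_ 2
      exact mul_le_of_le_one_right (Real.exp_pos 1).le (Y9_cl_le _)
    rw [Finset.prod_const, Finset.card_range] at this
    linarith

theorem t_Y9 (h1 : P_Y7) (h2 : P_Y8) (h3 : P_Z5) : P_Y9 := by
  intro S hS u A v hu hA hv k δ hδ
  set T : LI →L[ℂ] LI := (Real.exp 1 : ℂ) • star A with hTdef
  have hM := h1 S hS u A hu hA k
  have hB : ∀ f : LI, ((algebraMap ℝ (LI →L[ℂ] LI) δ + star (T ^ k) * T ^ k) f : ℝ → ℂ)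
      =ᵐ[volume.restrict (Set.Ico (0:ℝ) 1)] (fun x => (Y9_g S δ k x : ℂ) * (f : ℝ → ℂ) x) := by
    intro f
    have h4 : (algebraMap ℝ (LI →L[ℂ] LI) δ + star (T ^ k) * T ^ k) f =
        (δ : ℂ) • f + (star (T ^ k) * T ^ k) f := by
      rw [_root_.add_apply, Algebra.algebraMap_eq_smul_one]
      congr 1
    rw [h4]
    filter_upwards [Lp.coeFn_add ((δ : ℂ) • f) ((star (T ^ k) * T ^ k) f),
      Lp.coeFn_smul (δ : ℂ) f, hM f] with x h5 h6 h7
    rw [h5, Pi.add_apply, h6, h7, Pi.smul_apply, smul_eq_mul]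
    unfold Y9_g
    push_cast
    ring
  have h5 := h3 _ (Y9_g S δ k) δ (δ + (Real.exp 1 ^ 2) ^ k) v hδ (Y9_g_meas S hS.measurable δ k)
    (Y9_g_bd S δ k) hB hv
  have h6 := h2 S hS k δ hδ
  change 0 ≤ ∫ x in Set.Ico (0:ℝ) 1, Real.log (Y9_g S δ k x) at h6
  exact h6.trans (le_of_eq h5.symm)

end Pool.Agent.H417B
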