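import Pool.Agent.H417B.Stmts

set_option autoImplicit false
open scoped ComplexConjugate InnerProductSpace Topology
open Filter MeasureTheory NormedSpace

namespace Pool.Agent.H417B
open Pool.Agent.H712R5.BO

theorem YFIN_ne_zero : ∀ᵐ x ∂mu, x ≠ (0:ℝ) := by
  apply ae_restrict_of_ae
  rw [ae_iff]
  have : {a : ℝ | ¬ a ≠ 0} = {0} := by ext x; simp
  rw [this]
  exact Real.volume_singleton

theorem YFIN_A_ne (S : ℝ → ℝ) (u A : LI →L[ℂ] LI) (hu : Koop S u) (hiso : ∀ f, ‖u f‖ = ‖f‖)
    (hA : Bis S A) (f : LI) (hf : A f = 0) : f = 0 := by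
  have h1 := hA f
  rw [hf] at h1
  have h2 : (u f : ℝ → ℂ) =ᵐ[mu] 0 := by
    filter_upwards [h1, hu f, YFIN_ne_zero, Lp.coeFn_zero ℂ 2 mu] with x hx hx2 hx3 hx4
    rw [hx2]
    rw [hx4] at hx
    have hx5 : (x : ℂ) * (f : ℝ → ℂ) (S x) = 0 := hx.symm
    rcases mul_eq_zero.mp hx5 with h | h
    · exact absurd (Complex.ofReal_eq_zero.mp h) hx3
    · exact h
  have h3 : u f = 0 := (Lp.eq_zero_iff_ae_eq_zero).mpr h2
  have h4 := hiso f
  rw [h3, norm_zero] at h4
  exact norm_eq_zero.mp h4.symm

theorem t_YFIN (h1 : P_GMAIN) (h2 : P_Z1) (h3 : P_Z3) (h4 : P_Y1) (h5 : P_Y2) (h6 : P_Y3)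
    (h7 : P_Y6) (h8 : P_Y9) : P_YFIN := by
  intro S hS A hA
  obtain ⟨u, hu, hiso⟩ := h4 S hS
  obtain ⟨b, E, hb, hE⟩ := h3
  have hb0 : (b 0 : LI) ≠ 0 := by
    intro h
    have := b.orthonormal.1 0
    rw [h, norm_zero] at this
    exact zero_ne_one this
  by_cases hd : Dense (Set.range A)
  · have hsurj := h5 S hS u A hu hA hd
    have hs1 : star u * u = 1 := by
      have := (ContinuousLinearMap.norm_map_iff_adjoint_comp_self u).mp hiso
      rw [ContinuousLinearMap.star_eq_adjoint]
      exact this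
    have hs2 : u * star u = 1 := by
      ext1 y
      obtain ⟨x, rfl⟩ := hsurj y
      have h9 : star u (u x) = x := by
        have := congrArg (fun T : LI →L[ℂ] LI => T x) hs1
        exact this
      show u (star u (u x)) = u x
      rw [h9]
    let U : unitary (LI →L[ℂ] LI) := ⟨u, Unitary.mem_iff.mpr ⟨hs1, hs2⟩⟩
    obtain ⟨hDat, hcomm, hnorm⟩ := h7 S hS b E U A hu hA hb hE
    by_cases hper : ∀ n : ℤ, n ≠ 0 → (star U) ^ n ≠ 1
    · have hone : (b 0 : ℝ → ℂ) =ᵐ[mu] (fun _ => 1) := by
        filter_upwards [hb 0] with x hx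
        rw [hx]
        simp
      obtain ⟨V', hc, hbot, htop, hinv⟩ := h1 LI b E (star U) hDat hper
        ((Real.exp 1 : ℂ) • star A) hcomm hnorm
        (fun k δ _ hδ => h8 S hS U A (b 0) hu hA hone k δ hδ)
      have : CompleteSpace V' := hc.completeSpace_coe
      refine ⟨V'ᗮ, Submodule.isClosed_orthogonal V', ?_, ?_, ?_⟩
      · intro h
        exact htop (Submodule.orthogonal_eq_bot_iff.mp h)
      · intro h
        apply hbot
        have h9 := Submodule.le_orthogonal_orthogonal V'
        rw [h, Submodule.top_orthogonal_eq_bot] at h9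
        exact le_bot_iff.mp h9
      · intro v hv
        rw [Submodule.mem_orthogonal] at hv ⊢
        intro w hw
        have h9 := hv _ (hinv w hw)
        have h10 : ⟪((Real.exp 1 : ℂ) • star A) w, v⟫_ℂ
            = conj (Real.exp 1 : ℂ) * ⟪w, A v⟫_ℂ := by
          rw [_root_.smul_apply, inner_smul_left, ContinuousLinearMap.star_eq_adjoint,
            ContinuousLinearMap.adjoint_inner_left]
        rw [h10] at h9
        rcases mul_eq_zero.mp h9 with h | h
        · exfalso
          rw [Complex.conj_ofReal] at h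
          exact (Real.exp_pos 1).ne' (Complex.ofReal_eq_zero.mp h)
        · exact h
    · push Not at hper
      obtain ⟨n, hn, hn1⟩ := hper
      have e0 : star U = U⁻¹ := rfl
      have e1 : U ^ n = 1 := by
        rw [e0, inv_zpow, inv_eq_one] at hn1
        exact hn1
      have e2 : U ^ n.natAbs = 1 := by
        rcases Int.natAbs_eq n with h | h
        · rw [h, zpow_natCast] at e1
          exact e1
        · rw [h, zpow_neg, zpow_natCast, inv_eq_one] at e1
          exact e1
      have e3 : u ^ n.natAbs = 1 := by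
        have := congrArg (fun W : unitary (LI →L[ℂ] LI) => (W : LI →L[ℂ] LI)) e2
        simpa [U] using this
      exact h6 S hS u A hu hA n.natAbs (Int.natAbs_pos.mpr hn) e3
  · refine ⟨(LinearMap.range (A : LI →ₗ[ℂ] LI)).topologicalClosure,
      Submodule.isClosed_topologicalClosure _, ?_, ?_, ?_⟩
    · intro h
      apply hb0
      apply YFIN_A_ne S u A hu hiso hA
      have h9 : A (b 0) ∈ (LinearMap.range (A : LI →ₗ[ℂ] LI)).topologicalClosure :=
        Submodule.le_topologicalClosure _ ⟨b 0, rfl⟩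
      rw [h] at h9
      exact (Submodule.mem_bot ℂ).mp h9
    · intro h
      apply hd
      have h9 := Submodule.dense_iff_topologicalClosure_eq_top.mpr h
      intro x
      exact h9 x
    · intro v _
      exact Submodule.le_topologicalClosure _ ⟨v, rfl⟩

end Pool.Agent.H417B
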